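import Mathlib

set_option autoImplicit false

/-!
# Polluted bootstrap percolation on `ℤ^d`: definitions and basic facts
-/

namespace Pool.Agent.Polluted

open MeasureTheory ProbabilityTheory Filter

/-- The initial state of a site. -/
inductive SiteState : Type
  | occupied
  | closed
  | empty
  deriving DecidableEq

instance : Fintype SiteState :=
  ⟨{SiteState.occupied, SiteState.closed, SiteState.empty}, by intro x; cases x <;> decide⟩

instance : MeasurableSpace SiteState := ⊤
instance : DiscreteMeasurableSpace SiteState := ⟨fun _ => trivial⟩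
instance : Nonempty SiteState := ⟨.empty⟩

/-- An initial configuration on `ℤ^d`. -/
abbrev Config (d : ℕ) : Type := (Fin d → ℤ) → SiteState

/-- The law of one site: occupied with probability `p`, closed with probability `q`,
empty with probability `1 - p - q`. -/
noncomputable def siteLaw (p q : ℝ) : Measure SiteState :=
  ENNReal.ofReal p • Measure.dirac SiteState.occupied +
    ENNReal.ofReal q • Measure.dirac SiteState.closed +
    ENNReal.ofReal (1 - p - q) • Measure.dirac SiteState.empty

/-- Nearest neighbours in `ℤ^d`. -/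
def Adj {d : ℕ} (x y : Fin d → ℤ) : Prop := ∑ i, |x i - y i| = 1

/-- The set of occupied sites after `t` steps of the dynamics with threshold `r`: every empty
site with at least `r` occupied nearest neighbours becomes occupied; occupied sites stay
occupied and closed sites never change. -/
def occ {d : ℕ} (r : ℕ) (ω : Config d) : ℕ → Set (Fin d → ℤ)
  | 0 => {x | ω x = SiteState.occupied}
  | t + 1 => occ r ω t ∪
      {x | ω x = SiteState.empty ∧ r ≤ {y | Adj x y ∧ y ∈ occ r ω t}.ncard}

/-- The law of the initial configuration (sites are independent with law `siteLaw p q`). -/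
noncomputable def configLaw (d : ℕ) (p q : ℝ) : Measure (Config d) :=
  Measure.infinitePi (fun _ : Fin d → ℤ => siteLaw p q)

/-- `φ(p,q)`: the probability that the origin is eventually occupied. -/
noncomputable def phi (d r : ℕ) (p q : ℝ) : ℝ :=
  (configLaw d p q).real {ω | ∃ t, (0 : Fin d → ℤ) ∈ occ r ω t}

/-- The set of eventually occupied sites. -/
def finalSet {d : ℕ} (r : ℕ) (ω : Config d) : Set (Fin d → ℤ) := {x | ∃ t, x ∈ occ r ω t}

/-! ### The site law -/

theorem isProbabilityMeasure_siteLaw {p q : ℝ} (hp : 0 ≤ p) (hq : 0 ≤ q) (hpq : p + q ≤ 1) :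
    IsProbabilityMeasure (siteLaw p q) := by
  constructor
  simp only [siteLaw, Measure.coe_add, Measure.coe_smul, Pi.add_apply, Pi.smul_apply,
    measure_univ, smul_eq_mul, mul_one]
  rw [← ENNReal.ofReal_add hp hq, ← ENNReal.ofReal_add (by linarith) (by linarith)]
  simp

theorem siteLaw_occupied (p q : ℝ) : siteLaw p q {SiteState.occupied} = ENNReal.ofReal p := by
  simp [siteLaw]

theorem siteLaw_closed (p q : ℝ) : siteLaw p q {SiteState.closed} = ENNReal.ofReal q := by
  simp [siteLaw]

theorem siteLaw_empty (p q : ℝ) : siteLaw p q {SiteState.empty} = ENNReal.ofReal (1 - p - q) := by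
  simp [siteLaw]

/-! ### Neighbours -/

section Neighbours

variable {d : ℕ}

theorem Adj.symm {x y : Fin d → ℤ} (h : Adj x y) : Adj y x := by
  unfold Adj at *
  simpa [abs_sub_comm] using h

/-- `x` shifted by `s` in direction `i`. -/
def shift (x : Fin d → ℤ) (i : Fin d) (s : ℤ) : Fin d → ℤ := Function.update x i (x i + s)

@[simp] theorem shift_same (x : Fin d → ℤ) (i : Fin d) (s : ℤ) : shift x i s i = x i + s := by
  simp [shift]

theorem shift_ne (x : Fin d → ℤ) {i j : Fin d} (s : ℤ) (h : j ≠ i) : shift x i s j = x j := by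
  simp [shift, h]

theorem adj_iff {x y : Fin d → ℤ} : Adj x y ↔ ∃ i, ∃ s : ℤ, (s = 1 ∨ s = -1) ∧ y = shift x i s := by
  constructor
  · intro h
    unfold Adj at h
    have hex : ∃ i, x i ≠ y i := by
      by_contra hcon
      push Not at hcon
      simp [hcon] at h
    obtain ⟨i, hi⟩ := hex
    have hpos : 1 ≤ |x i - y i| := by
      have : 0 < |x i - y i| := abs_pos.mpr (sub_ne_zero.mpr hi)
      omega
    have hsplit : ∑ j, |x j - y j| = |x i - y i| + ∑ j ∈ Finset.univ.erase i, |x j - y j| :=
      (Finset.add_sum_erase _ (fun j => |x j - y j|) (Finset.mem_univ i)).symm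
    have hnn : 0 ≤ ∑ j ∈ Finset.univ.erase i, |x j - y j| :=
      Finset.sum_nonneg (fun _ _ => abs_nonneg _)
    have h1 : |x i - y i| = 1 := by omega
    have h0 : ∑ j ∈ Finset.univ.erase i, |x j - y j| = 0 := by omega
    rw [Finset.sum_eq_zero_iff_of_nonneg (fun _ _ => abs_nonneg _)] at h0
    refine ⟨i, y i - x i, ?_, ?_⟩
    · rcases abs_eq (by norm_num : (0:ℤ) ≤ 1) |>.mp h1 with h2 | h2
      · right; omega
      · left; omega
    · funext j
      by_cases hj : j = i
      · subst hj; simp
      · rw [shift_ne _ _ hj]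
        have := h0 j (by simp [hj])
        have := abs_eq_zero.mp this
        omega
  · rintro ⟨i, s, hs, rfl⟩
    unfold Adj
    rw [Finset.sum_eq_single i]
    · rcases hs with rfl | rfl <;> simp
    · intro j _ hj
      simp [shift_ne _ _ hj]
    · simp

theorem adj_shift (x : Fin d → ℤ) (i : Fin d) {s : ℤ} (hs : s = 1 ∨ s = -1) :
    Adj x (shift x i s) := adj_iff.mpr ⟨i, s, hs, rfl⟩

theorem shift_injective (x : Fin d → ℤ) {i j : Fin d} {s t : ℤ} (hs : s = 1 ∨ s = -1)
    (h : shift x i s = shift x j t) : i = j ∧ s = t := by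
  have hij : i = j := by
    by_contra hne
    have := congrFun h i
    rw [shift_same, shift_ne _ _ hne] at this
    rcases hs with rfl | rfl <;> omega
  subst hij
  refine ⟨rfl, ?_⟩
  have := congrFun h i
  simp at this
  exact this

theorem finite_adj (x : Fin d → ℤ) : {y | Adj x y}.Finite := by
  have : {y | Adj x y} ⊆ (Set.univ : Set (Fin d)).image (fun i => shift x i 1) ∪
      (Set.univ : Set (Fin d)).image (fun i => shift x i (-1)) := by
    intro y hy
    obtain ⟨i, s, hs, rfl⟩ := adj_iff.mp hy
    rcases hs with rfl | rfl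
    · left; exact ⟨i, trivial, rfl⟩
    · right; exact ⟨i, trivial, rfl⟩
  exact Set.Finite.subset (((Set.finite_univ).image _).union ((Set.finite_univ).image _)) this

theorem finite_adj_inter (x : Fin d → ℤ) (A : Set (Fin d → ℤ)) : {y | Adj x y ∧ y ∈ A}.Finite :=
  (finite_adj x).subset (fun _ h => h.1)

end Neighbours

/-! ### Final set: closure properties and minimality -/

section Final

variable {d : ℕ} {r : ℕ} {ω : Config d}

theorem occ_mono_succ (t : ℕ) : occ r ω t ⊆ occ r ω (t + 1) := by
  intro x hx
  exact Or.inl hx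

theorem occ_mono {s t : ℕ} (h : s ≤ t) : occ r ω s ⊆ occ r ω t := by
  induction h with
  | refl => exact subset_rfl
  | step _ ih => exact ih.trans (occ_mono_succ _)

theorem occupied_mem_finalSet {x : Fin d → ℤ} (h : ω x = SiteState.occupied) :
    x ∈ finalSet r ω := ⟨0, h⟩

/-- The final set is closed under the growth rule. -/
theorem finalSet_closed {x : Fin d → ℤ} (hx : ω x ≠ SiteState.closed)
    (h : r ≤ {y | Adj x y ∧ y ∈ finalSet r ω}.ncard) : x ∈ finalSet r ω := by
  classical
  have hfin := finite_adj_inter x (finalSet r ω)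
  -- common time
  have hT : ∃ T, ∀ y ∈ {y | Adj x y ∧ y ∈ finalSet r ω}, y ∈ occ r ω T := by
    have : ∀ y ∈ {y | Adj x y ∧ y ∈ finalSet r ω}, ∃ t, y ∈ occ r ω t := fun y hy => hy.2
    choose! f hf using this
    refine ⟨hfin.toFinset.sup f, fun y hy => ?_⟩
    exact occ_mono (Finset.le_sup (f := f) (hfin.mem_toFinset.mpr hy)) (hf y hy)
  obtain ⟨T, hT⟩ := hT
  cases hω : ω x with
  | occupied => exact ⟨0, hω⟩
  | closed => exact absurd hω hx
  | empty =>
    refine ⟨T + 1, Or.inr ⟨hω, h.trans ?_⟩⟩
    exact Set.ncard_le_ncard (fun y hy => ⟨hy.1, hT y hy⟩) (finite_adj_inter x _)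

/-- The final set is contained in every set that contains the occupied sites and is closed
under the growth rule. -/
theorem finalSet_subset {B : Set (Fin d → ℤ)} (h0 : ∀ x, ω x = SiteState.occupied → x ∈ B)
    (h1 : ∀ x, ω x ≠ SiteState.closed → r ≤ {y | Adj x y ∧ y ∈ B}.ncard → x ∈ B) :
    finalSet r ω ⊆ B := by
  have key : ∀ t, occ r ω t ⊆ B := by
    intro t
    induction t with
    | zero => exact fun x hx => h0 x hx
    | succ t ih =>
      rintro x (ht | ⟨hω, hr⟩)
      · exact ih ht
      · refine h1 x (by rw [hω]; decide) (hr.trans ?_)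
        exact Set.ncard_le_ncard (fun y hy => ⟨hy.1, ih hy.2⟩) (finite_adj_inter x _)
  rintro x ⟨t, ht⟩
  exact key t ht

theorem phi_eq (d r : ℕ) (p q : ℝ) :
    phi d r p q = (configLaw d p q).real {ω | (0 : Fin d → ℤ) ∈ finalSet r ω} := rfl

end Final

end Pool.Agent.Polluted
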