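import Pool.Agent.Polluted.Reach

set_option autoImplicit false

/-!
# Hierarchical clusters and obstacles (lower half)
-/

namespace Pool.Agent.Polluted

variable {d : ℕ}

/-- The parameters of the hierarchical construction. -/
structure Par (d : ℕ) where
  b : ℕ → ℕ
  La : ℕ → ℕ
  κ : ℕ → ℝ
  c : ℕ → ℝ
  u : ℕ → ℝ
  w : ℕ → ℝ
  ρ1 : ℝ
  ρ2 : ℝ
  κ_zero : κ 0 = 1 / d
  c_zero : c 0 = 0
  κ_nonneg : ∀ j, 0 ≤ κ j
  κ_le_one : ∀ j, κ j ≤ 1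
  κ_anti : ∀ j, κ (j + 1) ≤ κ j
  c_nonneg : ∀ j, 0 ≤ c j
  u_eq : ∀ j, u j = c j + d * b j + d
  w_eq : ∀ j, w j = 2 * (u j + ρ2)
  c_succ : ∀ j, c (j + 1) = 2 * c j + (d + 1) * w j
  gap : ∀ j, c j + (d + 1) * w j ≤ (κ j - κ (j + 1)) * (La j - w j)
  b_La : ∀ j, 2 * b j ≤ La j
  w_lt : ∀ j, w j < La j
  ρ1_nonneg : 0 ≤ ρ1
  ρ2_nonneg : 0 ≤ ρ2

variable (P : Par d) (W0 : Set (Fin d → ℤ))

/-- The bad sites which are still present at level `i`. -/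
def WW : ℕ → Set (Fin d → ℤ)
  | 0 => W0
  | i + 1 => {y | y ∈ WW i ∧ ∃ y' ∈ WW i, (P.b i : ℝ) < ‖y - y'‖ ∧ ‖y - y'‖ ≤ P.La i}

/-- The sites isolated at level `i`. -/
def BB (i : ℕ) : Set (Fin d → ℤ) := {y | y ∈ WW P W0 i ∧ y ∉ WW P W0 (i + 1)}

/-- The cluster of `y` at level `i`. -/
def QQ (i : ℕ) (y : Fin d → ℤ) : Set (Fin d → ℤ) := {y' | y' ∈ BB P W0 i ∧ ‖y - y'‖ ≤ P.b i}

/-- The obstacles of level less than `j`. -/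
def Ob : ℕ → Set (Set (Fin d → ℤ))
  | 0 => ∅
  | j + 1 => Ob j ∪ {N | ∃ y ∈ BB P W0 j, N = Nbh P.ρ2 (Uh (Ob j) (QQ P W0 j y))}

variable {P W0}

theorem BB_dichotomy {i : ℕ} {y y' : Fin d → ℤ} (hy : y ∈ BB P W0 i) (hy' : y' ∈ WW P W0 i)
    (h : ‖y - y'‖ ≤ P.La i) : ‖y - y'‖ ≤ P.b i := by
  by_contra hcon
  push Not at hcon
  exact hy.2 ⟨hy.1, y', hy', hcon, h⟩

theorem QQ_self {i : ℕ} {y : Fin d → ℤ} (hy : y ∈ BB P W0 i) : y ∈ QQ P W0 i y := by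
  refine ⟨hy, ?_⟩
  rw [sub_self, norm_zero]
  exact Nat.cast_nonneg _

theorem QQ_diam {i : ℕ} {y q q' : Fin d → ℤ} (hq : q ∈ QQ P W0 i y)
    (hq' : q' ∈ QQ P W0 i y) : ‖q - q'‖ ≤ P.b i := by
  refine BB_dichotomy hq.1 hq'.1.1 ?_
  have h1 : ‖q - q'‖ ≤ ‖y - q‖ + ‖y - q'‖ := by
    calc ‖q - q'‖ = ‖(y - q') - (y - q)‖ := by congr 1; abel
      _ ≤ ‖y - q'‖ + ‖y - q‖ := norm_sub_le _ _
      _ = _ := add_comm _ _
  have h2 : (2 * P.b i : ℝ) ≤ P.La i := by exact_mod_cast P.b_La i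
  have h3 := hq.2
  have h4 := hq'.2
  linarith

theorem QQ_eq {i : ℕ} {y y' : Fin d → ℤ} (hy : y ∈ BB P W0 i) (hy' : y' ∈ BB P W0 i)
    (h : ‖y - y'‖ ≤ P.La i) : QQ P W0 i y = QQ P W0 i y' := by
  have h1 := BB_dichotomy hy hy'.1 h
  have h2 : (2 * P.b i : ℝ) ≤ P.La i := by exact_mod_cast P.b_La i
  ext z
  constructor
  · rintro ⟨hz, hyz⟩
    refine ⟨hz, BB_dichotomy hy' hz.1 ?_⟩
    calc ‖y' - z‖ = ‖(y - z) - (y - y')‖ := by congr 1; abel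
      _ ≤ ‖y - z‖ + ‖y - y'‖ := norm_sub_le _ _
      _ ≤ _ := by linarith
  · rintro ⟨hz, hyz⟩
    refine ⟨hz, BB_dichotomy hy hz.1 ?_⟩
    calc ‖y - z‖ = ‖(y - y') + (y' - z)‖ := by congr 1; abel
      _ ≤ ‖y - y'‖ + ‖y' - z‖ := norm_add_le _ _
      _ ≤ _ := by linarith

theorem uh_near {j : ℕ} (hcl : Claim (Ob P W0 j) (P.κ j) (P.c j)) {y q0 v : Fin d → ℤ}
    (hq0 : q0 ∈ QQ P W0 j y) (hv : v ∈ Uh (Ob P W0 j) (QQ P W0 j y)) : ‖v - q0‖ ≤ P.u j := by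
  rw [P.u_eq]
  exact uh_bound hcl (P.κ_nonneg j) (fun q hq q' hq' => QQ_diam hq hq') hq0 hv

theorem nbh_near {j : ℕ} (hcl : Claim (Ob P W0 j) (P.κ j) (P.c j)) {y q0 x : Fin d → ℤ}
    (hq0 : q0 ∈ QQ P W0 j y) (hx : x ∈ Nbh P.ρ2 (Uh (Ob P W0 j) (QQ P W0 j y))) :
    ‖x - q0‖ ≤ P.w j / 2 := by
  obtain ⟨v, hv, hvx⟩ := hx
  have h1 := uh_near hcl hq0 hv
  have h2 : ‖x - q0‖ ≤ ‖v - x‖ + ‖v - q0‖ := by
    calc ‖x - q0‖ = ‖(v - q0) - (v - x)‖ := by congr 1; abel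
      _ ≤ ‖v - q0‖ + ‖v - x‖ := norm_sub_le _ _
      _ = _ := add_comm _ _
  rw [P.w_eq]
  linarith

theorem w_nonneg (j : ℕ) : 0 ≤ P.w j := by
  rw [P.w_eq, P.u_eq]
  have h1 := P.c_nonneg j
  have h2 := P.ρ2_nonneg
  have h3 : (0:ℝ) ≤ d * P.b j := by positivity
  have h4 : (0:ℝ) ≤ d := Nat.cast_nonneg d
  linarith

/-- Two obstacles of the same level which are close to each other come from the same cluster. -/
theorem same_cluster {j : ℕ} (hcl : Claim (Ob P W0 j) (P.κ j) (P.c j)) {y y' x x' : Fin d → ℤ}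
    (hy : y ∈ BB P W0 j) (hy' : y' ∈ BB P W0 j)
    (hx : x ∈ Nbh P.ρ2 (Uh (Ob P W0 j) (QQ P W0 j y)))
    (hx' : x' ∈ Nbh P.ρ2 (Uh (Ob P W0 j) (QQ P W0 j y')))
    (h : ‖x - x'‖ ≤ P.La j - P.w j) : QQ P W0 j y = QQ P W0 j y' := by
  refine QQ_eq hy hy' ?_
  have h1 := nbh_near hcl (QQ_self hy) hx
  have h2 := nbh_near hcl (QQ_self hy') hx'
  calc ‖y - y'‖ = ‖((x - x') - (x - y)) + (x' - y')‖ := by congr 1; abel
    _ ≤ ‖(x - x') - (x - y)‖ + ‖x' - y'‖ := norm_add_le _ _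
    _ ≤ (‖x - x'‖ + ‖x - y‖) + ‖x' - y'‖ := by
        have := norm_sub_le (x - x') (x - y)
        linarith
    _ ≤ _ := by linarith

theorem claim_all (hd : 1 ≤ d) (j : ℕ) : Claim (Ob P W0 j) (P.κ j) (P.c j) := by
  induction j with
  | zero =>
    rw [P.κ_zero, P.c_zero]
    exact claim_empty hd
  | succ j ih =>
    rw [P.c_succ]
    refine claim_union ih (P.κ_nonneg _) (P.κ_le_one _) (P.κ_anti j) (P.c_nonneg j) (w_nonneg j)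
      ?_ ?_ (P.gap j)
    · rintro N ⟨y, hy, rfl⟩ x hx x' hx'
      have h1 := nbh_near ih (QQ_self hy) hx
      have h2 := nbh_near ih (QQ_self hy) hx'
      calc ‖x - x'‖ = ‖(x - y) - (x' - y)‖ := by congr 1; abel
        _ ≤ ‖x - y‖ + ‖x' - y‖ := norm_sub_le _ _
        _ ≤ _ := by linarith
    · rintro N ⟨y, hy, rfl⟩ N' ⟨y', hy', rfl⟩ hne x hx x' hx'
      by_contra hcon
      push Not at hcon
      apply hne
      rw [same_cluster ih hy hy' hx hx' hcon.le]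

theorem Ob_mono {i j : ℕ} (h : i ≤ j) : Ob P W0 i ⊆ Ob P W0 j := by
  induction h with
  | refl => exact subset_rfl
  | step _ ih => exact ih.trans Set.subset_union_left

theorem nbh_mem_Ob {i j : ℕ} (h : i < j) {y : Fin d → ℤ} (hy : y ∈ BB P W0 i) :
    Nbh P.ρ2 (Uh (Ob P W0 i) (QQ P W0 i y)) ∈ Ob P W0 j :=
  Ob_mono (show i + 1 ≤ j from h) (Or.inr ⟨y, hy, rfl⟩)

end Pool.Agent.Polluted
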