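import Pool.Agent.Polluted.Greater

set_option autoImplicit false

/-!
# Coarse-graining in the case `d = r`
-/

namespace Pool.Agent.Polluted

open MeasureTheory ProbabilityTheory

variable {d : ℕ}

/-! ### Images of product measures under block maps -/

section Block

variable (μ : Measure SiteState) [IsProbabilityMeasure μ]

theorem pp_map_shift (v : Fin d → ℤ) :
    (PP d μ).map (fun ω x => ω (x + v)) = PP d μ := by
  classical
  have hmeas : Measurable (fun (ω : Config d) (x : Fin d → ℤ) => ω (x + v)) :=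
    measurable_pi_iff.mpr fun x => measurable_pi_apply _
  have := Measure.isProbabilityMeasure_map (μ := PP d μ) hmeas.aemeasurable
  refine Measure.eq_infinitePi _ (fun s t ht => ?_)
  rw [Measure.map_apply hmeas (MeasurableSet.pi s.countable_toSet (fun i _ => ht i))]
  have h1 : (fun (ω : Config d) (x : Fin d → ℤ) => ω (x + v)) ⁻¹' (Set.pi (s : Set (Fin d → ℤ)) t) =
      Set.pi ((s.image (fun x => x + v) : Finset (Fin d → ℤ)) : Set (Fin d → ℤ))
        (fun z => t (z - v)) := by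
    ext ω
    simp only [Set.mem_preimage, Set.mem_pi, Finset.mem_coe, Finset.mem_image]
    constructor
    · rintro h z ⟨x, hx, rfl⟩
      simpa using h x hx
    · intro h x hx
      simpa using h (x + v) ⟨x, hx, rfl⟩
  rw [h1, Measure.infinitePi_pi _ (fun i _ => ht _), Finset.prod_image]
  · simp
  · intro a _ b _ hab
    exact add_right_cancel hab

/-- A block map with independent identically distributed blocks. -/
theorem pp_map_block (X : Config d → Config d) (B : (Fin d → ℤ) → Finset (Fin d → ℤ))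
    (hB : ∀ y y', y ≠ y' → Disjoint (B y) (B y'))
    (hX : ∀ y (T : Set SiteState), EventOn {ω | X ω y ∈ T} (B y))
    (κ : Measure SiteState) [IsProbabilityMeasure κ]
    (hκ : ∀ y (T : Set SiteState), (PP d μ) {ω | X ω y ∈ T} = κ T) :
    Measurable X ∧ (PP d μ).map X = PP d κ := by
  classical
  have hmeas : Measurable X := by
    refine measurable_pi_iff.mpr fun y T _ => ?_
    exact (hX y T).measurableSet
  refine ⟨hmeas, ?_⟩
  have := Measure.isProbabilityMeasure_map (μ := PP d μ) hmeas.aemeasurable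
  refine Measure.eq_infinitePi _ (fun s t ht => ?_)
  rw [Measure.map_apply hmeas (MeasurableSet.pi s.countable_toSet (fun i _ => ht i))]
  have key : ∀ s : Finset (Fin d → ℤ), EventOn {ω | ∀ y ∈ s, X ω y ∈ t y} (s.biUnion B) ∧
      (PP d μ) {ω | ∀ y ∈ s, X ω y ∈ t y} = ∏ y ∈ s, κ (t y) := by
    intro s
    induction s using Finset.induction_on with
    | empty =>
      refine ⟨fun _ _ _ => by simp, ?_⟩
      simp
    | insert y s hy ih =>
      have h1 : {ω : Config d | ∀ y' ∈ insert y s, X ω y' ∈ t y'} =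
          {ω | X ω y ∈ t y} ∩ {ω | ∀ y' ∈ s, X ω y' ∈ t y'} := by
        ext ω
        simp
      have hdisj : Disjoint (B y) (s.biUnion B) := by
        rw [Finset.disjoint_biUnion_right]
        intro y' hy'
        exact hB y y' (fun h => hy (h ▸ hy'))
      constructor
      · rw [h1, Finset.biUnion_insert, Finset.coe_union]
        exact ((hX y (t y)).mono Set.subset_union_left).inter (ih.1.mono Set.subset_union_right)
      · rw [h1, measure_inter_of_eventOn (hX y (t y)) ih.1 hdisj, ih.2, Finset.prod_insert hy, hκ]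
  have h2 : X ⁻¹' (Set.pi (s : Set (Fin d → ℤ)) t) = {ω | ∀ y ∈ s, X ω y ∈ t y} := by
    ext ω
    simp [Set.mem_pi]
  rw [h2]
  exact (key s).2

end Block

/-! ### The coarse field -/

/-- The box of side `ℓ` containing `x`. -/
def box (ℓ : ℕ) (x : Fin d → ℤ) : Fin d → ℤ := fun i => x i / ℓ

/-- The coarse site `y` is closed. -/
def CClosed (ℓ : ℕ) (ω : Config d) (y : Fin d → ℤ) : Prop :=
  (∃ x, box ℓ x = y ∧ ω x = SiteState.closed) ∨
    ∃ x m, box ℓ x = y ∧ ∀ x', box ℓ x' = y → (∀ i, i ≠ m → x' i = x i) →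
      ω x' ≠ SiteState.occupied

open Classical in
/-- The coarse field. -/
noncomputable def coarse (ℓ : ℕ) (ω : Config d) (y : Fin d → ℤ) : SiteState :=
  if CClosed ℓ ω y then SiteState.closed
  else if ∀ x, box ℓ x = y → ω x = SiteState.occupied then SiteState.occupied
  else SiteState.empty

/-- The sites of a coarse box. -/
noncomputable def boxF (ℓ : ℕ) (y : Fin d → ℤ) : Finset (Fin d → ℤ) :=
  Fintype.piFinset (fun i => Finset.Ico (ℓ * y i) (ℓ * (y i + 1)))

theorem mem_boxF {ℓ : ℕ} (hℓ : 1 ≤ ℓ) {y x : Fin d → ℤ} : x ∈ boxF ℓ y ↔ box ℓ x = y := by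
  simp only [boxF, Fintype.mem_piFinset, Finset.mem_Ico]
  have hpos : (0 : ℤ) < ℓ := by exact_mod_cast hℓ
  constructor
  · intro h
    funext i
    obtain ⟨h1, h2⟩ := h i
    apply le_antisymm
    · rw [← Int.lt_add_one_iff]
      exact Int.ediv_lt_of_lt_mul hpos (by rw [mul_comm]; exact h2)
    · exact Int.le_ediv_of_mul_le hpos (by rw [mul_comm]; exact h1)
  · intro h i
    have h1 : x i / ℓ = y i := congrFun h i
    have h2 := Int.mul_ediv_add_emod (x i) ℓ
    have h3 := Int.emod_nonneg (x i) hpos.ne'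
    have h4 := Int.emod_lt_of_pos (x i) hpos
    rw [h1] at h2
    constructor
    · linarith
    · rw [mul_add]; linarith

theorem box_bounds {ℓ : ℕ} (hℓ : 1 ≤ ℓ) {y x : Fin d → ℤ} (h : box ℓ x = y) (i : Fin d) :
    ℓ * y i ≤ x i ∧ x i < ℓ * (y i + 1) := by
  have := (mem_boxF hℓ).mpr h
  simp only [boxF, Fintype.mem_piFinset, Finset.mem_Ico] at this
  exact this i

theorem box_of_bounds {ℓ : ℕ} (hℓ : 1 ≤ ℓ) {y x : Fin d → ℤ}
    (h : ∀ i, ℓ * y i ≤ x i ∧ x i < ℓ * (y i + 1)) : box ℓ x = y := by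
  rw [← mem_boxF hℓ]
  simp only [boxF, Fintype.mem_piFinset, Finset.mem_Ico]
  exact h

theorem card_boxF (ℓ : ℕ) (y : Fin d → ℤ) : (boxF ℓ y).card = ℓ ^ d := by
  rw [boxF, Fintype.card_piFinset]
  have : ∀ i : Fin d, (Finset.Ico ((ℓ : ℤ) * y i) (ℓ * (y i + 1))).card = ℓ := by
    intro i
    rw [Int.card_Ico]
    have : (ℓ : ℤ) * (y i + 1) - ℓ * y i = (ℓ : ℤ) := by ring
    rw [this, Int.toNat_natCast]
  simp [this]

theorem eventOn_coarse {ℓ : ℕ} (hℓ : 1 ≤ ℓ) (y : Fin d → ℤ) (T : Set SiteState) :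
    EventOn {ω : Config d | coarse ℓ ω y ∈ T} (boxF ℓ y) := by
  have hc : ∀ ω ω' : Config d, (∀ i ∈ (boxF ℓ y : Set (Fin d → ℤ)), ω i = ω' i) →
      (CClosed ℓ ω y → CClosed ℓ ω' y) := by
    intro ω ω' h
    have h' : ∀ x, box ℓ x = y → ω x = ω' x := fun x hx => h x ((mem_boxF hℓ).mpr hx)
    rintro (⟨x, hx, hcl⟩ | ⟨x, m, hx, hline⟩)
    · left; exact ⟨x, hx, by rw [← h' x hx]; exact hcl⟩
    · right; exact ⟨x, m, hx, fun x' hx' hi => by rw [← h' x' hx']; exact hline x' hx' hi⟩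
  intro ω ω' h
  have h' : ∀ x, box ℓ x = y → ω x = ω' x := fun x hx => h x ((mem_boxF hℓ).mpr hx)
  have e1 : CClosed ℓ ω y ↔ CClosed ℓ ω' y := ⟨hc ω ω' h, hc ω' ω (fun i hi => (h i hi).symm)⟩
  have e2 : (∀ x, box ℓ x = y → ω x = SiteState.occupied) ↔
      (∀ x, box ℓ x = y → ω' x = SiteState.occupied) := by
    constructor
    · intro h1 x hx; rw [← h' x hx]; exact h1 x hx
    · intro h1 x hx; rw [h' x hx]; exact h1 x hx
  have e3 : coarse ℓ ω y = coarse ℓ ω' y := by
    classical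
    unfold coarse
    by_cases hcc : CClosed ℓ ω y
    · rw [if_pos hcc, if_pos (e1.mp hcc)]
    · rw [if_neg hcc, if_neg (fun h => hcc (e1.mpr h))]
      by_cases ho : ∀ x, box ℓ x = y → ω x = SiteState.occupied
      · rw [if_pos ho, if_pos (e2.mp ho)]
      · rw [if_neg ho, if_neg (fun h => ho (e2.mpr h))]
  show coarse ℓ ω y ∈ T ↔ coarse ℓ ω' y ∈ T
  rw [e3]

theorem box_add {ℓ : ℕ} (hℓ : 1 ≤ ℓ) (x y : Fin d → ℤ) :
    box ℓ (x + fun i => (ℓ : ℤ) * y i) = box ℓ x + y := by
  have hpos : (ℓ : ℤ) ≠ 0 := by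
    have : (0 : ℤ) < ℓ := by exact_mod_cast hℓ
    exact this.ne'
  funext i
  simp only [box, Pi.add_apply]
  rw [Int.add_mul_ediv_left _ _ hpos]

theorem coarse_shift {ℓ : ℕ} (hℓ : 1 ≤ ℓ) (ω : Config d) (y : Fin d → ℤ) :
    coarse ℓ ω y = coarse ℓ (fun x => ω (x + fun i => (ℓ : ℤ) * y i)) 0 := by
  classical
  set v : Fin d → ℤ := fun i => (ℓ : ℤ) * y i with hv
  have hb : ∀ x, box ℓ (x + v) = y ↔ box ℓ x = 0 := by
    intro x
    rw [hv, box_add hℓ]
    constructor
    · intro h; simpa using h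
    · intro h; rw [h, zero_add]
  have hsurj : ∀ x : Fin d → ℤ, ∃ z, x = z + v := fun x => ⟨x - v, by simp⟩
  have e1 : CClosed ℓ ω y ↔ CClosed ℓ (fun x => ω (x + v)) 0 := by
    constructor
    · rintro (⟨x, hx, hcl⟩ | ⟨x, m, hx, hline⟩)
      · obtain ⟨z, rfl⟩ := hsurj x
        left; exact ⟨z, (hb z).mp hx, hcl⟩
      · obtain ⟨z, rfl⟩ := hsurj x
        right
        refine ⟨z, m, (hb z).mp hx, fun x' hx' hi => hline (x' + v) ((hb x').mpr hx') ?_⟩
        intro i him
        simp [hi i him]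
    · rintro (⟨z, hz, hcl⟩ | ⟨z, m, hz, hline⟩)
      · left; exact ⟨z + v, (hb z).mpr hz, hcl⟩
      · right
        refine ⟨z + v, m, (hb z).mpr hz, fun x' hx' hi => ?_⟩
        obtain ⟨z', rfl⟩ := hsurj x'
        refine hline z' ((hb z').mp hx') (fun i him => ?_)
        have := hi i him
        simpa using this
  have e2 : (∀ x, box ℓ x = y → ω x = SiteState.occupied) ↔
      (∀ x, box ℓ x = 0 → (fun x => ω (x + v)) x = SiteState.occupied) := by
    constructor
    · intro h x hx; exact h (x + v) ((hb x).mpr hx)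
    · intro h x hx
      obtain ⟨z, rfl⟩ := hsurj x
      exact h z ((hb z).mp hx)
  unfold coarse
  by_cases hcc : CClosed ℓ ω y
  · rw [if_pos hcc, if_pos (e1.mp hcc)]
  · rw [if_neg hcc, if_neg (fun h => hcc (e1.mpr h))]
    by_cases ho : ∀ x, box ℓ x = y → ω x = SiteState.occupied
    · rw [if_pos ho, if_pos (e2.mp ho)]
    · rw [if_neg ho, if_neg (fun h => ho (e2.mpr h))]

end Pool.Agent.Polluted
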