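import Pool.Agent.Polluted.Fam

set_option autoImplicit false

/-!
# The core theorem of the upper half
-/

namespace Pool.Agent.Polluted

open MeasureTheory ProbabilityTheory

variable {d : ℕ}

section Prob

variable (ν : Measure SiteState) [IsProbabilityMeasure ν]

/-- the nucleus event and the events around it -/
theorem exists_nucleus {G : Family d} {e : ℕ} {a : ℕ → ℝ} (hG : GoodFam ν e G a) (n0 : ℕ)
    (J : Finset (Fin d)) (hJ : (Jᶜ).card = e + 1 + 1) (t : Fin d → ℤ) (k : ℕ) (y : Fin d → ℤ)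
    (hm : Meets J t (n0 + k) y) :
    ∃ (c : Fin d → ℤ) (E : Set (Config d)), EventOn E (Reg (n0 + k) y) ∧ Mono E ∧
      OccBox n0 c ∩ E ⊆ G2 G n0 J t k y ∧
      (PP d ν).real Eᶜ ≤ ∑ j ∈ Finset.range k,
        UU d (eps (CC d) (ν.real {SiteState.closed})) a (n0 + j) := by
  induction k generalizing y with
  | zero =>
    refine ⟨y, Set.univ, fun _ _ _ => by simp, fun _ _ _ _ => trivial, ?_, by simp⟩
    intro ω hω
    exact hω.1
  | succ k ih =>
    obtain ⟨y', hy', hm', _⟩ := exists_child (n := n0 + k) hm 0 (by omega)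
    obtain ⟨c, E, hE1, hE2, hE3, hE4⟩ := ih y' hm'
    refine ⟨c, E ∩ HH G J t (n0 + k) y, ?_, ?_, ?_, ?_⟩
    · exact (hE1.mono (reg_sub (nb_of_par hy'))).inter (eventOn_HH hG.eventOn J t (n0 + k) y)
    · exact fun ω ω' hle hω => ⟨hE2 ω ω' hle hω.1, mono_HH hG.mono J t (n0 + k) y ω ω' hle hω.2⟩
    · rintro ω ⟨h1, h2, h3⟩
      exact ⟨h3, y', hy', hm', hE3 ⟨h1, h2⟩⟩
    · rw [Set.compl_inter, Finset.sum_range_succ]
      refine (measureReal_union_le _ _).trans (add_le_add hE4 ?_)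
      exact prob_HH ν hG.nonneg hG.bound J hJ t (n0 + k) y

/-- uniform lower bound -/
theorem lower_G2 {G : Family d} {e : ℕ} {a : ℕ → ℝ} (hG : GoodFam ν e G a) (n0 : ℕ)
    (hsum : ∀ k, ∑ j ∈ Finset.range k,
      UU d (eps (CC d) (ν.real {SiteState.closed})) a (n0 + j) ≤ 1 / 2)
    (J : Finset (Fin d)) (hJ : (Jᶜ).card = e + 1 + 1) (t : Fin d → ℤ) (k : ℕ) (y : Fin d → ℤ)
    (hm : Meets J t (n0 + k) y) :
    ν.real {SiteState.occupied} ^ (8 ^ n0) ^ d / 2 ≤ (PP d ν).real (G2 G n0 J t k y) := by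
  obtain ⟨c, E, hE1, hE2, hE3, hE4⟩ := exists_nucleus ν hG n0 J hJ t k y hm
  have h1 := occ_inter_mono ν (N := BoxF n0 c) hE1 hE2
  have h2 : {ω : Config d | ∀ x ∈ BoxF n0 c, ω x = SiteState.occupied} = OccBox n0 c := by
    ext ω
    constructor
    · intro h x hx; exact h x (mem_BoxF.mpr hx)
    · intro h x hx; exact h x (mem_BoxF.mp hx)
  rw [prob_occ, card_BoxF, h2] at h1
  have h3 : (PP d ν).real (OccBox n0 c ∩ E) ≤ (PP d ν).real (G2 G n0 J t k y) :=
    measureReal_mono hE3 (measure_ne_top _ _)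
  have h4 : 1 / 2 ≤ (PP d ν).real E := by
    have := real_compl ν hE1
    have := hsum k
    linarith
  have h5 : 0 ≤ ν.real {SiteState.occupied} ^ (8 ^ n0) ^ d := pow_nonneg measureReal_nonneg _
  calc ν.real {SiteState.occupied} ^ (8 ^ n0) ^ d / 2
      = ν.real {SiteState.occupied} ^ (8 ^ n0) ^ d * (1 / 2) := by ring
    _ ≤ ν.real {SiteState.occupied} ^ (8 ^ n0) ^ d * (PP d ν).real E :=
        mul_le_mul_of_nonneg_left h4 h5
    _ ≤ _ := h1.trans h3

theorem upper_G2 {G : Family d} {e : ℕ} {a : ℕ → ℝ} (hG : GoodFam ν e G a) (n0 : ℕ)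
    (J : Finset (Fin d)) (hJ : (Jᶜ).card = e + 1 + 1) (t : Fin d → ℤ) (k : ℕ) (y : Fin d → ℤ)
    (hm : Meets J t (n0 + (k + 1)) y) (β : ℝ)
    (hβ : ∀ c, Meets J t (n0 + k) c → (PP d ν).real (G2 G n0 J t k c)ᶜ ≤ β) :
    (PP d ν).real (G2 G n0 J t (k + 1) y)ᶜ ≤
      UU d (eps (CC d) (ν.real {SiteState.closed})) a (n0 + k) + β ^ 2 := by
  obtain ⟨l, hl⟩ : (Jᶜ).Nonempty := by rw [← Finset.card_pos]; omega
  have hl' : l ∉ J := by simpa using hl
  obtain ⟨c1, hc1, hm1, he1⟩ := exists_child (n := n0 + k) hm 0 (by omega)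
  obtain ⟨c2, hc2, hm2, he2⟩ := exists_child (n := n0 + k) hm 5 (by omega)
  have hsub : (G2 G n0 J t (k + 1) y)ᶜ ⊆ (HH G J t (n0 + k) y)ᶜ ∪
      ((G2 G n0 J t k c1)ᶜ ∩ (G2 G n0 J t k c2)ᶜ) := by
    intro ω hω
    by_cases h : ω ∈ HH G J t (n0 + k) y
    · right
      refine ⟨fun h1 => hω ⟨h, c1, hc1, hm1, h1⟩, fun h2 => hω ⟨h, c2, hc2, hm2, h2⟩⟩
    · left; exact h
  refine (measureReal_mono hsub (measure_ne_top _ _)).trans
    ((measureReal_union_le _ _).trans (add_le_add ?_ ?_))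
  · exact prob_HH ν hG.nonneg hG.bound J hJ t (n0 + k) y
  · rw [real_inter ν (eventOn_G2 hG.eventOn n0 J t k c1).compl
      (eventOn_G2 hG.eventOn n0 J t k c2).compl
      (reg_disj (i := l) (by rw [he1 l hl', he2 l hl']; omega)), sq]
    exact mul_le_mul (hβ _ hm1) (hβ _ hm2) measureReal_nonneg
      (measureReal_nonneg.trans (hβ _ hm1))

theorem UU_fast {ε a : ℕ → ℝ} (hε : Fast ε) (ha : Fast a) : Fast (UU d ε a) := by
  have h1 : Fast (fun n => 24 ^ d * ε n) := hε.const_mul (by positivity)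
  have h2 : Fast (fun n => a n * 8 ^ n) := ha.mul_pow (by norm_num)
  have h3 : Fast (fun n => (8 ^ d * d) * (a n * 8 ^ n)) := h2.const_mul (by positivity)
  have h4 := h1.add h3
  have : UU d ε a = fun n => 24 ^ d * ε n + 8 ^ d * d * (a n * 8 ^ n) := by
    funext n
    rw [UU]
    ring
  rw [this]
  exact h4

theorem UU_nonneg {ε a : ℕ → ℝ} (hε : ∀ n, 0 ≤ ε n) (ha : ∀ n, 0 ≤ a n) (n : ℕ) :
    0 ≤ UU d ε a n := by
  have := hε n
  have := ha n
  unfold UU
  positivity

/-- the sequence bounding the failure probabilities -/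
noncomputable def alph (ρ : ℝ) (u : ℕ → ℝ) : ℕ → ℝ
  | 0 => 1 - ρ
  | k + 1 => min (1 - ρ) (u k + alph ρ u k ^ 2)

theorem goodFam_succ (hν : 0 < ν.real {SiteState.occupied})
    (hε : CC d * ν.real {SiteState.closed} ≤ 1 / 2)
    {G : Family d} {e : ℕ} {a : ℕ → ℝ} (hG : GoodFam ν e G a) :
    ∃ (G' : Family d) (a' : ℕ → ℝ), GoodFam ν (e + 1) G' a' := by
  have hC : 0 < CC d := by unfold CC; positivity
  set ε := eps (CC d) (ν.real {SiteState.closed}) with hεdef
  have hεf : Fast ε := eps_fast hC measureReal_nonneg hε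
  have hεn : ∀ n, 0 ≤ ε n := eps_nonneg hC.le measureReal_nonneg
  have hUf : Fast (UU d ε a) := UU_fast hεf hG.fast
  obtain ⟨n0, hn0⟩ := hUf.tail (show (0:ℝ) < 1 / 2 by norm_num)
  set ρ : ℝ := ν.real {SiteState.occupied} ^ (8 ^ n0) ^ d / 2 with hρ
  have hρpos : 0 < ρ := by positivity
  have hρ1 : ρ ≤ 1 / 2 := by
    have : ν.real {SiteState.occupied} ≤ 1 := measureReal_le_one
    have : ν.real {SiteState.occupied} ^ (8 ^ n0) ^ d ≤ 1 := pow_le_one₀ hν.le this
    rw [hρ]
    linarith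
  set α := alph ρ (fun k => UU d ε a (n0 + k)) with hα
  have hα0 : ∀ k, 0 ≤ α k := by
    intro k
    cases k with
    | zero => rw [hα, alph]; linarith
    | succ k =>
      rw [hα, alph]
      exact le_min (by linarith) (add_nonneg (UU_nonneg hεn hG.nonneg _) (sq_nonneg _))
  have hαρ : ∀ k, α k ≤ 1 - ρ := by
    intro k
    cases k with
    | zero => rw [hα, alph]
    | succ k => rw [hα, alph]; exact min_le_left _ _
  have hαf : Fast α := by
    refine Fast.of_quadratic (hUf.shift n0) hα0 hρpos hαρ (fun k => ?_)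
    rw [hα]
    conv_lhs => rw [alph]
    exact min_le_right _ _
  have hbound : ∀ (J : Finset (Fin d)) (t : Fin d → ℤ), (Jᶜ).card = e + 1 + 1 → ∀ k y,
      Meets J t (n0 + k) y → (PP d ν).real (G2 G n0 J t k y)ᶜ ≤ α k := by
    intro J t hJ k
    have hlow : ∀ k y, Meets J t (n0 + k) y →
        (PP d ν).real (G2 G n0 J t k y)ᶜ ≤ 1 - ρ := by
      intro k y hm
      rw [real_compl ν (eventOn_G2 hG.eventOn n0 J t k y)]
      have := lower_G2 ν hG n0 hn0 J hJ t k y hm
      linarith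
    induction k with
    | zero => intro y hm; rw [hα, alph]; exact hlow 0 y hm
    | succ k ih =>
      intro y hm
      rw [hα, alph]
      exact le_min (hlow _ y hm) (upper_G2 ν hG n0 J hJ t k y hm _ ih)
  refine ⟨fun J t n c => if n0 ≤ n then G2 G n0 J t (n - n0) c else ∅,
    fun n => if n0 ≤ n then α (n - n0) else 1, ?_⟩
  refine ⟨?_, ?_, ?_, hαf.unshift n0, ?_, ?_⟩
  · intro J t n c ω hJ hω A hA hcl
    by_cases hn : n0 ≤ n
    · obtain ⟨k, rfl⟩ : ∃ k, n = n0 + k := ⟨n - n0, by omega⟩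
      simp only [if_pos hn, Nat.add_sub_cancel_left] at hω
      exact fills_G2 hG.fills n0 J hJ t k c ω hω A hA hcl
    · simp [hn] at hω
  · intro J t n c
    by_cases hn : n0 ≤ n
    · obtain ⟨k, rfl⟩ : ∃ k, n = n0 + k := ⟨n - n0, by omega⟩
      simp only [if_pos hn, Nat.add_sub_cancel_left]
      exact eventOn_G2 hG.eventOn n0 J t k c
    · simp only [if_neg hn]
      intro _ _ _
      simp
  · intro J t n c
    by_cases hn : n0 ≤ n
    · simp only [if_pos hn]
      exact mono_G2 hG.mono n0 J t _ c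
    · simp only [if_neg hn]
      intro _ _ _ h
      exact h
  · intro n
    show 0 ≤ (if n0 ≤ n then α (n - n0) else 1)
    split_ifs
    · exact hα0 _
    · norm_num
  · intro J t n c hJ hm
    by_cases hn : n0 ≤ n
    · obtain ⟨k, rfl⟩ : ∃ k, n = n0 + k := ⟨n - n0, by omega⟩
      simp only [if_pos hn, Nat.add_sub_cancel_left]
      exact hbound J t hJ k c hm
    · simp only [if_neg hn]
      exact measureReal_le_one

theorem exists_goodFam (hν : 0 < ν.real {SiteState.occupied})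
    (hε : CC d * ν.real {SiteState.closed} ≤ 1 / 2) (e : ℕ) :
    ∃ (G : Family d) (a : ℕ → ℝ), GoodFam ν e G a := by
  induction e with
  | zero => exact ⟨_, _, goodFam_zero ν⟩
  | succ e ih =>
    obtain ⟨G, a, hG⟩ := ih
    exact goodFam_succ ν hν hε hG

/-- `A` contains the occupied sites and is closed under the growth rule at the sites which are
not closed. -/
def CoreClosed (ω : Config d) (A : Set (Fin d → ℤ)) : Prop :=
  (∀ x, ω x = SiteState.occupied → x ∈ A) ∧
    ∀ x, ω x ≠ SiteState.closed → AllButOne ∅ (· ∈ A) x → x ∈ A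

/-- **Core theorem.** -/
theorem core (hd : 1 ≤ d) (hν : 0 < ν.real {SiteState.occupied})
    (hε : CC d * ν.real {SiteState.closed} ≤ 1 / 2) :
    (PP d ν).real {ω | ¬ ∀ A, CoreClosed ω A → (0 : Fin d → ℤ) ∈ A} ≤
      2 * 24 ^ d * ν.real {SiteState.closed} := by
  classical
  have hC : 0 < CC d := by unfold CC; positivity
  set ε := eps (CC d) (ν.real {SiteState.closed}) with hεdef
  obtain ⟨G, a, hG⟩ := exists_goodFam (d := d) ν hν hε (d - 1)
  have hcard : ((∅ : Finset (Fin d))ᶜ).card = d - 1 + 1 := by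
    rw [Finset.card_compl, Finset.card_empty, Fintype.card_fin]; omega
  have hiter : ∀ n, par^[n] (0 : Fin d → ℤ) = 0 := by
    intro n
    funext i
    rw [par_iter]
    simp
  have hmain : ∀ n, (PP d ν).real {ω | ¬ ∀ A, CoreClosed ω A → (0 : Fin d → ℤ) ∈ A} ≤
      a (n + 1) + 2 * 24 ^ d * ν.real {SiteState.closed} := by
    intro n
    have hsub : {ω : Config d | ¬ ∀ A, CoreClosed ω A → (0 : Fin d → ℤ) ∈ A} ⊆
        (G ∅ 0 (n + 1) 0)ᶜ ∪ ⋃ i ∈ Finset.range (n + 1), ⋃ u ∈ NbF (0 : Fin d → ℤ),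
          {ω | u ∈ bad (Wc ω) i} := by
      intro ω hω
      by_contra hcon
      apply hω
      intro A hA
      simp only [Set.mem_union, not_or, Set.mem_iUnion, not_exists] at hcon
      obtain ⟨h1, h2⟩ := hcon
      have h1' : ω ∈ G ∅ 0 (n + 1) 0 := by
        by_contra h
        exact h1 h
      have hfull := hG.fills ∅ 0 (n + 1) 0 ω hcard h1' A hA.1 (fun x _ _ hne hall => ?_)
      · refine hfull 0 (hiter _) (fun _ _ => rfl) (fun i' hi' => ?_)
        rw [hiter]
        rintro ⟨w, hw, _⟩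
        obtain ⟨⟨u, hu, hyu, _⟩, _⟩ := hw ⟨0, by omega⟩
        have hp0 : par (0 : Fin d → ℤ) = 0 := hiter 1
        rw [hp0] at hyu
        rw [Nat.zero_add] at hu
        exact h2 i' (Finset.mem_range.mpr hi') u (mem_NbF.mpr hyu) hu
      · refine hA.2 x (fun hx => ?_) hall
        have := hne 0 (by omega)
        exact not_bad_of_not_inHole this hx
    refine (measureReal_mono hsub (measure_ne_top _ _)).trans
      ((measureReal_union_le _ _).trans (add_le_add ?_ ?_))
    · exact hG.bound ∅ 0 (n + 1) 0 hcard (fun j hj => absurd hj (Finset.notMem_empty j))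
    · refine (measureReal_biUnion_finset_le _ _).trans ?_
      have hterm : ∀ i ∈ Finset.range (n + 1),
          (PP d ν).real (⋃ u ∈ NbF (0 : Fin d → ℤ), {ω | u ∈ bad (Wc ω) i}) ≤ 24 ^ d * ε i := by
        intro i _
        refine (measureReal_biUnion_finset_le _ _).trans ?_
        refine (Finset.sum_le_card_nsmul _ _ _ (fun u _ => prob_bad ν i u)).trans ?_
        rw [card_NbF, nsmul_eq_mul]
        push_cast
        exact le_rfl
      refine (Finset.sum_le_sum hterm).trans ?_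
      rw [← Finset.mul_sum]
      have := eps_sum_le hC (measureReal_nonneg (μ := ν) (s := {SiteState.closed})) hε (n + 1)
      have h24 : (0:ℝ) ≤ 24 ^ d := by positivity
      calc 24 ^ d * ∑ i ∈ Finset.range (n + 1), ε i ≤
          24 ^ d * (2 * ν.real {SiteState.closed}) := mul_le_mul_of_nonneg_left this h24
        _ = _ := by ring
  refine le_of_forall_pos_le_add (fun δ hδ => ?_)
  obtain ⟨N, hN⟩ := hG.fast.tendsto hδ
  have h1 := hmain N
  have h2 := hN (N + 1) (by omega)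
  linarith

end Prob

end Pool.Agent.Polluted
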