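import Pool.Agent.Polluted.Prob

set_option autoImplicit false

/-!
# Events forcing the sections of boxes to fill
-/

namespace Pool.Agent.Polluted

open MeasureTheory ProbabilityTheory

variable {d : ℕ}

/-- The order on configurations: more occupied sites and less closed sites. -/
def Le (ω ω' : Config d) : Prop :=
  ∀ x, (ω x = SiteState.occupied → ω' x = SiteState.occupied) ∧
    (ω' x = SiteState.closed → ω x = SiteState.closed)

/-- Increasing events. -/
def Mono (E : Set (Config d)) : Prop := ∀ ω ω', Le ω ω' → ω ∈ E → ω' ∈ E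

/-- A family of events indexed by sections and boxes. -/
abbrev Family (d : ℕ) : Type :=
  Finset (Fin d) → (Fin d → ℤ) → ℕ → (Fin d → ℤ) → Set (Config d)

/-- The family forces the sections with `e+1` free directions to fill. -/
structure GoodFam (ν : Measure SiteState) (e : ℕ) (G : Family d) (a : ℕ → ℝ) : Prop where
  fills : ∀ J t n c ω, (Jᶜ).card = e + 1 → ω ∈ G J t n c → ∀ A : Set (Fin d → ℤ),
    (∀ x, ω x = SiteState.occupied → x ∈ A) → ClosedOn (Wc ω) J t A n c →
      Full (Wc ω) J t A n c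
  eventOn : ∀ J t n c, EventOn (G J t n c) (Reg n c)
  mono : ∀ J t n c, Mono (G J t n c)
  fast : Fast a
  nonneg : ∀ n, 0 ≤ a n
  bound : ∀ J t n c, (Jᶜ).card = e + 1 → Meets J t n c → (PP d ν).real (G J t n c)ᶜ ≤ a n

theorem goodFam_zero (ν : Measure SiteState) [IsProbabilityMeasure ν] :
    GoodFam (d := d) ν 0 (fun _ _ _ _ => Set.univ) (fun _ => 0) where
  fills := by
    intro J t n c ω hJ _ A _ hcl x hx hsec hne
    refine hcl x hx hsec hne ?_
    obtain ⟨m0, hm0⟩ := Finset.card_eq_one.mp hJ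
    refine ⟨m0, ?_, fun m hm hmm => ?_⟩
    · have : m0 ∈ Jᶜ := by rw [hm0]; simp
      simpa using this
    · have : m ∈ Jᶜ := by simpa using hm
      rw [hm0] at this
      exact absurd (by simpa using this) hmm
  eventOn := fun _ _ _ _ _ _ _ => by simp
  mono := fun _ _ _ _ _ _ _ _ => trivial
  fast := fun M _ => ⟨1, one_pos, fun n => by simp⟩
  nonneg := fun _ => le_rfl
  bound := by intro J t n c _ _; simp

/-- Clean neighbourhood and filled sections. -/
def HH (G : Family d) (J : Finset (Fin d)) (t : Fin d → ℤ) (n : ℕ) (y : Fin d → ℤ) :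
    Set (Config d) :=
  {ω | (∀ u, Nb y u → u ∉ bad (Wc ω) n) ∧
    ∀ c, par c = y → Meets J t n c → ∀ l, l ∉ J → ∀ τ : ℤ, τ / 8 ^ n = c l →
      ω ∈ G (insert l J) (Function.update t l τ) n c}

/-- All sites of a box are occupied. -/
def OccBox (n : ℕ) (c : Fin d → ℤ) : Set (Config d) :=
  {ω | ∀ x, par^[n] x = c → ω x = SiteState.occupied}

/-- The events for one more free direction. -/
def G2 (G : Family d) (n0 : ℕ) (J : Finset (Fin d)) (t : Fin d → ℤ) :
    ℕ → (Fin d → ℤ) → Set (Config d)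
  | 0, c => OccBox n0 c
  | k + 1, y => HH G J t (n0 + k) y ∩
      {ω | ∃ c, par c = y ∧ Meets J t (n0 + k) c ∧ ω ∈ G2 G n0 J t k c}

/-- The sites of a box. -/
noncomputable def BoxF (n : ℕ) (c : Fin d → ℤ) : Finset (Fin d → ℤ) :=
  Fintype.piFinset (fun i => Finset.Ico (8 ^ n * c i) (8 ^ n * (c i + 1)))

theorem mem_BoxF {n : ℕ} {c x : Fin d → ℤ} : x ∈ BoxF n c ↔ par^[n] x = c := by
  simp only [BoxF, Fintype.mem_piFinset, Finset.mem_Ico]
  have hpos : (0 : ℤ) < 8 ^ n := by positivity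
  constructor
  · intro h
    funext i
    rw [par_iter]
    obtain ⟨h1, h2⟩ := h i
    apply le_antisymm
    · rw [← Int.lt_add_one_iff]
      exact Int.ediv_lt_of_lt_mul hpos (by rw [mul_comm]; exact h2)
    · exact Int.le_ediv_of_mul_le hpos (by rw [mul_comm]; exact h1)
  · intro h i
    have h1 : x i / 8 ^ n = c i := by rw [← par_iter, h]
    have h2 := Int.mul_ediv_add_emod (x i) (8 ^ n)
    have h3 := Int.emod_nonneg (x i) hpos.ne'
    have h4 := Int.emod_lt_of_pos (x i) hpos
    rw [h1] at h2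
    constructor
    · linarith
    · rw [mul_add]; linarith

theorem boxF_sub_reg (n : ℕ) (c : Fin d → ℤ) : BoxF n c ⊆ Reg n c := by
  intro x hx
  rw [mem_Reg]
  intro i
  simp only [BoxF, Fintype.mem_piFinset, Finset.mem_Ico] at hx
  obtain ⟨h1, h2⟩ := hx i
  have hpos : (0 : ℤ) < 8 ^ n := by positivity
  constructor <;> nlinarith

theorem card_BoxF (n : ℕ) (c : Fin d → ℤ) : (BoxF n c).card = (8 ^ n) ^ d := by
  rw [BoxF, Fintype.card_piFinset]
  have : ∀ i : Fin d, (Finset.Ico (8 ^ n * c i) (8 ^ n * (c i + 1))).card = 8 ^ n := by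
    intro i
    rw [Int.card_Ico]
    have : (8 : ℤ) ^ n * (c i + 1) - 8 ^ n * c i = ((8 ^ n : ℕ) : ℤ) := by push_cast; ring
    rw [this, Int.toNat_natCast]
  simp [this]

theorem eventOn_HH {G : Family d} (hG : ∀ J t n c, EventOn (G J t n c) (Reg n c))
    (J : Finset (Fin d)) (t : Fin d → ℤ) (n : ℕ) (y : Fin d → ℤ) :
    EventOn (HH G J t n y) (Reg (n + 1) y) := by
  have main : ∀ ω ω' : Config d, (∀ i ∈ (Reg (n + 1) y : Set (Fin d → ℤ)), ω i = ω' i) →
      ω ∈ HH G J t n y → ω' ∈ HH G J t n y := by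
    rintro ω ω' h ⟨h1, h2⟩
    refine ⟨fun u hu hb => h1 u hu ?_, fun c hc hm l hl τ hτ => ?_⟩
    · exact (eventOn_bad n u ω ω' (fun x hx => h x (reg_sub hu hx))).mpr hb
    · exact (hG _ _ _ _ ω ω' (fun x hx => h x (reg_sub (nb_of_par hc) hx))).mp
        (h2 c hc hm l hl τ hτ)
  intro ω ω' h
  exact ⟨main ω ω' h, main ω' ω (fun i hi => (h i hi).symm)⟩

theorem mono_HH {G : Family d} (hG : ∀ J t n c, Mono (G J t n c))
    (J : Finset (Fin d)) (t : Fin d → ℤ) (n : ℕ) (y : Fin d → ℤ) : Mono (HH G J t n y) := by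
  rintro ω ω' hle ⟨h1, h2⟩
  have hW : Wc ω' ⊆ Wc ω := fun x hx => (hle x).2 hx
  exact ⟨fun u hu hb => h1 u hu (bad_mono hW n hb), fun c hc hm l hl τ hτ =>
    hG _ _ _ _ ω ω' hle (h2 c hc hm l hl τ hτ)⟩

theorem eventOn_G2 {G : Family d} (hG : ∀ J t n c, EventOn (G J t n c) (Reg n c)) (n0 : ℕ)
    (J : Finset (Fin d)) (t : Fin d → ℤ) (k : ℕ) (y : Fin d → ℤ) :
    EventOn (G2 G n0 J t k y) (Reg (n0 + k) y) := by
  induction k generalizing y with
  | zero =>
    have main : ∀ ω ω' : Config d, (∀ i ∈ (Reg n0 y : Set (Fin d → ℤ)), ω i = ω' i) →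
        ω ∈ OccBox n0 y → ω' ∈ OccBox n0 y := by
      intro ω ω' h hω x hx
      rw [← h x (boxF_sub_reg n0 y (mem_BoxF.mpr hx))]
      exact hω x hx
    intro ω ω' h
    exact ⟨main ω ω' h, main ω' ω (fun i hi => (h i hi).symm)⟩
  | succ k ih =>
    refine EventOn.inter (eventOn_HH hG J t (n0 + k) y) ?_
    have main : ∀ ω ω' : Config d, (∀ i ∈ (Reg (n0 + k + 1) y : Set (Fin d → ℤ)), ω i = ω' i) →
        ω ∈ {ω | ∃ c, par c = y ∧ Meets J t (n0 + k) c ∧ ω ∈ G2 G n0 J t k c} →
        ω' ∈ {ω | ∃ c, par c = y ∧ Meets J t (n0 + k) c ∧ ω ∈ G2 G n0 J t k c} := by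
      rintro ω ω' h ⟨c, hc, hm, hω⟩
      exact ⟨c, hc, hm, (ih c ω ω' (fun x hx => h x (reg_sub (nb_of_par hc) hx))).mp hω⟩
    intro ω ω' h
    exact ⟨main ω ω' h, main ω' ω (fun i hi => (h i hi).symm)⟩

theorem mono_G2 {G : Family d} (hG : ∀ J t n c, Mono (G J t n c)) (n0 : ℕ)
    (J : Finset (Fin d)) (t : Fin d → ℤ) (k : ℕ) (y : Fin d → ℤ) : Mono (G2 G n0 J t k y) := by
  induction k generalizing y with
  | zero => exact fun ω ω' hle hω x hx => (hle x).1 (hω x hx)
  | succ k ih =>
    rintro ω ω' hle ⟨h1, c, hc, hm, hω⟩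
    exact ⟨mono_HH hG J t (n0 + k) y ω ω' hle h1, c, hc, hm, ih c ω ω' hle hω⟩

theorem fills_G2 {G : Family d} {e : ℕ}
    (hG : ∀ J t n c ω, (Jᶜ).card = e + 1 → ω ∈ G J t n c → ∀ A : Set (Fin d → ℤ),
      (∀ x, ω x = SiteState.occupied → x ∈ A) → ClosedOn (Wc ω) J t A n c →
      Full (Wc ω) J t A n c) (n0 : ℕ) (J : Finset (Fin d)) (hJ : (Jᶜ).card = e + 1 + 1)
    (t : Fin d → ℤ) (k : ℕ) (y : Fin d → ℤ) (ω : Config d) (hω : ω ∈ G2 G n0 J t k y)
    (A : Set (Fin d → ℤ)) (hA : ∀ x, ω x = SiteState.occupied → x ∈ A)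
    (hcl : ClosedOn (Wc ω) J t A (n0 + k) y) : Full (Wc ω) J t A (n0 + k) y := by
  classical
  induction k generalizing y with
  | zero => exact fun x hx _ _ => hA x (hω x hx)
  | succ k ih =>
    obtain ⟨⟨h1, h2⟩, c0, hc0, hm0, hω0⟩ := hω
    obtain ⟨l, hl⟩ : (Jᶜ).Nonempty := by rw [← Finset.card_pos]; omega
    have hnh : ¬ InHole J (bad (Wc ω) (n0 + k)) c0 := by
      rintro ⟨w, hw, _⟩
      obtain ⟨⟨u, hu, hyu, _⟩, _⟩ := hw l
      rw [hc0] at hyu
      exact h1 u hyu hu
    refine fill_step h1 hcl (fun c hc hm l' hl' τ hτ hclτ => ?_) c0 hc0 hm0 (ih c0 hω0 ?_)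
    · refine hG _ _ _ _ ω ?_ (h2 c hc hm l' hl' τ hτ) A hA hclτ
      rw [Finset.card_compl, Finset.card_insert_of_notMem hl']
      rw [Finset.card_compl] at hJ
      omega
    · refine ClosedOn.descend (m := 1) hcl hc0 ?_
      rw [NEup_succ_iff]
      exact ⟨hnh, NEup_zero _ _ _ _⟩

/-- a child with prescribed free coordinates, meeting the section -/
theorem exists_child {J : Finset (Fin d)} {t : Fin d → ℤ} {n : ℕ} {y : Fin d → ℤ}
    (h : Meets J t (n + 1) y) (s : ℤ) (hs : 0 ≤ s ∧ s < 8) :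
    ∃ c, par c = y ∧ Meets J t n c ∧ ∀ l, l ∉ J → c l = 8 * y l + s := by
  classical
  refine ⟨fun i => if i ∈ J then t i / 8 ^ n else 8 * y i + s, ?_, fun j hj => by simp [hj],
    fun l hl => by simp [hl]⟩
  funext i
  simp only [par]
  by_cases hi : i ∈ J
  · rw [if_pos hi, ← h i hi, pow_succ, Int.ediv_ediv_of_nonneg (by positivity)]
  · rw [if_neg hi]
    omega

section Prob

variable (ν : Measure SiteState) [IsProbabilityMeasure ν]

/-- the error bound for `HH` -/
noncomputable def UU (d : ℕ) (ε a : ℕ → ℝ) (n : ℕ) : ℝ :=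
  24 ^ d * ε n + 8 ^ d * (d * (8 ^ n * a n))

theorem prob_HH {G : Family d} {e : ℕ} {a : ℕ → ℝ}
    (ha : ∀ n, 0 ≤ a n)
    (hb : ∀ J t n c, (Jᶜ).card = e + 1 → Meets J t n c → (PP d ν).real (G J t n c)ᶜ ≤ a n)
    (J : Finset (Fin d)) (hJ : (Jᶜ).card = e + 1 + 1) (t : Fin d → ℤ) (n : ℕ) (y : Fin d → ℤ) :
    (PP d ν).real (HH G J t n y)ᶜ ≤
      UU d (eps (CC d) (ν.real {SiteState.closed})) a n := by
  classical
  have hsub : (HH G J t n y)ᶜ ⊆ (⋃ u ∈ NbF y, {ω | u ∈ bad (Wc ω) n}) ∪
      (⋃ c ∈ (ChF y).filter (fun c => Meets J t n c), ⋃ l ∈ Finset.univ.filter (fun l => l ∉ J),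
        ⋃ τ ∈ Finset.Ico (8 ^ n * c l) (8 ^ n * (c l + 1)),
          (G (insert l J) (Function.update t l τ) n c)ᶜ) := by
    intro ω hω
    by_cases h1 : ∀ u, Nb y u → u ∉ bad (Wc ω) n
    · right
      have h2 : ¬ ∀ c, par c = y → Meets J t n c → ∀ l, l ∉ J → ∀ τ : ℤ, τ / 8 ^ n = c l →
          ω ∈ G (insert l J) (Function.update t l τ) n c := fun h2 => hω ⟨h1, h2⟩
      push Not at h2
      obtain ⟨c, hc, hm, l, hl, τ, hτ, hnot⟩ := h2
      simp only [Set.mem_iUnion]
      refine ⟨c, by simp [mem_ChF, hc, hm], l, by simp [hl], τ, ?_, hnot⟩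
      rw [Finset.mem_Ico]
      have hpos : (0 : ℤ) < 8 ^ n := by positivity
      have h2 := Int.mul_ediv_add_emod τ (8 ^ n)
      have h3 := Int.emod_nonneg τ hpos.ne'
      have h4 := Int.emod_lt_of_pos τ hpos
      rw [hτ] at h2
      constructor
      · linarith
      · rw [mul_add]; linarith
    · left
      push Not at h1
      obtain ⟨u, hu, hb⟩ := h1
      simp only [Set.mem_iUnion]
      exact ⟨u, mem_NbF.mpr hu, hb⟩
  refine (measureReal_mono hsub (measure_ne_top _ _)).trans ((measureReal_union_le _ _).trans ?_)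
  refine add_le_add ?_ ?_
  · refine (measureReal_biUnion_finset_le _ _).trans ?_
    refine (Finset.sum_le_card_nsmul _ _ _ (fun u _ => prob_bad ν n u)).trans ?_
    rw [card_NbF, nsmul_eq_mul]
    push_cast
    exact le_rfl
  · refine (measureReal_biUnion_finset_le _ _).trans ?_
    have hin : ∀ c ∈ (ChF y).filter (fun c => Meets J t n c),
        (PP d ν).real (⋃ l ∈ Finset.univ.filter (fun l => l ∉ J),
        ⋃ τ ∈ Finset.Ico (8 ^ n * c l) (8 ^ n * (c l + 1)),
          (G (insert l J) (Function.update t l τ) n c)ᶜ) ≤ d * (8 ^ n * a n) := by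
      intro c hc
      obtain ⟨hc1, hc2⟩ := Finset.mem_filter.mp hc
      refine (measureReal_biUnion_finset_le _ _).trans ?_
      have hin2 : ∀ l ∈ Finset.univ.filter (fun l : Fin d => l ∉ J),
          (PP d ν).real (⋃ τ ∈ Finset.Ico (8 ^ n * c l) (8 ^ n * (c l + 1)),
          (G (insert l J) (Function.update t l τ) n c)ᶜ) ≤ 8 ^ n * a n := by
        intro l hl
        have hl' : l ∉ J := by simpa using hl
        refine (measureReal_biUnion_finset_le _ _).trans ?_
        have hin3 : ∀ τ ∈ Finset.Ico (8 ^ n * c l) (8 ^ n * (c l + 1)),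
            (PP d ν).real (G (insert l J) (Function.update t l τ) n c)ᶜ ≤ a n := by
          intro τ hτ
          refine hb _ _ _ _ ?_ ?_
          · rw [Finset.card_compl, Finset.card_insert_of_notMem hl']
            rw [Finset.card_compl] at hJ
            omega
          · intro j hj
            have hpos : (0 : ℤ) < 8 ^ n := by positivity
            by_cases hjl : j = l
            · subst hjl
              rw [Function.update_self]
              obtain ⟨h1, h2⟩ := Finset.mem_Ico.mp hτ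
              apply le_antisymm
              · rw [← Int.lt_add_one_iff]
                exact Int.ediv_lt_of_lt_mul hpos (by rw [mul_comm]; exact h2)
              · exact Int.le_ediv_of_mul_le hpos (by rw [mul_comm]; exact h1)
            · rw [Function.update_of_ne hjl]
              exact hc2 j (by simpa [hjl] using hj)
        refine (Finset.sum_le_card_nsmul _ _ _ hin3).trans ?_
        have : (8 : ℤ) ^ n * (c l + 1) - 8 ^ n * c l = ((8 ^ n : ℕ) : ℤ) := by push_cast; ring
        rw [Int.card_Ico, this, Int.toNat_natCast, nsmul_eq_mul]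
        push_cast
        exact le_rfl
      refine (Finset.sum_le_card_nsmul _ _ _ hin2).trans ?_
      rw [nsmul_eq_mul]
      refine mul_le_mul_of_nonneg_right ?_ (mul_nonneg (by positivity) (ha n))
      have := Finset.card_filter_le (Finset.univ : Finset (Fin d)) (fun l => l ∉ J)
      rw [Finset.card_univ, Fintype.card_fin] at this
      exact_mod_cast this
    refine (Finset.sum_le_card_nsmul _ _ _ hin).trans ?_
    rw [nsmul_eq_mul]
    refine mul_le_mul_of_nonneg_right ?_ (mul_nonneg (by positivity)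
      (mul_nonneg (by positivity) (ha n)))
    have := Finset.card_filter_le (ChF y) (fun c => Meets J t n c)
    rw [card_ChF] at this
    exact_mod_cast this

/-- conditioning on a fully occupied region helps increasing events -/
theorem occ_inter_mono {N S : Finset (Fin d → ℤ)} {E : Set (Config d)} (hE : EventOn E S)
    (hm : Mono E) :
    (PP d ν).real {ω | ∀ x ∈ N, ω x = SiteState.occupied} * (PP d ν).real E ≤
      (PP d ν).real ({ω | ∀ x ∈ N, ω x = SiteState.occupied} ∩ E) := by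
  classical
  set R : Config d → Config d := fun ω x => if x ∈ N then SiteState.occupied else ω x with hR
  set E' : Set (Config d) := {ω | R ω ∈ E} with hE'
  have hsub : E ⊆ E' := by
    intro ω hω
    refine hm ω (R ω) (fun x => ?_) hω
    by_cases hx : x ∈ N
    · simp [hR, hx]
    · simp [hR, hx]
  have heq : {ω | ∀ x ∈ N, ω x = SiteState.occupied} ∩ E =
      {ω : Config d | ∀ x ∈ N, ω x = SiteState.occupied} ∩ E' := by
    ext ω
    simp only [Set.mem_inter_iff, hE', Set.mem_ofPred_eq]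
    refine and_congr_right (fun hω => ?_)
    have : R ω = ω := by
      funext x
      by_cases hx : x ∈ N
      · simp [hR, hx, hω x hx]
      · simp [hR, hx]
    rw [this]
  have hE'on : EventOn E' (S \ N : Finset (Fin d → ℤ)) := by
    intro ω ω' h
    refine hE (R ω) (R ω') (fun x hx => ?_)
    by_cases hxN : x ∈ N
    · simp [hR, hxN]
    · simp only [hR, if_neg hxN]
      exact h x (by simpa [hxN] using hx)
  have hN : EventOn {ω : Config d | ∀ x ∈ N, ω x = SiteState.occupied} N := by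
    intro ω ω' h
    constructor
    · intro hω x hx; rw [← h x hx]; exact hω x hx
    · intro hω x hx; rw [h x hx]; exact hω x hx
  rw [heq, real_inter ν hN hE'on Finset.disjoint_sdiff]
  exact mul_le_mul_of_nonneg_left (measureReal_mono hsub (measure_ne_top _ _)) measureReal_nonneg

theorem prob_occ (N : Finset (Fin d → ℤ)) :
    (PP d ν).real {ω | ∀ x ∈ N, ω x = SiteState.occupied} =
      ν.real {SiteState.occupied} ^ N.card := by
  have h1 : {ω : Config d | ∀ x ∈ N, ω x = SiteState.occupied} =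
      Set.pi N (fun _ => {SiteState.occupied}) := by
    ext ω
    simp [Set.mem_pi]
  rw [h1, measureReal_def, Measure.infinitePi_pi _ (fun _ _ => MeasurableSet.singleton _)]
  simp [measureReal_def]

end Prob

end Pool.Agent.Polluted
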