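import Mathlib

set_option autoImplicit false

/-!
# Sequences decreasing faster than any exponential
-/

namespace Pool.Agent.Polluted

/-- `a` decreases faster than every exponential. -/
def Fast (a : ℕ → ℝ) : Prop := ∀ M : ℝ, 1 ≤ M → ∃ K : ℝ, 0 < K ∧ ∀ n, a n * M ^ n ≤ K

theorem bounded_of_eventually_le {b : ℕ → ℝ} {n0 : ℕ} {K0 : ℝ}
    (h : ∀ n, n0 ≤ n → b (n + 1) ≤ max (b n) K0) : ∃ K : ℝ, 0 < K ∧ ∀ n, b n ≤ K := by
  have h1 : ∀ k, b (n0 + k) ≤ max (b n0) K0 := by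
    intro k
    induction k with
    | zero => exact le_max_left _ _
    | succ k ih =>
      refine (h (n0 + k) (by omega)).trans (max_le ih (le_max_right _ _))
  obtain ⟨B, hB⟩ : ∃ B, ∀ n ∈ Finset.range (n0 + 1), b n ≤ B :=
    ⟨∑ n ∈ Finset.range (n0 + 1), |b n|, fun n hn =>
      (le_abs_self _).trans (Finset.single_le_sum (f := fun n => |b n|)
        (fun _ _ => abs_nonneg _) hn)⟩
  refine ⟨max 1 (max B (max (b n0) K0)), lt_of_lt_of_le one_pos (le_max_left _ _), fun n => ?_⟩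
  by_cases hn : n < n0 + 1
  · exact (hB n (Finset.mem_range.mpr hn)).trans ((le_max_left _ _).trans (le_max_right _ _))
  · obtain ⟨k, rfl⟩ : ∃ k, n = n0 + k := ⟨n - n0, by omega⟩
    exact (h1 k).trans ((le_max_right _ _).trans (le_max_right _ _))

theorem Fast.add {a b : ℕ → ℝ} (ha : Fast a) (hb : Fast b) : Fast (fun n => a n + b n) := by
  intro M hM
  obtain ⟨K, hK, h1⟩ := ha M hM
  obtain ⟨K', hK', h2⟩ := hb M hM
  refine ⟨K + K', by positivity, fun n => ?_⟩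
  rw [add_mul]
  exact add_le_add (h1 n) (h2 n)

theorem Fast.const_mul {a : ℕ → ℝ} (ha : Fast a) {c : ℝ} (hc : 0 ≤ c) :
    Fast (fun n => c * a n) := by
  intro M hM
  obtain ⟨K, hK, h1⟩ := ha M hM
  refine ⟨c * K + 1, by positivity, fun n => ?_⟩
  have := mul_le_mul_of_nonneg_left (h1 n) hc
  nlinarith

theorem Fast.mul_pow {a : ℕ → ℝ} (ha : Fast a) {B : ℝ} (hB : 1 ≤ B) :
    Fast (fun n => a n * B ^ n) := by
  intro M hM
  obtain ⟨K, hK, h1⟩ := ha (B * M) (by nlinarith)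
  refine ⟨K, hK, fun n => ?_⟩
  have := h1 n
  rwa [_root_.mul_pow, ← mul_assoc] at this

theorem Fast.shift {a : ℕ → ℝ} (ha : Fast a) (n0 : ℕ) : Fast (fun k => a (n0 + k)) := by
  intro M hM
  obtain ⟨K, hK, h1⟩ := ha M hM
  refine ⟨K, hK, fun k => ?_⟩
  have h2 := h1 (n0 + k)
  by_cases hneg : a (n0 + k) ≤ 0
  · exact (mul_nonpos_of_nonpos_of_nonneg hneg (by positivity)).trans hK.le
  · push Not at hneg
    refine le_trans ?_ h2
    exact mul_le_mul_of_nonneg_left (pow_le_pow_right₀ hM (by omega)) hneg.le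

theorem Fast.unshift {a : ℕ → ℝ} (ha : Fast a) (n0 : ℕ) :
    Fast (fun n => if n0 ≤ n then a (n - n0) else 1) := by
  intro M hM
  obtain ⟨K, hK, h1⟩ := ha M hM
  refine ⟨max K 1 * M ^ n0, by positivity, fun n => ?_⟩
  show (if n0 ≤ n then a (n - n0) else 1) * M ^ n ≤ _
  split_ifs with h
  · obtain ⟨k, rfl⟩ : ∃ k, n = n0 + k := ⟨n - n0, by omega⟩
    have := h1 k
    rw [Nat.add_sub_cancel_left, pow_add]
    have h2 : (0:ℝ) < M ^ n0 := by positivity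
    calc a k * (M ^ n0 * M ^ k) = (a k * M ^ k) * M ^ n0 := by ring
      _ ≤ max K 1 * M ^ n0 := mul_le_mul_of_nonneg_right (this.trans (le_max_left _ _)) h2.le
  · have h3 : M ^ n ≤ M ^ n0 := pow_le_pow_right₀ hM (by omega)
    have h2 : (0:ℝ) < M ^ n0 := by positivity
    calc 1 * M ^ n ≤ 1 * M ^ n0 := by linarith
      _ ≤ max K 1 * M ^ n0 := mul_le_mul_of_nonneg_right (le_max_right _ _) h2.le

theorem Fast.tendsto {a : ℕ → ℝ} (ha : Fast a) {δ : ℝ} (hδ : 0 < δ) :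
    ∃ N, ∀ n, N ≤ n → a n ≤ δ := by
  obtain ⟨K, hK, h1⟩ := ha 2 (by norm_num)
  obtain ⟨N, hN⟩ := pow_unbounded_of_one_lt (K / δ) (by norm_num : (1:ℝ) < 2)
  refine ⟨N, fun n hn => ?_⟩
  have h2 := h1 n
  have h3 : (2:ℝ) ^ N ≤ 2 ^ n := pow_le_pow_right₀ (by norm_num) hn
  have h4 : K / δ < 2 ^ n := lt_of_lt_of_le hN h3
  rw [div_lt_iff₀ hδ] at h4
  by_contra hcon
  push Not at hcon
  have h5 : (0:ℝ) < 2 ^ n := by positivity
  nlinarith

/-- tail sums of a fast sequence are small -/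
theorem Fast.tail {a : ℕ → ℝ} (ha : Fast a) {δ : ℝ} (hδ : 0 < δ) :
    ∃ n0, ∀ k, ∑ j ∈ Finset.range k, a (n0 + j) ≤ δ := by
  obtain ⟨K, hK, h1⟩ := ha 2 (by norm_num)
  obtain ⟨N, hN⟩ := pow_unbounded_of_one_lt (2 * K / δ) (by norm_num : (1:ℝ) < 2)
  refine ⟨N, fun k => ?_⟩
  have h2 : ∀ j, a (N + j) ≤ K / 2 ^ N * (1 / 2) ^ j := by
    intro j
    have := h1 (N + j)
    rw [← le_div_iff₀ (by positivity)] at this
    refine this.trans (le_of_eq ?_)
    rw [pow_add, one_div, inv_pow, div_mul_eq_div_div, div_eq_mul_inv (K / 2 ^ N)]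
  have h3 : ∑ j ∈ Finset.range k, ((1:ℝ) / 2) ^ j ≤ 2 := by
    have := geom_sum_eq (by norm_num : (1:ℝ) / 2 ≠ 1) k
    rw [this]
    have : (0:ℝ) ≤ (1 / 2) ^ k := by positivity
    rw [div_le_iff_of_neg (by norm_num)]
    linarith
  calc ∑ j ∈ Finset.range k, a (N + j) ≤ ∑ j ∈ Finset.range k, K / 2 ^ N * (1 / 2) ^ j :=
        Finset.sum_le_sum (fun j _ => h2 j)
    _ = K / 2 ^ N * ∑ j ∈ Finset.range k, ((1:ℝ) / 2) ^ j := by rw [Finset.mul_sum]
    _ ≤ K / 2 ^ N * 2 := mul_le_mul_of_nonneg_left h3 (by positivity)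
    _ ≤ δ := by
      rw [div_lt_iff₀ hδ] at hN
      rw [div_mul_eq_mul_div, div_le_iff₀ (by positivity)]
      linarith

/-- quadratic recursion -/
theorem Fast.of_quadratic {a u : ℕ → ℝ} (hu : Fast u) (ha : ∀ n, 0 ≤ a n) {ρ : ℝ} (hρ : 0 < ρ)
    (h1 : ∀ n, a n ≤ 1 - ρ) (h2 : ∀ n, a (n + 1) ≤ u n + a n ^ 2) : Fast a := by
  -- `a` tends to zero
  have hρ1 : ρ ≤ 1 := by linarith [ha 0, h1 0]
  have step1 : ∀ δ : ℝ, 0 < δ → ∃ N, ∀ n, N ≤ n → a n ≤ δ := by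
    intro δ hδ
    obtain ⟨N, hN⟩ := hu.tendsto (show 0 < δ * ρ / 2 by positivity)
    have hrec : ∀ k, a (N + k) - δ / 2 ≤ (1 - ρ) ^ k := by
      intro k
      induction k with
      | zero =>
        rw [pow_zero]
        linarith [h1 (N + 0)]
      | succ k ih =>
        have e1 := h2 (N + k)
        have e2 := hN (N + k) (by omega)
        have e3 := h1 (N + k)
        have e4 := ha (N + k)
        have e5 : a (N + k) ^ 2 ≤ (1 - ρ) * a (N + k) := by nlinarith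
        have e6 : a (N + (k + 1)) = a (N + k + 1) := rfl
        rw [e6, pow_succ]
        have e7 : (a (N + k) - δ / 2) * (1 - ρ) ≤ (1 - ρ) ^ k * (1 - ρ) :=
          mul_le_mul_of_nonneg_right ih (by linarith)
        nlinarith
    obtain ⟨k0, hk0⟩ := exists_pow_lt_of_lt_one (show 0 < δ / 2 by positivity)
      (show 1 - ρ < 1 by linarith)
    refine ⟨N + k0, fun n hn => ?_⟩
    obtain ⟨k, rfl⟩ : ∃ k, n = N + k := ⟨n - N, by omega⟩
    have := hrec k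
    have h3 : (1 - ρ) ^ k ≤ (1 - ρ) ^ k0 :=
      pow_le_pow_of_le_one (by linarith) (by linarith) (by omega)
    linarith
  intro M hM
  obtain ⟨K, hK, hKu⟩ := hu M hM
  obtain ⟨N, hN⟩ := step1 (1 / (2 * M)) (by positivity)
  refine bounded_of_eventually_le (b := fun n => a n * M ^ n) (n0 := N) (K0 := 2 * (M * K))
    (fun n hn => ?_)
  show a (n + 1) * M ^ (n + 1) ≤ _
  have e1 := hN n hn
  have e2 := hKu n
  have e3 : M * a n ≤ 1 / 2 := by
    rw [le_div_iff₀ (by positivity)] at e1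
    linarith
  have e4 : 0 ≤ a n * M ^ n := mul_nonneg (ha n) (by positivity)
  have e5 : a (n + 1) * M ^ (n + 1) ≤ M * (u n * M ^ n) + (M * a n) * (a n * M ^ n) := by
    have := mul_le_mul_of_nonneg_right (h2 n) (show 0 ≤ M ^ (n + 1) by positivity)
    refine this.trans (le_of_eq ?_)
    ring
  have e6 : (M * a n) * (a n * M ^ n) ≤ 1 / 2 * (a n * M ^ n) :=
    mul_le_mul_of_nonneg_right e3 e4
  have e7 : M * (u n * M ^ n) ≤ M * K := mul_le_mul_of_nonneg_left e2 (by linarith)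
  have e8 : a n * M ^ n ≤ max (a n * M ^ n) (2 * (M * K)) := le_max_left _ _
  have e9 : 2 * (M * K) ≤ max (a n * M ^ n) (2 * (M * K)) := le_max_right _ _
  linarith

/-- The recursion for the density of bad boxes. -/
noncomputable def eps (C e0 : ℝ) : ℕ → ℝ
  | 0 => e0
  | n + 1 => C * eps C e0 n ^ 2

theorem eps_eq {C e0 : ℝ} (n : ℕ) : C * eps C e0 n = (C * e0) ^ 2 ^ n := by
  induction n with
  | zero => simp [eps]
  | succ n ih =>
    rw [pow_succ, pow_mul, ← ih, eps]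
    ring

theorem eps_nonneg {C e0 : ℝ} (hC : 0 ≤ C) (h0 : 0 ≤ e0) (n : ℕ) : 0 ≤ eps C e0 n := by
  induction n with
  | zero => exact h0
  | succ n ih => rw [eps]; positivity

theorem eps_le {C e0 : ℝ} (hC : 0 < C) (h0 : 0 ≤ e0) (h : C * e0 ≤ 1 / 2) (n : ℕ) :
    eps C e0 n ≤ e0 * (1 / 2) ^ n := by
  induction n with
  | zero => simp [eps]
  | succ n ih =>
    have h1 := eps_nonneg hC.le h0 n
    have h2 : eps C e0 n ≤ e0 := by
      refine ih.trans ?_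
      have : ((1:ℝ) / 2) ^ n ≤ 1 := pow_le_one₀ (by norm_num) (by norm_num)
      nlinarith
    rw [eps, pow_succ]
    have h3 : C * eps C e0 n ≤ 1 / 2 := (mul_le_mul_of_nonneg_left h2 hC.le).trans h
    calc C * eps C e0 n ^ 2 = (C * eps C e0 n) * eps C e0 n := by ring
      _ ≤ 1 / 2 * eps C e0 n := mul_le_mul_of_nonneg_right h3 h1
      _ ≤ 1 / 2 * (e0 * (1 / 2) ^ n) := by linarith
      _ = e0 * ((1 / 2) ^ n * (1 / 2)) := by ring

theorem eps_sum_le {C e0 : ℝ} (hC : 0 < C) (h0 : 0 ≤ e0) (h : C * e0 ≤ 1 / 2) (k : ℕ) :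
    ∑ n ∈ Finset.range k, eps C e0 n ≤ 2 * e0 := by
  have h3 : ∑ j ∈ Finset.range k, ((1:ℝ) / 2) ^ j ≤ 2 := by
    have := geom_sum_eq (by norm_num : (1:ℝ) / 2 ≠ 1) k
    rw [this]
    have : (0:ℝ) ≤ (1 / 2) ^ k := by positivity
    rw [div_le_iff_of_neg (by norm_num)]
    linarith
  calc ∑ n ∈ Finset.range k, eps C e0 n ≤ ∑ n ∈ Finset.range k, e0 * (1 / 2) ^ n :=
        Finset.sum_le_sum (fun j _ => eps_le hC h0 h j)
    _ = e0 * ∑ j ∈ Finset.range k, ((1:ℝ) / 2) ^ j := by rw [Finset.mul_sum]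
    _ ≤ e0 * 2 := mul_le_mul_of_nonneg_left h3 h0
    _ = 2 * e0 := by ring

theorem eps_fast {C e0 : ℝ} (hC : 0 < C) (h0 : 0 ≤ e0) (h : C * e0 ≤ 1 / 2) :
    Fast (eps C e0) := by
  intro M hM
  -- eventually `C * eps n * M ≤ 1`
  obtain ⟨N, hN⟩ := pow_unbounded_of_one_lt (C * e0 * M) (by norm_num : (1:ℝ) < 2)
  refine bounded_of_eventually_le (b := fun n => eps C e0 n * M ^ n) (n0 := N) (K0 := 0)
    (fun n hn => ?_)
  show eps C e0 (n + 1) * M ^ (n + 1) ≤ _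
  refine le_trans ?_ (le_max_left _ _)
  have h1 := eps_nonneg hC.le h0 n
  have h2 := eps_le hC h0 h n
  have h3 : C * eps C e0 n * M ≤ 1 := by
    have h4 : C * eps C e0 n * M ≤ C * (e0 * (1 / 2) ^ n) * M :=
      mul_le_mul_of_nonneg_right (mul_le_mul_of_nonneg_left h2 hC.le) (by linarith)
    refine h4.trans ?_
    have h5 : (2:ℝ) ^ N ≤ 2 ^ n := pow_le_pow_right₀ (by norm_num) hn
    have h6 : ((1:ℝ) / 2) ^ n * 2 ^ n = 1 := by rw [← _root_.mul_pow]; norm_num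
    have h7 : (0:ℝ) < (1 / 2) ^ n := by positivity
    calc C * (e0 * (1 / 2) ^ n) * M = (C * e0 * M) * (1 / 2) ^ n := by ring
      _ ≤ 2 ^ n * (1 / 2) ^ n := mul_le_mul_of_nonneg_right (hN.le.trans h5) h7.le
      _ = 1 := by rw [mul_comm]; exact h6
  rw [eps, pow_succ]
  have h8 : 0 ≤ eps C e0 n * M ^ n := mul_nonneg h1 (by positivity)
  calc C * eps C e0 n ^ 2 * (M ^ n * M) = (C * eps C e0 n * M) * (eps C e0 n * M ^ n) := by ring
    _ ≤ 1 * (eps C e0 n * M ^ n) := mul_le_mul_of_nonneg_right h3 h8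
    _ = eps C e0 n * M ^ n := one_mul _

end Pool.Agent.Polluted
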