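import Pool.Agent.Polluted.Spread

set_option autoImplicit false

/-!
# Filling of a box
-/

namespace Pool.Agent.Polluted

variable {d : ℕ}

theorem par_iter (n : ℕ) (x : Fin d → ℤ) (i : Fin d) : par^[n] x i = x i / 8 ^ n := by
  induction n generalizing x with
  | zero => simp
  | succ n ih =>
    rw [Function.iterate_succ_apply', show par (par^[n] x) i = par^[n] x i / 8 from rfl, ih,
      Int.ediv_ediv_of_nonneg (by positivity), pow_succ]

/-- The box `c` of level `n` meets the section given by `J` and `t`. -/
def Meets (J : Finset (Fin d)) (t : Fin d → ℤ) (n : ℕ) (c : Fin d → ℤ) : Prop :=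
  ∀ j ∈ J, t j / 8 ^ n = c j

theorem full_of_not_meets {W : Set (Fin d → ℤ)} {J : Finset (Fin d)} {t : Fin d → ℤ}
    {A : Set (Fin d → ℤ)} {n : ℕ} {c : Fin d → ℤ} (h : ¬ Meets J t n c) : Full W J t A n c := by
  intro x hx hsec _
  refine absurd (fun j hj => ?_) h
  rw [← hx, par_iter, hsec j hj]

theorem Meets.par {J : Finset (Fin d)} {t : Fin d → ℤ} {n : ℕ} {c : Fin d → ℤ}
    (h : Meets J t n c) : Meets J t (n + 1) (par c) := by
  intro j hj
  rw [pow_succ, ← Int.ediv_ediv_of_nonneg (by positivity), h j hj]
  rfl

theorem nb_of_par {y c : Fin d → ℤ} (h : par c = y) : Nb y c := by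
  rw [← h]
  exact nb_par c

/-- **Filling**: a box with clean neighbourhood, all of whose sections of codimension one fill and
which has a full sub-box, is full. -/
theorem fill_step {W : Set (Fin d → ℤ)} {J : Finset (Fin d)} {t : Fin d → ℤ}
    {A : Set (Fin d → ℤ)} {n : ℕ} {y : Fin d → ℤ} (hclean : ∀ u, Nb y u → u ∉ bad W n)
    (hcl : ClosedOn W J t A (n + 1) y)
    (hsec : ∀ c, par c = y → Meets J t n c → ∀ l, l ∉ J → ∀ τ : ℤ, τ / 8 ^ n = c l →
      ClosedOn W (insert l J) (Function.update t l τ) A n c →
      Full W (insert l J) (Function.update t l τ) A n c)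
    (c0 : Fin d → ℤ) (hc0 : par c0 = y) (hm0 : Meets J t n c0) (hf0 : Full W J t A n c0) :
    Full W J t A (n + 1) y := by
  classical
  have key : ∀ N : ℕ, ∀ c, par c = y → Meets J t n c → (∑ i, |c0 i - c i|).toNat = N →
      Full W J t A n c := by
    intro N
    induction N using Nat.strong_induction_on with
    | _ N ihN =>
      intro c hc hm hN
      by_cases heq : c = c0
      · rw [heq]; exact hf0
      obtain ⟨l, hl⟩ : ∃ l, c l ≠ c0 l := by
        by_contra hcon
        push Not at hcon
        exact heq (funext hcon)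
      have hlJ : l ∉ J := fun hmem => hl (by rw [← hm l hmem, ← hm0 l hmem])
      -- the step towards `c0`
      obtain ⟨s, hs, hs1, hs2⟩ : ∃ s : ℤ, (s = 1 ∨ s = -1) ∧
          (8 * y l ≤ c l + s ∧ c l + s < 8 * y l + 8) ∧ |c0 l - (c l + s)| < |c0 l - c l| := by
        have h1 := par_bounds hc l
        have h2 := par_bounds hc0 l
        rcases lt_or_gt_of_ne hl with h | h
        · refine ⟨1, Or.inl rfl, by omega, ?_⟩
          rw [abs_of_nonneg (by omega), abs_of_nonneg (by omega)]
          omega
        · refine ⟨-1, Or.inr rfl, by omega, ?_⟩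
          rw [abs_of_nonpos (by omega), abs_of_neg (by omega)]
          omega
      have hc' : par (shift c l s) = y := par_shift_eq hc hs1
      have hm' : Meets J t n (shift c l s) := by
        intro j hj
        rw [shift_ne _ _ (fun e : j = l => hlJ (e ▸ hj))]
        exact hm j hj
      have hlt : (∑ i, |c0 i - shift c l s i|) < ∑ i, |c0 i - c i| := by
        refine Finset.sum_lt_sum (fun i _ => ?_) ⟨l, Finset.mem_univ l, ?_⟩
        · by_cases hi : i = l
          · subst hi; rw [shift_same]; exact hs2.le
          · rw [shift_ne _ _ hi]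
        · rw [shift_same]; exact hs2
      have hnn : 0 ≤ ∑ i, |c0 i - shift c l s i| := Finset.sum_nonneg (fun _ _ => abs_nonneg _)
      have hfull' := ihN _ (by omega) (shift c l s) hc' hm' rfl
      have hnh : ¬ InHole J (bad W n) c := by
        rintro ⟨w, hw, _⟩
        obtain ⟨⟨u, hu, hyu, _⟩, _⟩ := hw l
        rw [hc] at hyu
        exact hclean u hyu hu
      refine spread hlJ hs (hclean c (nb_of_par hc)) ?_ (fun τ hclτ => ?_)
        (hclean _ (nb_of_par hc')) hfull'
      · refine ClosedOn.descend (m := 1) hcl hc ?_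
        rw [NEup_succ_iff]
        exact ⟨hnh, NEup_zero _ _ _ _⟩
      · by_cases hτ : τ / 8 ^ n = c l
        · exact hsec c hc hm l hlJ τ hτ hclτ
        · refine full_of_not_meets (fun hcon => hτ ?_)
          have := hcon l (Finset.mem_insert_self l J)
          rwa [Function.update_self] at this
  rw [full_succ_iff]
  intro w hw _
  by_cases hm : Meets J t n w
  · exact key _ w hw hm rfl
  · exact full_of_not_meets hm

end Pool.Agent.Polluted
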