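import Pool.Agent.Polluted.Core

set_option autoImplicit false

/-!
# The case `d > r`
-/

namespace Pool.Agent.Polluted

open MeasureTheory ProbabilityTheory

variable {d : ℕ}

theorem ncard_of_allButOne {x : Fin d → ℤ} {A : Set (Fin d → ℤ)}
    (h : AllButOne ∅ (· ∈ A) x) : d - 1 ≤ {y | Adj x y ∧ y ∈ A}.ncard := by
  classical
  obtain ⟨m0, _, h⟩ := h
  have h' : ∀ m, ∃ s : ℤ, (s = 1 ∨ s = -1) ∧ (m ≠ m0 → shift x m s ∈ A) := by
    intro m
    by_cases hm : m = m0
    · exact ⟨1, Or.inl rfl, fun h => absurd hm h⟩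
    · obtain ⟨s, hs, h1⟩ := h m (Finset.notMem_empty m) hm
      exact ⟨s, hs, fun _ => h1⟩
  choose s hs hA using h'
  have hsub : (((Finset.univ.erase m0).image (fun m => shift x m (s m)) :
      Finset (Fin d → ℤ)) : Set (Fin d → ℤ)) ⊆ {y | Adj x y ∧ y ∈ A} := by
    intro y hy
    rw [Finset.mem_coe, Finset.mem_image] at hy
    obtain ⟨m, hm, rfl⟩ := hy
    exact ⟨adj_shift x m (hs m), hA m (Finset.ne_of_mem_erase hm)⟩
  have hcard : ((Finset.univ.erase m0).image (fun m => shift x m (s m)) :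
      Finset (Fin d → ℤ)).card = d - 1 := by
    rw [Finset.card_image_of_injective, Finset.card_erase_of_mem (Finset.mem_univ _),
      Finset.card_univ, Fintype.card_fin]
    intro m m' hmm
    exact (shift_injective x (hs m) hmm).1
  rw [← hcard, ← Set.ncard_coe_finset]
  exact Set.ncard_le_ncard hsub (finite_adj_inter x A)

/-- For `d > r` the final set is closed under the stronger rule of the core theorem. -/
theorem coreClosed_finalSet {r : ℕ} (h : r < d) (ω : Config d) : CoreClosed ω (finalSet r ω) := by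
  refine ⟨fun x hx => occupied_mem_finalSet hx, fun x hx hall => finalSet_closed hx ?_⟩
  exact le_trans (by omega) (ncard_of_allButOne hall)

/-- **Quantitative form of the conjecture for `d > r`**, uniform in `p > 0`. -/
theorem phi_ge_of_lt {d r : ℕ} (h : r < d) {p q : ℝ} (hp : 0 < p) (hq : 0 ≤ q) (hpq : p + q ≤ 1)
    (hq' : (24 ^ d) ^ 2 * q ≤ 1 / 2) : 1 - 2 * 24 ^ d * q ≤ phi d r p q := by
  have := isProbabilityMeasure_siteLaw hp.le hq hpq
  have : IsProbabilityMeasure (configLaw d p q) := by unfold configLaw; infer_instance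
  have hocc : (siteLaw p q).real {SiteState.occupied} = p := by
    rw [measureReal_def, siteLaw_occupied, ENNReal.toReal_ofReal hp.le]
  have hcl : (siteLaw p q).real {SiteState.closed} = q := by
    rw [measureReal_def, siteLaw_closed, ENNReal.toReal_ofReal hq]
  have h1 := core (d := d) (siteLaw p q) (by omega) (by rw [hocc]; exact hp)
    (by rw [hcl]; exact hq')
  rw [hcl] at h1
  have h2 : {ω : Config d | (0 : Fin d → ℤ) ∉ finalSet r ω} ⊆
      {ω | ¬ ∀ A, CoreClosed ω A → (0 : Fin d → ℤ) ∈ A} :=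
    fun ω hω hcon => hω (hcon _ (coreClosed_finalSet h ω))
  have h3 : (configLaw d p q).real {ω | (0 : Fin d → ℤ) ∉ finalSet r ω} ≤ 2 * 24 ^ d * q :=
    (measureReal_mono h2 (measure_ne_top _ _)).trans h1
  have h4 : (1 : ℝ) ≤ phi d r p q +
      (configLaw d p q).real {ω | (0 : Fin d → ℤ) ∉ finalSet r ω} := by
    have h5 : (Set.univ : Set (Config d)) = {ω | (0 : Fin d → ℤ) ∈ finalSet r ω} ∪
        {ω | (0 : Fin d → ℤ) ∉ finalSet r ω} := by
      ext ω
      simp only [Set.mem_univ, Set.mem_union, Set.mem_ofPred_eq, true_iff]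
      exact em _
    have h6 := measureReal_union_le (μ := configLaw d p q) {ω | (0 : Fin d → ℤ) ∈ finalSet r ω}
      {ω | (0 : Fin d → ℤ) ∉ finalSet r ω}
    rw [← h5, probReal_univ] at h6
    rw [phi_eq]
    exact h6
  linarith

end Pool.Agent.Polluted
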