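import Pool.Agent.Polluted.Basic

set_option autoImplicit false

/-!
# Hierarchical structure of isolated obstacles (deterministic part of the upper half)

Boxes of level `n` are indexed by `ℤ^d`; the box with index `y` at level `n+1` consists of the
`8^d` boxes of level `n` with indices `8 y + [0,8)^d`.
-/

namespace Pool.Agent.Polluted

variable {d : ℕ}

/-- The parent of a box. -/
def par (x : Fin d → ℤ) : Fin d → ℤ := fun i => x i / 8

/-- The neighbourhood of a box of level `n+1`, as a set of boxes of level `n`. -/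
def Nb (y z : Fin d → ℤ) : Prop := ∀ i, 8 * y i - 8 ≤ z i ∧ z i < 8 * y i + 16

/-- Bad boxes of level `n`. -/
def bad (W : Set (Fin d → ℤ)) : ℕ → Set (Fin d → ℤ)
  | 0 => W
  | n + 1 => {y | ∃ u ∈ bad W n, ∃ v ∈ bad W n, Nb y u ∧ Nb y v ∧ ∃ i, u i + 5 ≤ v i}

/-- The hull of the bad sub-boxes near the box `y`. -/
def hull (B : Set (Fin d → ℤ)) (y : Fin d → ℤ) : Set (Fin d → ℤ) :=
  {w | ∀ i, (∃ u ∈ B, Nb y u ∧ u i ≤ w i) ∧ (∃ v ∈ B, Nb y v ∧ w i ≤ v i)}

/-- `y` is good with respect to the bad sub-boxes `B`. -/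
def Good (B : Set (Fin d → ℤ)) (y : Fin d → ℤ) : Prop :=
  ∀ u ∈ B, ∀ v ∈ B, Nb y u → Nb y v → ∀ i, v i ≤ u i + 4

theorem good_of_not_bad {W : Set (Fin d → ℤ)} {n : ℕ} {y : Fin d → ℤ} (h : y ∉ bad W (n + 1)) :
    Good (bad W n) y := by
  intro u hu v hv hyu hyv i
  by_contra hcon
  exact h ⟨u, hu, v, hv, hyu, hyv, i, by omega⟩

/-- `z` lies in the projection (along the directions in `J`) of the hull of its parent. -/
def InHole (J : Finset (Fin d)) (B : Set (Fin d → ℤ)) (z : Fin d → ℤ) : Prop :=
  ∃ w ∈ hull B (par z), ∀ m, m ∉ J → w m = z m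

theorem nb_par (z : Fin d → ℤ) : Nb (par z) z := by
  intro _
  simp only [par]
  omega

theorem mem_hull_self {B : Set (Fin d → ℤ)} {z : Fin d → ℤ} (h : z ∈ B) : z ∈ hull B (par z) :=
  fun i => ⟨⟨z, h, nb_par z, le_rfl⟩, ⟨z, h, nb_par z, le_rfl⟩⟩

theorem not_bad_of_not_inHole {J : Finset (Fin d)} {B : Set (Fin d → ℤ)} {z : Fin d → ℤ}
    (h : ¬ InHole J B z) : z ∉ B := fun hz => h ⟨z, mem_hull_self hz, fun _ _ => rfl⟩

theorem InHole.mono {J J' : Finset (Fin d)} {B : Set (Fin d → ℤ)} {z : Fin d → ℤ}
    (hJ : J ⊆ J') (h : InHole J B z) : InHole J' B z := by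
  obtain ⟨w, hw, hwz⟩ := h
  exact ⟨w, hw, fun m hm => hwz m (fun hmJ => hm (hJ hmJ))⟩

/-- Two points of a hull can be mixed coordinate by coordinate. -/
theorem hull_mix {B : Set (Fin d → ℤ)} {y e f : Fin d → ℤ} (he : e ∈ hull B y)
    (hf : f ∈ hull B y) (g : Fin d → ℤ) (hg : ∀ i, g i = e i ∨ g i = f i) : g ∈ hull B y := by
  intro i
  rcases hg i with h | h
  · rw [h]; exact he i
  · rw [h]; exact hf i

theorem hull_width {B : Set (Fin d → ℤ)} {y e f : Fin d → ℤ} (hy : Good B y) (he : e ∈ hull B y)
    (hf : f ∈ hull B y) (i : Fin d) : f i ≤ e i + 4 := by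
  obtain ⟨⟨u, hu, hyu, hue⟩, _⟩ := he i
  obtain ⟨_, ⟨v, hv, hyv, hfv⟩⟩ := hf i
  have := hy u hu v hv hyu hyv i
  omega

/-- Compatibility of the hulls of adjacent good boxes. -/
theorem hull_compat {B : Set (Fin d → ℤ)} {y w : Fin d → ℤ} {l : Fin d} {s : ℤ}
    (hs : s = 1 ∨ s = -1) (hy : Good B (shift y l s)) (hw : w ∈ hull B (shift y l s))
    (hwl : (s = 1 → w l = 8 * y l + 8) ∧ (s = -1 → w l = 8 * y l - 1)) : w ∈ hull B y := by
  -- every bad box near `shift y l s` is near `y`
  have key : ∀ u ∈ B, Nb (shift y l s) u → Nb y u := by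
    intro u hu hyu i
    obtain ⟨⟨u0, hu0, hyu0, hu0w⟩, ⟨v0, hv0, hyv0, hwv0⟩⟩ := hw l
    by_cases hi : i = l
    · subst hi
      have h1 := hy u0 hu0 u hu hyu0 hyu i
      have h2 := hy u hu v0 hv0 hyu hyv0 i
      rcases hs with rfl | rfl
      · have := hwl.1 rfl
        omega
      · have := hwl.2 rfl
        omega
    · have := hyu i
      rw [shift_ne _ _ hi] at this
      exact this
  intro i
  obtain ⟨⟨u, hu, hyu, h1⟩, ⟨v, hv, hyv, h2⟩⟩ := hw i
  exact ⟨⟨u, hu, key u hu hyu, h1⟩, ⟨v, hv, key v hv hyv, h2⟩⟩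

/-- Non-exceptional from level `i` up to level `i+m`. -/
def NEup (W : Set (Fin d → ℤ)) (J : Finset (Fin d)) (i m : ℕ) (z : Fin d → ℤ) : Prop :=
  ∀ i' < m, ¬ InHole J (bad W (i + i')) (par^[i'] z)

/-- `x` lies in the section given by `J` and `t`. -/
def Sec (J : Finset (Fin d)) (t x : Fin d → ℤ) : Prop := ∀ j ∈ J, x j = t j

/-- All non-exceptional sites of the box `z` of level `n` in the section are in `A`. -/
def Full (W : Set (Fin d → ℤ)) (J : Finset (Fin d)) (t : Fin d → ℤ) (A : Set (Fin d → ℤ))
    (n : ℕ) (z : Fin d → ℤ) : Prop :=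
  ∀ x, par^[n] x = z → Sec J t x → NEup W J 0 n x → x ∈ A

/-- Neighbours in `P` in all directions outside `J` but at most one. -/
def AllButOne (J : Finset (Fin d)) (P : (Fin d → ℤ) → Prop) (x : Fin d → ℤ) : Prop :=
  ∃ m0, m0 ∉ J ∧ ∀ m, m ∉ J → m ≠ m0 → ∃ s : ℤ, (s = 1 ∨ s = -1) ∧ P (shift x m s)

/-- `A` is closed under the growth rule at the non-exceptional sites of the box `c` of level `n`
in the section. -/
def ClosedOn (W : Set (Fin d → ℤ)) (J : Finset (Fin d)) (t : Fin d → ℤ) (A : Set (Fin d → ℤ))
    (n : ℕ) (c : Fin d → ℤ) : Prop :=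
  ∀ x, par^[n] x = c → Sec J t x → NEup W J 0 n x → AllButOne J (· ∈ A) x → x ∈ A

theorem NEup_zero (W : Set (Fin d → ℤ)) (J : Finset (Fin d)) (i : ℕ) (z : Fin d → ℤ) :
    NEup W J i 0 z := fun _ h => absurd h (by omega)

/-- Split at the bottom. -/
theorem NEup_succ_iff {W : Set (Fin d → ℤ)} {J : Finset (Fin d)} {i m : ℕ} {z : Fin d → ℤ} :
    NEup W J i (m + 1) z ↔ ¬ InHole J (bad W i) z ∧ NEup W J (i + 1) m (par z) := by
  constructor
  · intro h
    refine ⟨h 0 (by omega), fun i' hi' => ?_⟩
    have := h (i' + 1) (by omega)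
    rw [Function.iterate_succ_apply] at this
    rw [show i + 1 + i' = i + (i' + 1) by omega]
    exact this
  · rintro ⟨h0, h1⟩ i' hi'
    cases i' with
    | zero => exact h0
    | succ i' =>
      have := h1 i' (by omega)
      rw [Function.iterate_succ_apply, show i + (i' + 1) = i + 1 + i' by omega]
      exact this

/-- Split in the middle. -/
theorem NEup_add {W : Set (Fin d → ℤ)} {J : Finset (Fin d)} {i m m' : ℕ} {z : Fin d → ℤ}
    (h1 : NEup W J i m z) (h2 : NEup W J (i + m) m' (par^[m] z)) : NEup W J i (m + m') z := by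
  intro i' hi'
  by_cases h : i' < m
  · exact h1 i' h
  · obtain ⟨k, rfl⟩ : ∃ k, i' = m + k := ⟨i' - m, by omega⟩
    have := h2 k (by omega)
    rw [← Function.iterate_add_apply, show k + m = m + k by omega,
      show i + m + k = i + (m + k) by omega] at this
    exact this

theorem NEup.mono {W : Set (Fin d → ℤ)} {J J' : Finset (Fin d)} {i m : ℕ} {z : Fin d → ℤ}
    (hJ : J ⊆ J') (h : NEup W J' i m z) : NEup W J i m z :=
  fun i' hi' hin => h i' hi' (hin.mono hJ)

theorem full_succ_iff {W : Set (Fin d → ℤ)} {J : Finset (Fin d)} {t : Fin d → ℤ}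
    {A : Set (Fin d → ℤ)} {n : ℕ} {z : Fin d → ℤ} :
    Full W J t A (n + 1) z ↔ ∀ w, par w = z → ¬ InHole J (bad W n) w → Full W J t A n w := by
  constructor
  · intro h w hw hhole x hx hsec hne
    refine h x ?_ hsec ?_
    · rw [Function.iterate_succ_apply', hx, hw]
    · refine NEup_add hne ?_
      rw [NEup_succ_iff]
      rw [hx, zero_add]
      exact ⟨hhole, NEup_zero _ _ _ _⟩
  · intro h x hx hsec hne
    rw [Function.iterate_succ_apply'] at hx
    refine h (par^[n] x) hx ?_ x rfl hsec (fun i' hi' => hne i' (by omega))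
    have := hne n (by omega)
    rwa [zero_add] at this

theorem ClosedOn.descend {W : Set (Fin d → ℤ)} {J : Finset (Fin d)} {t : Fin d → ℤ}
    {A : Set (Fin d → ℤ)} {i m : ℕ} {c w : Fin d → ℤ} (h : ClosedOn W J t A (i + m) c)
    (hw : par^[m] w = c) (hne : NEup W J i m w) : ClosedOn W J t A i w := by
  intro x hx hsec hnex hall
  refine h x ?_ hsec ?_ hall
  · rw [Nat.add_comm, Function.iterate_add_apply, hx, hw]
  · refine NEup_add hnex ?_
    rw [hx, zero_add]
    exact hne

theorem Sec_shift {J : Finset (Fin d)} {t x : Fin d → ℤ} {m : Fin d} (hm : m ∉ J) (s : ℤ) :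
    Sec J t (shift x m s) ↔ Sec J t x := by
  constructor
  · intro h j hj
    have := h j hj
    rwa [shift_ne _ _ (fun e : j = m => hm (e ▸ hj))] at this
  · intro h j hj
    rw [shift_ne _ _ (fun e : j = m => hm (e ▸ hj))]
    exact h j hj

/-- Shifting inside the parent box. -/
theorem par_shift_eq {w z : Fin d → ℤ} {m : Fin d} {s : ℤ} (hw : par w = z)
    (h : 8 * z m ≤ w m + s ∧ w m + s < 8 * z m + 8) : par (shift w m s) = z := by
  funext i
  by_cases hi : i = m
  · subst hi
    simp only [par, shift_same]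
    omega
  · have := congrFun hw i
    simp only [par] at this ⊢
    rw [shift_ne _ _ hi]
    exact this

/-- Shifting out of the parent box. -/
theorem par_shift_out {w z : Fin d → ℤ} {m : Fin d} {s : ℤ} (hw : par w = z)
    (h : (s = 1 ∧ w m = 8 * z m + 7) ∨ (s = -1 ∧ w m = 8 * z m)) :
    par (shift w m s) = shift z m s := by
  funext i
  by_cases hi : i = m
  · subst hi
    simp only [par, shift_same]
    rcases h with ⟨rfl, h⟩ | ⟨rfl, h⟩ <;> omega
  · have := congrFun hw i
    simp only [par] at this ⊢
    rw [shift_ne _ _ hi, shift_ne _ _ hi]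
    exact this

theorem par_bounds {w z : Fin d → ℤ} (hw : par w = z) (m : Fin d) :
    8 * z m ≤ w m ∧ w m < 8 * z m + 8 := by
  have := congrFun hw m
  simp only [par] at this
  omega

/-- distance to the end of the box `z` in direction `s`. -/
def toEnd (z : Fin d → ℤ) (m : Fin d) (s : ℤ) (w : Fin d → ℤ) : ℕ :=
  (if s = 1 then 8 * z m + 7 - w m else w m - 8 * z m).toNat

/-- the rank used in the inductions inside a box -/
def rk (M : Finset (Fin d)) (z : Fin d → ℤ) (s : Fin d → ℤ) (w : Fin d → ℤ) : ℕ :=
  ∑ m ∈ M, toEnd z m (s m) w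

theorem rk_lt {M : Finset (Fin d)} {z s w : Fin d → ℤ} {m : Fin d} (hm : m ∈ M)
    (hs : s m = 1 ∨ s m = -1) (hw : par w = z)
    (hin : 8 * z m ≤ w m + s m ∧ w m + s m < 8 * z m + 8) :
    rk M z s (shift w m (s m)) < rk M z s w := by
  unfold rk
  refine Finset.sum_lt_sum (fun i _ => ?_) ⟨m, hm, ?_⟩
  · by_cases hi : i = m
    · subst hi
      unfold toEnd
      rw [shift_same]
      rcases hs with h | h
      · simp only [h, if_true] at hin ⊢
        omega
      · have h1 : ¬ (s i = 1) := by rw [h]; decide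
        simp only [if_neg h1] at hin ⊢
        omega
    · unfold toEnd
      rw [shift_ne _ _ hi]
  · have hb := par_bounds hw m
    unfold toEnd
    rw [shift_same]
    rcases hs with h | h
    · simp only [h, if_true] at hin ⊢
      omega
    · have h1 : ¬ (s m = 1) := by rw [h]; decide
      simp only [if_neg h1] at hin ⊢
      omega

/-- **Rule lemma**: at every level, a good box having full good neighbours in all directions but
at most one is full. -/
theorem rule_lemma {W : Set (Fin d → ℤ)} {J : Finset (Fin d)} {t : Fin d → ℤ}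
    {A : Set (Fin d → ℤ)} : ∀ (n : ℕ) (z : Fin d → ℤ), z ∉ bad W n → ClosedOn W J t A n z →
      AllButOne J (fun z' => z' ∉ bad W n ∧ Full W J t A n z') z → Full W J t A n z := by
  classical
  intro n
  induction n with
  | zero =>
    intro z _ hcl hall x hx hsec hne
    have hxz : x = z := hx
    subst hxz
    refine hcl x rfl hsec hne ?_
    obtain ⟨m0, hm0, h⟩ := hall
    refine ⟨m0, hm0, fun m hm hmm => ?_⟩
    obtain ⟨s, hs, _, hf⟩ := h m hm hmm
    exact ⟨s, hs, hf _ rfl ((Sec_shift hm s).mpr hsec) (NEup_zero _ _ _ _)⟩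
  | succ n ih =>
    intro z hz hcl hall
    have hgood : Good (bad W n) z := good_of_not_bad hz
    obtain ⟨m0, hm0, h⟩ := hall
    -- choose the directions
    have h' : ∀ m, ∃ s : ℤ, (s = 1 ∨ s = -1) ∧ (m ∉ J → m ≠ m0 →
        shift z m s ∉ bad W (n + 1) ∧ Full W J t A (n + 1) (shift z m s)) := by
      intro m
      by_cases hm : m ∉ J ∧ m ≠ m0
      · obtain ⟨s, hs, h1⟩ := h m hm.1 hm.2
        exact ⟨s, hs, fun _ _ => h1⟩
      · exact ⟨1, Or.inl rfl, fun h1 h2 => absurd ⟨h1, h2⟩ hm⟩
    choose s hs hfull using h'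
    -- children are closed
    have hclw : ∀ w, par w = z → ¬ InHole J (bad W n) w → ClosedOn W J t A n w := by
      intro w hw hhole
      refine ClosedOn.descend (m := 1) hcl hw ?_
      rw [NEup_succ_iff]
      exact ⟨hhole, NEup_zero _ _ _ _⟩
    -- a neighbour outside of `z` is full or in the hole
    have hout : ∀ w, par w = z → ∀ m, m ∉ J → m ≠ m0 → par (shift w m (s m)) ≠ z →
        (shift w m (s m) ∉ bad W n ∧ Full W J t A n (shift w m (s m))) ∨
        (∃ e ∈ hull (bad W n) z, ∀ m', m' ∉ J → e m' = shift w m (s m) m') := by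
      intro w hw m hm hmm hne
      have hb := par_bounds hw m
      have hend : (s m = 1 ∧ w m = 8 * z m + 7) ∨ (s m = -1 ∧ w m = 8 * z m) := by
        rcases hs m with h1 | h1
        · left
          refine ⟨h1, ?_⟩
          by_contra hcon
          exact hne (par_shift_eq hw (by omega))
        · right
          refine ⟨h1, ?_⟩
          by_contra hcon
          exact hne (par_shift_eq hw (by omega))
      have hpar := par_shift_out hw hend
      obtain ⟨hb', hf'⟩ := hfull m hm hmm
      by_cases hhole : InHole J (bad W n) (shift w m (s m))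
      · right
        obtain ⟨e, he, hem⟩ := hhole
        rw [hpar] at he
        refine ⟨e, hull_compat (hs m) (good_of_not_bad hb') he ?_, hem⟩
        have := hem m hm
        rw [shift_same] at this
        rcases hend with ⟨h1, h2⟩ | ⟨h1, h2⟩ <;> constructor <;> intro _ <;> omega
      · left
        exact ⟨not_bad_of_not_inHole hhole, full_succ_iff.mp hf' _ hpar hhole⟩
    -- phase 1: children whose `m0` coordinate is not in the projection of the hull
    have phase1 : ∀ N : ℕ, ∀ w, par w = z → rk ((Finset.univ \ J).erase m0) z s w = N →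
        (¬ ∃ e ∈ hull (bad W n) z, e m0 = w m0) → w ∉ bad W n ∧ Full W J t A n w := by
      intro N
      induction N using Nat.strong_induction_on with
      | _ N ihN =>
        intro w hw hrk hno
        have hhole : ¬ InHole J (bad W n) w := by
          rintro ⟨e, he, hem⟩
          rw [hw] at he
          exact hno ⟨e, he, hem m0 hm0⟩
        refine ⟨not_bad_of_not_inHole hhole,
          ih w (not_bad_of_not_inHole hhole) (hclw w hw hhole) ⟨m0, hm0, fun m hm hmm => ?_⟩⟩
        refine ⟨s m, hs m, ?_⟩
        by_cases hin : par (shift w m (s m)) = z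
        · refine ihN _ ?_ (shift w m (s m)) hin rfl ?_
          · rw [← hrk]
            refine rk_lt (by simp [hm, hmm]) (hs m) hw ?_
            have := par_bounds hin m
            rwa [shift_same] at this
          · rw [shift_ne _ _ (Ne.symm hmm)]
            exact hno
        · rcases hout w hw m hm hmm hin with h1 | ⟨e, he, hem⟩
          · exact h1
          · exfalso
            refine hno ⟨e, he, ?_⟩
            have := hem m0 hm0
            rwa [shift_ne _ _ (Ne.symm hmm)] at this
    -- direction for `m0`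
    obtain ⟨s0, hs0, hs0end⟩ : ∃ s0 : ℤ, (s0 = 1 ∨ s0 = -1) ∧
        ∀ w, par w = z → (∃ e ∈ hull (bad W n) z, e m0 = w m0) →
          8 * z m0 ≤ w m0 + s0 ∧ w m0 + s0 < 8 * z m0 + 8 := by
      by_cases hcase : ∃ e ∈ hull (bad W n) z, e m0 = 8 * z m0 + 7
      · obtain ⟨e, he, hem⟩ := hcase
        refine ⟨-1, Or.inr rfl, fun w hw ⟨f, hf, hfm⟩ => ?_⟩
        have := hull_width hgood hf he m0
        have := par_bounds hw m0
        omega
      · refine ⟨1, Or.inl rfl, fun w hw ⟨f, hf, hfm⟩ => ?_⟩
        have hb := par_bounds hw m0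
        by_contra hcon
        exact hcase ⟨f, hf, by omega⟩
    set s' : Fin d → ℤ := Function.update s m0 s0 with hs'
    have hs'pm : ∀ m, s' m = 1 ∨ s' m = -1 := by
      intro m
      by_cases hm : m = m0
      · subst hm; simpa [hs'] using hs0
      · simpa [hs', hm] using hs m
    -- phase 2
    have phase2 : ∀ N : ℕ, ∀ w, par w = z → rk (Finset.univ \ J) z s' w = N →
        ¬ InHole J (bad W n) w → Full W J t A n w := by
      intro N
      induction N using Nat.strong_induction_on with
      | _ N ihN =>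
        intro w hw hrk hhole
        by_cases hproj : ∃ e ∈ hull (bad W n) z, e m0 = w m0
        swap
        · exact (phase1 _ w hw rfl hproj).2
        -- each neighbour is full or in the hole
        have hnbr : ∀ m, m ∉ J →
            (shift w m (s' m) ∉ bad W n ∧ Full W J t A n (shift w m (s' m))) ∨
            (∃ e ∈ hull (bad W n) z, ∀ m', m' ∉ J → e m' = shift w m (s' m) m') := by
          intro m hm
          by_cases hin : par (shift w m (s' m)) = z
          · by_cases hhole' : InHole J (bad W n) (shift w m (s' m))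
            · right
              obtain ⟨e, he, hem⟩ := hhole'
              rw [hin] at he
              exact ⟨e, he, hem⟩
            · left
              refine ⟨not_bad_of_not_inHole hhole', ihN _ ?_ _ hin rfl hhole'⟩
              rw [← hrk]
              refine rk_lt (by simp [hm]) (hs'pm m) hw ?_
              have := par_bounds hin m
              rwa [shift_same] at this
          · by_cases hmm : m = m0
            · exfalso
              apply hin
              subst hmm
              apply par_shift_eq hw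
              have := hs0end w hw hproj
              simpa [hs'] using this
            · have h1 : s' m = s m := by simp [hs', hmm]
              rw [h1] at hin ⊢
              exact hout w hw m hm hmm hin
        -- at most one neighbour is in the hole
        have huniq : ∀ m1 m2, m1 ∉ J → m2 ∉ J → m1 ≠ m2 →
            (∃ e ∈ hull (bad W n) z, ∀ m', m' ∉ J → e m' = shift w m1 (s' m1) m') →
            (∃ e ∈ hull (bad W n) z, ∀ m', m' ∉ J → e m' = shift w m2 (s' m2) m') → False := by
          rintro m1 m2 hm1 hm2 hne ⟨e, he, hem⟩ ⟨f, hf, hfm⟩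
          apply hhole
          refine ⟨Function.update e m1 (f m1), ?_, fun m hm => ?_⟩
          · rw [hw]
            refine hull_mix he hf _ (fun i => ?_)
            by_cases hi : i = m1
            · subst hi; right; simp
            · left; simp [hi]
          · by_cases hmm : m = m1
            · subst hmm
              rw [Function.update_self, hfm m hm, shift_ne _ _ hne]
            · rw [Function.update_of_ne hmm, hem m hm, shift_ne _ _ hmm]
        refine ih w (not_bad_of_not_inHole hhole) (hclw w hw hhole) ?_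
        by_cases hex : ∃ m1, m1 ∉ J ∧
            (∃ e ∈ hull (bad W n) z, ∀ m', m' ∉ J → e m' = shift w m1 (s' m1) m')
        · obtain ⟨m1, hm1, he1⟩ := hex
          refine ⟨m1, hm1, fun m hm hmm => ⟨s' m, hs'pm m, ?_⟩⟩
          rcases hnbr m hm with h1 | h1
          · exact h1
          · exact (huniq m m1 hm hm1 hmm h1 he1).elim
        · refine ⟨m0, hm0, fun m hm _ => ⟨s' m, hs'pm m, ?_⟩⟩
          rcases hnbr m hm with h1 | h1
          · exact h1
          · exact (hex ⟨m, hm, h1⟩).elim
    rw [full_succ_iff]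
    exact fun w hw hhole => phase2 _ w hw rfl hhole

end Pool.Agent.Polluted
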