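import Mathlib

set_option autoImplicit false

/-!
# Independence of events depending on disjoint finite sets of coordinates
-/

namespace Pool.Agent.Polluted

open MeasureTheory ProbabilityTheory

section

variable {ι : Type*} {α : Type*} [Finite α] [MeasurableSpace α] [DiscreteMeasurableSpace α]

/-- The event `E` depends only on the coordinates in `S`. -/
def EventOn (E : Set (ι → α)) (S : Set ι) : Prop :=
  ∀ ω ω' : ι → α, (∀ i ∈ S, ω i = ω' i) → (ω ∈ E ↔ ω' ∈ E)

omit [Finite α] [MeasurableSpace α] [DiscreteMeasurableSpace α] in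
theorem EventOn.mono {E : Set (ι → α)} {S T : Set ι} (h : EventOn E S) (hST : S ⊆ T) :
    EventOn E T := fun ω ω' hω => h ω ω' (fun i hi => hω i (hST hi))

omit [Finite α] [MeasurableSpace α] [DiscreteMeasurableSpace α] in
theorem EventOn.inter {E F : Set (ι → α)} {S : Set ι} (hE : EventOn E S) (hF : EventOn F S) :
    EventOn (E ∩ F) S := fun ω ω' hω => and_congr (hE ω ω' hω) (hF ω ω' hω)

omit [Finite α] [MeasurableSpace α] [DiscreteMeasurableSpace α] in
theorem EventOn.union {E F : Set (ι → α)} {S : Set ι} (hE : EventOn E S) (hF : EventOn F S) :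
    EventOn (E ∪ F) S := fun ω ω' hω => or_congr (hE ω ω' hω) (hF ω ω' hω)

omit [Finite α] [MeasurableSpace α] [DiscreteMeasurableSpace α] in
theorem EventOn.compl {E : Set (ι → α)} {S : Set ι} (hE : EventOn E S) :
    EventOn Eᶜ S := fun ω ω' hω => not_congr (hE ω ω' hω)

theorem discrete_pi (S : Finset ι) (s : Set (S → α)) : MeasurableSet s := by
  have hfin : s.Finite := Set.toFinite s
  exact hfin.measurableSet

omit [Finite α] [MeasurableSpace α] [DiscreteMeasurableSpace α] in
theorem EventOn.eq_preimage {E : Set (ι → α)} {S : Finset ι} (h : EventOn E S) :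
    E = (fun (ω : ι → α) (i : S) => ω i) ⁻¹' ((fun (ω : ι → α) (i : S) => ω i) '' E) := by
  ext ω
  constructor
  · intro hω
    exact ⟨ω, hω, rfl⟩
  · rintro ⟨ω', hω', heq⟩
    refine (h ω' ω ?_).mp hω'
    intro i hi
    exact congrFun heq ⟨i, hi⟩

/-- An event depending on finitely many coordinates is measurable. -/
theorem EventOn.measurableSet {E : Set (ι → α)} {S : Finset ι} (h : EventOn E S) :
    MeasurableSet E := by
  rw [h.eq_preimage]
  exact (measurable_pi_iff.mpr fun i => measurable_pi_apply _) (discrete_pi S _)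

/-- Events depending on disjoint finite sets of coordinates are independent. -/
theorem measure_inter_of_eventOn {ν : ι → Measure α} [∀ i, IsProbabilityMeasure (ν i)]
    {E F : Set (ι → α)} {S T : Finset ι} (hE : EventOn E S) (hF : EventOn F T)
    (hST : Disjoint S T) :
    Measure.infinitePi ν (E ∩ F) = Measure.infinitePi ν E * Measure.infinitePi ν F := by
  have hind : iIndepFun (fun i (ω : ι → α) => ω i) (Measure.infinitePi ν) :=
    iIndepFun_infinitePi (X := fun _ x => x) (fun i => measurable_id)
  have h2 := hind.indepFun_finset S T hST (fun i => measurable_pi_apply i)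
  have := h2.measure_inter_preimage_eq_mul _ _ (discrete_pi S ((fun (ω : ι → α) (i : S) => ω i) '' E))
    (discrete_pi T ((fun (ω : ι → α) (i : T) => ω i) '' F))
  rw [← hE.eq_preimage, ← hF.eq_preimage] at this
  exact this

end

end Pool.Agent.Polluted
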