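import Pool.Agent.Polluted.Basic

set_option autoImplicit false

/-!
# Islands: threshold two growth from a sparse set
-/

namespace Pool.Agent.Polluted

variable {d : ℕ}

/-- closed under the rule with threshold two -/
def Closed2 (A : Set (Fin d → ℤ)) : Prop :=
  ∀ x y y', Adj x y → Adj x y' → y ≠ y' → y ∈ A → y' ∈ A → x ∈ A

/-- the closure under the rule with threshold two -/
def cl2 (S : Set (Fin d → ℤ)) : Set (Fin d → ℤ) := {x | ∀ A, S ⊆ A → Closed2 A → x ∈ A}

theorem subset_cl2 (S : Set (Fin d → ℤ)) : S ⊆ cl2 S := fun _ hx _ hA _ => hA hx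

theorem closed2_cl2 (S : Set (Fin d → ℤ)) : Closed2 (cl2 S) :=
  fun x y y' h1 h2 h3 h4 h5 A hA hc => hc x y y' h1 h2 h3 (h4 A hA hc) (h5 A hA hc)

theorem cl2_subset {S A : Set (Fin d → ℤ)} (hS : S ⊆ A) (hA : Closed2 A) : cl2 S ⊆ A :=
  fun _ hx => hx A hS hA

theorem cl2_mono {S T : Set (Fin d → ℤ)} (h : S ⊆ T) : cl2 S ⊆ cl2 T :=
  cl2_subset (h.trans (subset_cl2 T)) (closed2_cl2 T)

theorem cl2_empty : cl2 (∅ : Set (Fin d → ℤ)) = ∅ := by
  refine Set.eq_empty_of_subset_empty (cl2_subset subset_rfl ?_)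
  intro x y y' _ _ _ h
  exact absurd h (Set.notMem_empty y)

/-- points of a cuboid -/
def InB (B : (Fin d → ℤ) × (Fin d → ℤ)) (x : Fin d → ℤ) : Prop :=
  ∀ i, B.1 i ≤ x i ∧ x i ≤ B.2 i

theorem closed2_box (B : (Fin d → ℤ) × (Fin d → ℤ)) : Closed2 {x | InB B x} := by
  intro x y y' hy hy' hne h h' k
  obtain ⟨i, s, hs, rfl⟩ := adj_iff.mp hy
  obtain ⟨j, t, ht, rfl⟩ := adj_iff.mp hy'
  have h1 := h k
  have h2 := h' k
  by_cases hki : k = i
  · by_cases hkj : k = j
    · subst hki
      subst hkj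
      rw [shift_same] at h1 h2
      have hst : s ≠ t := fun e => hne (by rw [e])
      rcases hs with rfl | rfl <;> rcases ht with rfl | rfl
      · exact absurd rfl hst
      · constructor <;> omega
      · constructor <;> omega
      · exact absurd rfl hst
    · rw [shift_ne _ _ hkj] at h2
      exact h2
  · rw [shift_ne _ _ hki] at h1
    exact h1

/-- semi-perimeter -/
def per (B : (Fin d → ℤ) × (Fin d → ℤ)) : ℤ := ∑ i, (B.2 i - B.1 i)

/-- the hull of two cuboids -/
def hullB (B C : (Fin d → ℤ) × (Fin d → ℤ)) : (Fin d → ℤ) × (Fin d → ℤ) :=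
  (fun i => min (B.1 i) (C.1 i), fun i => max (B.2 i) (C.2 i))

theorem per_hull {B C : (Fin d → ℤ) × (Fin d → ℤ)} {x y : Fin d → ℤ} (hx : InB B x)
    (hy : InB C y) : per (hullB B C) ≤ per B + per C + ∑ i, |x i - y i| := by
  unfold per hullB
  rw [← Finset.sum_add_distrib, ← Finset.sum_add_distrib]
  refine Finset.sum_le_sum (fun i _ => ?_)
  have h1 := hx i
  have h2 := hy i
  have h3 := abs_le.mp (le_refl |x i - y i|)
  show max (B.2 i) (C.2 i) - min (B.1 i) (C.1 i) ≤ B.2 i - B.1 i + (C.2 i - C.1 i) + |x i - y i|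
  rcases le_total (B.2 i) (C.2 i) with h4 | h4 <;> rcases le_total (B.1 i) (C.1 i) with h5 | h5
  · rw [max_eq_right h4, min_eq_left h5]; linarith
  · rw [max_eq_right h4, min_eq_right h5]; linarith [abs_nonneg (x i - y i)]
  · rw [max_eq_left h4, min_eq_left h5]; linarith [abs_nonneg (x i - y i)]
  · rw [max_eq_left h4, min_eq_right h5]; linarith

/-- a finite family of cuboids covering `S` -/
structure FamOK (S : Finset (Fin d → ℤ)) (F : Finset ((Fin d → ℤ) × (Fin d → ℤ))) : Prop where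
  valid : ∀ B ∈ F, ∀ i, B.1 i ≤ B.2 i
  cover : ∀ x ∈ S, ∃ B ∈ F, InB B x
  weight : ∑ B ∈ F, (per B + 2) ≤ 2 * S.card

theorem per_nonneg {B : (Fin d → ℤ) × (Fin d → ℤ)} (h : ∀ i, B.1 i ≤ B.2 i) : 0 ≤ per B :=
  Finset.sum_nonneg (fun i _ => sub_nonneg.mpr (h i))

theorem exists_separated (S : Finset (Fin d → ℤ)) :
    ∃ F, FamOK S F ∧ ∀ B ∈ F, ∀ C ∈ F, B ≠ C → ∀ x y, InB B x → InB C y →
      2 < ∑ i, |x i - y i| := by
  classical
  have key : ∀ n : ℕ, ∀ F, FamOK S F → F.card = n →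
      ∃ F, FamOK S F ∧ ∀ B ∈ F, ∀ C ∈ F, B ≠ C → ∀ x y, InB B x → InB C y →
      2 < ∑ i, |x i - y i| := by
    intro n
    induction n using Nat.strong_induction_on with
    | _ n ih =>
      intro F hF hcard
      by_cases hsep : ∀ B ∈ F, ∀ C ∈ F, B ≠ C → ∀ x y, InB B x → InB C y →
          2 < ∑ i, |x i - y i|
      · exact ⟨F, hF, hsep⟩
      push Not at hsep
      obtain ⟨B, hB, C, hC, hne, x, y, hx, hy, hdist⟩ := hsep
      have hCB : C ∈ F.erase B := Finset.mem_erase.mpr ⟨Ne.symm hne, hC⟩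
      set R := (F.erase B).erase C with hR
      have hsum : ∑ D ∈ F, (per D + 2) = (per B + 2) + ((per C + 2) + ∑ D ∈ R, (per D + 2)) := by
        rw [hR, Finset.add_sum_erase _ (fun D => per D + 2) hCB,
          Finset.add_sum_erase _ (fun D => per D + 2) hB]
      have hRcard : R.card + 2 = F.card := by
        rw [hR, Finset.card_erase_of_mem hCB, Finset.card_erase_of_mem hB]
        have h1 : 1 ≤ (F.erase B).card := Finset.card_pos.mpr ⟨C, hCB⟩
        rw [Finset.card_erase_of_mem hB] at h1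
        omega
      have hvalid : ∀ i, (hullB B C).1 i ≤ (hullB B C).2 i := by
        intro i
        have h1 := hF.valid B hB i
        show min (B.1 i) (C.1 i) ≤ max (B.2 i) (C.2 i)
        exact (min_le_left _ _).trans (h1.trans (le_max_left _ _))
      refine ih (insert (hullB B C) R).card ?_ _ ⟨?_, ?_, ?_⟩ rfl
      · have := Finset.card_insert_le (hullB B C) R
        omega
      · intro D hD i
        rcases Finset.mem_insert.mp hD with rfl | hD
        · exact hvalid i
        · exact hF.valid D (Finset.mem_of_mem_erase (Finset.mem_of_mem_erase hD)) i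
      · intro w hw
        obtain ⟨D, hD, hwD⟩ := hF.cover w hw
        by_cases hDB : D = B
        · subst hDB
          exact ⟨hullB D C, Finset.mem_insert_self _ _, fun i =>
            ⟨(min_le_left _ _).trans (hwD i).1, (hwD i).2.trans (le_max_left _ _)⟩⟩
        · by_cases hDC : D = C
          · subst hDC
            exact ⟨hullB B D, Finset.mem_insert_self _ _, fun i =>
              ⟨(min_le_right _ _).trans (hwD i).1, (hwD i).2.trans (le_max_right _ _)⟩⟩
          · exact ⟨D, Finset.mem_insert_of_mem (Finset.mem_erase.mpr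
              ⟨hDC, Finset.mem_erase.mpr ⟨hDB, hD⟩⟩), hwD⟩
      · have h1 : ∑ D ∈ insert (hullB B C) R, (per D + 2) ≤
            (per (hullB B C) + 2) + ∑ D ∈ R, (per D + 2) := by
          by_cases hmem : hullB B C ∈ R
          · rw [Finset.insert_eq_of_mem hmem]
            have := per_nonneg hvalid
            linarith
          · rw [Finset.sum_insert hmem]
        have h2 := per_hull hx hy
        have h3 := hF.weight
        linarith
  refine key _ (S.image (fun x => (x, x))) ⟨?_, ?_, ?_⟩ rfl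
  · intro B hB i
    obtain ⟨x, _, rfl⟩ := Finset.mem_image.mp hB
    exact le_rfl
  · intro x hx
    exact ⟨(x, x), Finset.mem_image_of_mem _ hx, fun i => ⟨le_rfl, le_rfl⟩⟩
  · rw [Finset.sum_image (fun a _ b _ hab => (Prod.mk.inj hab).1)]
    simp [per]
    ring_nf
    exact le_rfl

theorem adj_adj_dist {x y y' : Fin d → ℤ} (h : Adj x y) (h' : Adj x y') :
    ∑ i, |y i - y' i| ≤ 2 := by
  have h1 : ∑ i, |y i - y' i| ≤ ∑ i, (|x i - y i| + |x i - y' i|) := by
    refine Finset.sum_le_sum (fun i _ => ?_)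
    have : y i - y' i = -(x i - y i) + (x i - y' i) := by ring
    rw [this]
    refine (abs_add_le _ _).trans ?_
    rw [abs_neg]
  rw [Finset.sum_add_distrib] at h1
  unfold Adj at h h'
  omega

/-- finite locality -/
theorem cl2_local (S : Finset (Fin d → ℤ)) {x : Fin d → ℤ} (hx : x ∈ cl2 (S : Set (Fin d → ℤ))) :
    x ∈ cl2 {s | s ∈ S ∧ ∀ i, |s i - x i| ≤ 2 * S.card} := by
  classical
  obtain ⟨F, hF, hsep⟩ := exists_separated S
  set T : Set (Fin d → ℤ) := {x | ∃ B ∈ F, InB B x ∧ x ∈ cl2 {s | s ∈ S ∧ InB B s}} with hT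
  have hST : (S : Set (Fin d → ℤ)) ⊆ T := by
    intro s hs
    obtain ⟨B, hB, hsB⟩ := hF.cover s hs
    exact ⟨B, hB, hsB, subset_cl2 _ ⟨hs, hsB⟩⟩
  have hTc : Closed2 T := by
    rintro w y y' hy hy' hne ⟨B, hB, hyB, hyc⟩ ⟨C, hC, hyC, hyc'⟩
    have hBC : B = C := by
      by_contra hcon
      have h1 := hsep B hB C hC hcon y y' hyB hyC
      have h2 := adj_adj_dist hy hy'
      omega
    subst hBC
    exact ⟨B, hB, closed2_box B w y y' hy hy' hne hyB hyC,
      closed2_cl2 _ w y y' hy hy' hne hyc hyc'⟩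
  obtain ⟨B, hB, hxB, hxc⟩ := cl2_subset hST hTc hx
  refine cl2_mono ?_ hxc
  rintro s ⟨hs, hsB⟩
  refine ⟨hs, fun i => ?_⟩
  have h1 : per B + 2 ≤ 2 * S.card := by
    refine le_trans ?_ hF.weight
    exact Finset.single_le_sum (f := fun B => per B + 2)
      (fun D hD => by have := per_nonneg (hF.valid D hD); positivity) hB
  have h2 : B.2 i - B.1 i ≤ per B :=
    Finset.single_le_sum (f := fun i => B.2 i - B.1 i)
      (fun j _ => sub_nonneg.mpr (hF.valid B hB j)) (Finset.mem_univ i)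
  have h3 := hxB i
  have h4 := hsB i
  rw [abs_le]
  constructor <;> linarith

/-- the cube around a site -/
def Cube (R : ℕ) (x : Fin d → ℤ) : Set (Fin d → ℤ) := {s | ∀ i, |s i - x i| ≤ R}

/-- **Locality of the islands.** -/
theorem islands_local {O : Set (Fin d → ℤ)}
    (hO : ∀ x, ∃ S : Finset (Fin d → ℤ), S.card ≤ d ∧ ∀ s ∈ O, s ∈ Cube (2 * d + 1) x → s ∈ S)
    {x : Fin d → ℤ} (hx : x ∈ cl2 O) : ∃ o ∈ O, o ∈ Cube (2 * d) x := by
  classical
  set J : Set (Fin d → ℤ) := {x | x ∈ cl2 (O ∩ Cube (2 * d) x)} with hJ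
  have h1 : O ⊆ J := by
    intro s hs
    refine subset_cl2 _ ⟨hs, fun i => ?_⟩
    simp
  have h2 : Closed2 J := by
    intro w y y' hy hy' hne hyJ hyJ'
    obtain ⟨S0, hS0, hS0'⟩ := hO w
    set S : Finset (Fin d → ℤ) := S0.filter (fun s => s ∈ O ∧ s ∈ Cube (2 * d + 1) w) with hS
    have hSle : S.card ≤ d := (Finset.card_filter_le _ _).trans hS0
    have hsub : ∀ v, Adj w v → O ∩ Cube (2 * d) v ⊆ (S : Set (Fin d → ℤ)) := by
      rintro v hv s ⟨hsO, hsc⟩
      have hcube : s ∈ Cube (2 * d + 1) w := by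
        intro i
        have h3 := hsc i
        have h4 : |v i - w i| ≤ 1 := by
          have h5 : |w i - v i| ≤ ∑ j, |w j - v j| :=
            Finset.single_le_sum (f := fun j => |w j - v j|) (fun _ _ => abs_nonneg _)
              (Finset.mem_univ i)
          rw [abs_sub_comm]
          unfold Adj at hv
          omega
        rw [abs_le] at h3 h4 ⊢
        push_cast at h3 ⊢
        constructor <;> linarith [h3.1, h3.2, h4.1, h4.2]
      rw [Finset.mem_coe, hS, Finset.mem_filter]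
      exact ⟨hS0' s hsO hcube, hsO, hcube⟩
    have hw : w ∈ cl2 (S : Set (Fin d → ℤ)) :=
      closed2_cl2 _ w y y' hy hy' hne (cl2_mono (hsub y hy) hyJ) (cl2_mono (hsub y' hy') hyJ')
    refine cl2_mono ?_ (cl2_local S hw)
    rintro s ⟨hs, hsd⟩
    rw [hS, Finset.mem_filter] at hs
    refine ⟨hs.2.1, fun i => (hsd i).trans ?_⟩
    push_cast
    have : (S.card : ℤ) ≤ d := by exact_mod_cast hSle
    linarith
  have h3 : x ∈ J := cl2_subset h1 h2 hx
  by_contra hcon
  push Not at hcon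
  have : O ∩ Cube (2 * d) x = ∅ := by
    ext s
    simp only [Set.mem_inter_iff, Set.mem_empty_iff_false, iff_false, not_and]
    exact hcon s
  have h4 : x ∈ cl2 (O ∩ Cube (2 * d) x) := h3
  rw [this, cl2_empty] at h4
  exact h4

end Pool.Agent.Polluted
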