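import Pool.Agent.Polluted.LGood

set_option autoImplicit false

/-!
# Probability estimates for the lower half
-/

namespace Pool.Agent.Polluted

open MeasureTheory ProbabilityTheory Filter

variable {d : ℕ}

/-- surviving sites are eventually far away -/
theorem ae_near (hd : 1 ≤ d) (ν : Measure SiteState) [IsProbabilityMeasure ν] {ℓ : ℕ}
    (Bd : Config d → Set (Fin d → ℤ)) (hℓ : 1 ≤ ℓ)
    (hB : ∀ y, EventOn {ω | y ∈ Bd ω} (RegL ℓ (4 * d + 3) y)) {δ : ℝ} (hδ0 : 0 ≤ δ)
    (hδ : ∀ y, (PP d ν).real {ω | y ∈ Bd ω} ≤ δ)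
    (hδ2 : ((KK d : ℝ) ^ d) ^ 25 * δ ≤ 1 / 2) :
    ∀ᵐ ω ∂(PP d ν), ∀ a : Fin d → ℤ, ∃ N, ∀ i, N ≤ i →
      ¬ ∃ y ∈ WW (PP0 d hd) (Bd ω) i, ‖y - a‖ ≤ LLa d i := by
  rw [ae_all_iff]
  intro a
  have h1 : ∑' i, (PP d ν) {ω | ∃ y ∈ WW (PP0 d hd) (Bd ω) i, ‖y - a‖ ≤ LLa d i} ≠ ⊤ := by
    have h2 : ∀ i, (PP d ν) {ω | ∃ y ∈ WW (PP0 d hd) (Bd ω) i, ‖y - a‖ ≤ LLa d i} ≤
        ENNReal.ofReal ((((KK d : ℝ) ^ d) ^ 25 * δ) * (1 / 2) ^ i) := by
      intro i
      rw [← ofReal_measureReal]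
      refine ENNReal.ofReal_le_ofReal ?_
      exact (prob_near hd ν Bd hℓ hB hδ i a).trans (MM_del_le hδ0 hδ2 i)
    refine ne_top_of_le_ne_top ?_ (ENNReal.tsum_le_tsum h2)
    rw [← ENNReal.ofReal_tsum_of_nonneg]
    · exact ENNReal.ofReal_ne_top
    · intro i; positivity
    · exact (summable_geometric_of_lt_one (by norm_num) (by norm_num)).mul_left _
  have h3 := ae_eventually_notMem h1
  filter_upwards [h3] with ω hω
  rw [eventually_atTop] at hω
  exact hω

theorem phi_le_of_bad (hd : 2 ≤ d) {p q : ℝ} (hp : 0 ≤ p) (hq : 0 ≤ q) (hpq : p + q ≤ 1) {ℓ : ℕ}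
    (hℓ : 1 ≤ ℓ) {δ : ℝ} (hδ0 : 0 ≤ δ)
    (hδ : ∀ y : Fin d → ℤ, (configLaw d p q).real {ω | y ∈ BadL ℓ ω} ≤ δ)
    (hδ2 : ((KK d : ℝ) ^ d) ^ 25 * δ ≤ 1 / 2) :
    phi d d p q ≤ (4 * d + 1) ^ d * p + 2 * (((KK d : ℝ) ^ d) ^ 25 * δ) := by
  classical
  have := isProbabilityMeasure_siteLaw hp hq hpq
  set μ := siteLaw p q with hμ
  have hd1 : 1 ≤ d := by omega
  set x0 : ℝ := ((KK d : ℝ) ^ d) ^ 25 * δ with hx0
  have hx0n : 0 ≤ x0 := by positivity
  have hocc : μ.real {SiteState.occupied} = p := by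
    rw [measureReal_def, siteLaw_occupied, ENNReal.toReal_ofReal hp]
  have hae := ae_near hd1 μ (BadL ℓ) hℓ (eventOn_BadL hℓ) hδ0 hδ hδ2
  -- the two exceptional events
  set E3 : Set (Config d) := ⋃ o ∈ CubF (2 * d) (0 : Fin d → ℤ),
    {ω | ∀ x ∈ ({o} : Finset (Fin d → ℤ)), ω x = SiteState.occupied} with hE3
  set E4 : Set (Config d) := ⋃ i, {ω | ∃ y ∈ WW (PP0 d hd1) (BadL ℓ ω) i,
    ‖y - 0‖ ≤ LLa d i} with hE4
  have hincl : ∀ᵐ ω ∂(PP d μ), ω ∈ {ω : Config d | (0 : Fin d → ℤ) ∈ finalSet d ω} →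
      ω ∈ E3 ∪ E4 := by
    filter_upwards [hae] with ω hω h0
    have h1 := finalSet_sub hd hℓ ω hω h0
    rcases h1 with h1 | ⟨i, y, hy, h1⟩
    · left
      obtain ⟨o, ho, hoc⟩ := islands_local (Ogood_sparse ω) h1
      rw [hE3]
      simp only [Set.mem_iUnion]
      refine ⟨o, mem_CubF.mpr hoc, fun x hx => ?_⟩
      rw [Finset.mem_singleton] at hx
      rw [hx]
      exact ho.1
    · right
      rw [hE4]
      simp only [Set.mem_iUnion]
      refine ⟨i, y, hy.1, ?_⟩
      have h2 := box_mem_Uh hℓ (box_zf hℓ ω) h1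
      have h3 := uh_near (claim_all hd1 i) (QQ_self hy) h2
      have h4 : box ℓ (0 : Fin d → ℤ) = 0 := by funext k; simp [box]
      rw [h4] at h3
      rw [norm_sub_rev] at h3
      refine h3.trans (le_trans ?_ (PP0_w_le d hd1 i))
      set P := PP0 d hd1
      rw [P.w_eq]
      have h5 : 0 ≤ P.u i := by
        rw [P.u_eq]
        have := P.c_nonneg i
        positivity
      have h6 := P.ρ2_nonneg
      linarith
  have hm3 : (PP d μ) E3 ≤ ENNReal.ofReal ((4 * d + 1) ^ d * p) := by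
    rw [← ofReal_measureReal (measure_ne_top _ _)]
    refine ENNReal.ofReal_le_ofReal ?_
    refine (measureReal_biUnion_finset_le _ _).trans ?_
    refine (Finset.sum_le_card_nsmul _ _ p (fun o _ => ?_)).trans ?_
    · rw [prob_occ, hocc]; simp
    · rw [card_CubF, nsmul_eq_mul]
      push_cast
      refine le_of_eq ?_
      ring
  have hm4 : (PP d μ) E4 ≤ ENNReal.ofReal (2 * x0) := by
    refine (measure_iUnion_le _).trans ?_
    have h2 : ∀ i, (PP d μ) {ω | ∃ y ∈ WW (PP0 d hd1) (BadL ℓ ω) i, ‖y - 0‖ ≤ LLa d i} ≤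
        ENNReal.ofReal (x0 * (1 / 2) ^ i) := by
      intro i
      rw [← ofReal_measureReal]
      refine ENNReal.ofReal_le_ofReal ?_
      exact (prob_near hd1 μ (BadL ℓ) hℓ (eventOn_BadL hℓ) hδ i 0).trans
        (MM_del_le hδ0 hδ2 i)
    refine (ENNReal.tsum_le_tsum h2).trans ?_
    rw [← ENNReal.ofReal_tsum_of_nonneg]
    · refine ENNReal.ofReal_le_ofReal ?_
      rw [tsum_mul_left, tsum_geometric_of_lt_one (by norm_num) (by norm_num)]
      refine le_of_eq ?_
      norm_num
      ring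
    · intro i; positivity
    · exact (summable_geometric_of_lt_one (by norm_num) (by norm_num)).mul_left _
  have hfinal : (PP d μ) {ω : Config d | (0 : Fin d → ℤ) ∈ finalSet d ω} ≤
      ENNReal.ofReal ((4 * d + 1) ^ d * p + 2 * x0) := by
    rw [ENNReal.ofReal_add (by positivity) (by positivity)]
    refine (measure_mono_ae hincl).trans ((measure_union_le _ _).trans ?_)
    exact add_le_add hm3 hm4
  rw [phi_eq, measureReal_def]
  exact ENNReal.toReal_le_of_le_ofReal (by positivity) hfinal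

/-! ### The probability that a coarse box is bad -/

/-- possible centres of cubes meeting the box -/
noncomputable def XF (ℓ : ℕ) (y : Fin d → ℤ) : Finset (Fin d → ℤ) :=
  Fintype.piFinset (fun i => Finset.Ico ((ℓ : ℤ) * y i - (2 * d + 1))
    (ℓ * (y i + 1) + (2 * d + 1)))

theorem card_XF (ℓ : ℕ) (y : Fin d → ℤ) : (XF ℓ y).card = (ℓ + 4 * d + 2) ^ d := by
  rw [XF, Fintype.card_piFinset]
  have : ∀ i : Fin d, (Finset.Ico ((ℓ : ℤ) * y i - (2 * d + 1))
      (ℓ * (y i + 1) + (2 * d + 1))).card = ℓ + 4 * d + 2 := by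
    intro i
    rw [Int.card_Ico]
    have : (ℓ : ℤ) * (y i + 1) + (2 * d + 1) - (ℓ * y i - (2 * d + 1)) =
        ((ℓ + 4 * d + 2 : ℕ) : ℤ) := by push_cast; ring
    rw [this, Int.toNat_natCast]
  simp [this]

/-- finite version of the thickened segments -/
noncomputable def ThickF (ℓ : ℕ) (z : Fin d → ℤ) : Finset (Fin d → ℤ) :=
  (Finset.univ : Finset (Fin d)).biUnion (fun t => Fintype.piFinset (fun i =>
    Finset.Icc (z i - (if i = t then (((d + 2) * ℓ + (2 * d + 1) : ℕ) : ℤ) else ((2 * d + 1 : ℕ) : ℤ)))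
      (z i + (if i = t then (((d + 2) * ℓ + (2 * d + 1) : ℕ) : ℤ) else ((2 * d + 1 : ℕ) : ℤ)))))

theorem mem_ThickF {ℓ : ℕ} {z x : Fin d → ℤ} (h : x ∈ Thick ℓ z) : x ∈ ThickF ℓ z := by
  obtain ⟨t, h1, h2⟩ := h
  rw [ThickF, Finset.mem_biUnion]
  refine ⟨t, Finset.mem_univ t, ?_⟩
  rw [Fintype.mem_piFinset]
  intro i
  rw [Finset.mem_Icc]
  by_cases hi : i = t
  · subst hi
    rw [if_pos rfl]
    rw [abs_le] at h1
    push_cast
    constructor <;> linarith [h1.1, h1.2]
  · rw [if_neg hi]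
    have := h2 i hi
    rw [abs_le] at this
    push_cast
    constructor <;> linarith [this.1, this.2]

theorem card_ThickF (ℓ : ℕ) (z : Fin d → ℤ) : (ThickF ℓ z).card ≤
    d * ((2 * ((d + 2) * ℓ + (2 * d + 1)) + 1) * (4 * d + 3) ^ d) := by
  rw [ThickF]
  refine (Finset.card_biUnion_le).trans ?_
  refine (Finset.sum_le_card_nsmul _ _
    ((2 * ((d + 2) * ℓ + (2 * d + 1)) + 1) * (4 * d + 3) ^ d) (fun t _ => ?_)).trans ?_
  · rw [Fintype.card_piFinset]
    have hterm : ∀ i : Fin d, (Finset.Icc (z i - (if i = t then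
        (((d + 2) * ℓ + (2 * d + 1) : ℕ) : ℤ) else ((2 * d + 1 : ℕ) : ℤ)))
      (z i + (if i = t then (((d + 2) * ℓ + (2 * d + 1) : ℕ) : ℤ) else
        ((2 * d + 1 : ℕ) : ℤ)))).card ≤
        (if i = t then (2 * ((d + 2) * ℓ + (2 * d + 1)) + 1) else 1) * (4 * d + 3) := by
      intro i
      rw [Int.card_Icc]
      by_cases hi : i = t
      · rw [if_pos hi, if_pos hi]
        set R : ℕ := (d + 2) * ℓ + (2 * d + 1)
        have h1 : (z i + (R : ℤ) + 1 - (z i - R)).toNat = 2 * R + 1 := by omega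
        rw [h1]
        exact Nat.le_mul_of_pos_right _ (by omega)
      · rw [if_neg hi, if_neg hi]
        have h1 : (z i + ((2 * d + 1 : ℕ) : ℤ) + 1 - (z i - ((2 * d + 1 : ℕ) : ℤ))).toNat =
            4 * d + 3 := by omega
        rw [h1, one_mul]
    refine (Finset.prod_le_prod' (fun i _ => hterm i)).trans ?_
    rw [Finset.prod_mul_distrib, Finset.prod_ite_eq' Finset.univ t, if_pos (Finset.mem_univ t)]
    simp
  · rw [Finset.card_univ, Fintype.card_fin, smul_eq_mul]

theorem prob_BadL {p q : ℝ} (hp : 0 ≤ p) (hq : 0 ≤ q) (hpq : p + q ≤ 1) {ℓ : ℕ} (hℓ : 1 ≤ ℓ)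
    (y : Fin d → ℤ) : (configLaw d p q).real {ω | y ∈ BadL ℓ ω} ≤
      (ℓ + 4 * d + 2) ^ d * ((((4 * d + 3) ^ d).choose (d + 1) : ℕ) * p ^ (d + 1)) +
      ((1 - q) ^ ℓ ^ d +
        ℓ ^ d * ((d * ((2 * ((d + 2) * ℓ + (2 * d + 1)) + 1) * (4 * d + 3) ^ d)) * (q * p))) := by
  classical
  have := isProbabilityMeasure_siteLaw hp hq hpq
  set μ := siteLaw p q with hμ
  have hocc : μ.real {SiteState.occupied} = p := by
    rw [measureReal_def, siteLaw_occupied, ENNReal.toReal_ofReal hp]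
  have hcl : μ.real {SiteState.closed} = q := by
    rw [measureReal_def, siteLaw_closed, ENNReal.toReal_ofReal hq]
  have hcl' : μ.real {SiteState.closed}ᶜ = 1 - q := by
    rw [measureReal_compl (MeasurableSet.singleton _), hcl, probReal_univ]
  have hprod : ∀ (N : Finset (Fin d → ℤ)) (T : Set SiteState),
      (PP d μ).real {ω | ∀ z ∈ N, ω z ∈ T} = μ.real T ^ N.card := by
    intro N T
    have h1 : {ω : Config d | ∀ z ∈ N, ω z ∈ T} = Set.pi N (fun _ => T) := by
      ext ω
      simp [Set.mem_pi]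
    rw [h1, measureReal_def, Measure.infinitePi_pi _ (fun _ _ => MeasurableSet.of_discrete)]
    simp [measureReal_def]
  set EA : Set (Config d) := ⋃ x ∈ XF ℓ y, ⋃ T ∈ (CubF (2 * d + 1) x).powersetCard (d + 1),
    {ω | ∀ s ∈ T, ω s = SiteState.occupied} with hEA
  set EB : Set (Config d) := {ω | ∀ z ∈ boxF ℓ y, ω z ∈ ({SiteState.closed}ᶜ : Set SiteState)}
    with hEB
  set EC : Set (Config d) := ⋃ z ∈ boxF ℓ y, ⋃ x ∈ ThickF ℓ z,
    ({ω | ω z = SiteState.closed} ∩ {ω | ω x = SiteState.occupied}) with hEC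
  have hsub : {ω : Config d | y ∈ BadL ℓ ω} ⊆ EA ∪ (EB ∪ EC) := by
    intro ω hω
    by_cases hA : GA ℓ ω y
    · right
      have hBn : ¬ GB ℓ ω y := fun hB => hω ⟨hA, hB⟩
      by_cases hno : ω ∈ EB
      · left; exact hno
      · right
        have hno' : ∃ z ∈ boxF ℓ y, ω z = SiteState.closed := by
          by_contra hcon
          push Not at hcon
          exact hno (fun z hz => hcon z hz)
        obtain ⟨z, hz, hzc⟩ := hno'
        have hex : ∃ x ∈ Thick ℓ z, ω x = SiteState.occupied := by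
          by_contra hcon
          push Not at hcon
          exact hBn ⟨z, (mem_boxF hℓ).mp hz, hzc, hcon⟩
        obtain ⟨x, hx, hxo⟩ := hex
        rw [hEC]
        simp only [Set.mem_iUnion]
        exact ⟨z, hz, x, mem_ThickF hx, hzc, hxo⟩
    · left
      unfold GA at hA
      push Not at hA
      obtain ⟨x, ⟨s', hs', hy⟩, T, hT, hTo⟩ := hA
      rw [hEA]
      simp only [Set.mem_iUnion]
      refine ⟨x, ?_, T, ?_, fun s hs => (hTo s hs).2⟩
      · rw [XF, Fintype.mem_piFinset]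
        intro i
        rw [Finset.mem_Ico]
        have h1 := hs' i
        have h2 := box_bounds hℓ hy i
        rw [abs_le] at h1
        push_cast at h1
        constructor <;> linarith [h1.1, h1.2, h2.1, h2.2]
      · rw [Finset.mem_powersetCard]
        exact ⟨fun s hs => mem_CubF.mpr (hTo s hs).1, hT⟩
  show (PP d μ).real {ω : Config d | y ∈ BadL ℓ ω} ≤ _
  refine (measureReal_mono hsub (measure_ne_top _ _)).trans
    ((measureReal_union_le _ _).trans (add_le_add ?_
      ((measureReal_union_le _ _).trans (add_le_add ?_ ?_))))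
  · refine (measureReal_biUnion_finset_le _ _).trans ?_
    refine (Finset.sum_le_card_nsmul _ _
      ((((4 * d + 3) ^ d).choose (d + 1) : ℕ) * p ^ (d + 1)) (fun x _ => ?_)).trans ?_
    · refine (measureReal_biUnion_finset_le _ _).trans ?_
      refine (Finset.sum_le_card_nsmul _ _ (p ^ (d + 1)) (fun T hT => ?_)).trans ?_
      · rw [Finset.mem_powersetCard] at hT
        rw [prob_occ, hocc, hT.2]
      · rw [Finset.card_powersetCard, card_CubF, nsmul_eq_mul]
        have : 2 * (2 * d + 1) + 1 = 4 * d + 3 := by ring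
        rw [this]
    · rw [card_XF, nsmul_eq_mul]
      push_cast
      exact le_rfl
  · rw [hEB, hprod, card_boxF, hcl']
  · refine (measureReal_biUnion_finset_le _ _).trans ?_
    refine (Finset.sum_le_card_nsmul _ _
      ((d * ((2 * ((d + 2) * ℓ + (2 * d + 1)) + 1) * (4 * d + 3) ^ d)) * (q * p))
      (fun z _ => ?_)).trans ?_
    · refine (measureReal_biUnion_finset_le _ _).trans ?_
      refine (Finset.sum_le_card_nsmul _ _ (q * p) (fun x _ => ?_)).trans ?_
      · by_cases hxz : x = z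
        · have hempty : {ω : Config d | ω z = SiteState.closed} ∩
              {ω | ω x = SiteState.occupied} = ∅ := by
            ext ω
            simp only [Set.mem_inter_iff, Set.mem_ofPred_eq, Set.mem_empty_iff_false, iff_false,
              not_and]
            intro h1 h2
            rw [hxz, h1] at h2
            exact absurd h2 (by decide)
          rw [hempty, measureReal_empty]
          positivity
        · have e1 : {ω : Config d | ω z = SiteState.closed} =
              {ω | ∀ w ∈ ({z} : Finset (Fin d → ℤ)), ω w ∈ ({SiteState.closed} :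
                Set SiteState)} := by
            ext ω; simp
          have e2 : {ω : Config d | ω x = SiteState.occupied} =
              {ω | ∀ w ∈ ({x} : Finset (Fin d → ℤ)), ω w ∈ ({SiteState.occupied} :
                Set SiteState)} := by
            ext ω; simp
          have hon : ∀ (w : Fin d → ℤ) (s : SiteState),
              EventOn {ω : Config d | ω w = s} ({w} : Finset (Fin d → ℤ)) := by
            intro w s ω ω' h
            have := h w (by simp)
            show ω w = s ↔ ω' w = s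
            rw [this]
          rw [real_inter μ (hon z _) (hon x _)
            (Finset.disjoint_singleton.mpr (Ne.symm hxz)), e1, e2, hprod, hprod]
          simp [hocc, hcl]
      · rw [nsmul_eq_mul]
        refine mul_le_mul_of_nonneg_right ?_ (mul_nonneg hq hp)
        have := card_ThickF ℓ z
        exact_mod_cast this
    · rw [card_boxF, nsmul_eq_mul]
      push_cast
      exact le_rfl

end Pool.Agent.Polluted
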