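import Pool.Agent.Polluted.Clusters
import Pool.Agent.Polluted.Coarse

set_option autoImplicit false

/-!
# The blocking set at the microscopic level (lower half)
-/

namespace Pool.Agent.Polluted

variable {d : ℕ}

section

variable (P : Par d) (W0 : Set (Fin d → ℤ)) (z : (Fin d → ℤ) → (Fin d → ℤ))

/-- The up-set blocked in the orthant direction `σ`. -/
def RM (i : ℕ) (y σ : Fin d → ℤ) : Set (Fin d → ℤ) :=
  {x | ∃ a, a ∉ SS (Ob P W0 i) σ (QQ P W0 i y) ∧ SLe σ (z a) x}

/-- The container of the cluster of `y`. -/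
def UM (i : ℕ) (y : Fin d → ℤ) : Set (Fin d → ℤ) :=
  {x | ∀ σ, IsSign σ → x ∉ RM P W0 z i y σ}

/-- The union of the containers. -/
def UAll : Set (Fin d → ℤ) := {x | ∃ i y, y ∈ BB P W0 i ∧ x ∈ UM P W0 z i y}

end

variable {P : Par d} {W0 : Set (Fin d → ℤ)} {z : (Fin d → ℤ) → (Fin d → ℤ)} {ℓ : ℕ}

theorem box_mem_Uh (hℓ : 1 ≤ ℓ) (hz : ∀ a, box ℓ (z a) = a) {i : ℕ} {x y : Fin d → ℤ}
    (hx : x ∈ UM P W0 z i y) : box ℓ x ∈ Uh (Ob P W0 i) (QQ P W0 i y) := by
  intro σ hσ
  by_contra hcon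
  refine hx σ hσ ⟨box ℓ x - σ, hcon, fun k => ?_⟩
  have h1 := box_bounds hℓ (hz (box ℓ x - σ)) k
  have h2 := box_bounds hℓ (rfl : box ℓ x = box ℓ x) k
  rw [Pi.sub_apply] at h1
  have hℓ' : (1 : ℤ) ≤ ℓ := by exact_mod_cast hℓ
  rcases hσ k with h | h
  · rw [h] at h1 ⊢
    have : (ℓ : ℤ) * (box ℓ x k - 1 + 1) = ℓ * box ℓ x k := by ring
    rw [this] at h1
    omega
  · rw [h] at h1 ⊢
    have : (ℓ : ℤ) * (box ℓ x k - -1) = ℓ * (box ℓ x k + 1) := by ring
    rw [this] at h1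
    omega

theorem box_not_mem_SS (hℓ : 1 ≤ ℓ) (hz : ∀ a, box ℓ (z a) = a) {i : ℕ} {x y σ : Fin d → ℤ}
    (hσ : IsSign σ) (hx : x ∈ RM P W0 z i y σ) :
    box ℓ x ∉ SS (Ob P W0 i) σ (QQ P W0 i y) := by
  obtain ⟨a, ha, hle⟩ := hx
  intro hmem
  refine ha (SS_lower hσ (fun k => ?_) hmem)
  have hℓ' : (0 : ℤ) ≤ ℓ := by positivity
  have h1 : a k = z a k / ℓ := (congrFun (hz a) k).symm
  have h2 : box ℓ x k = x k / ℓ := rfl
  have h3 := hle k
  rcases hσ k with h | h
  · rw [h] at h3 ⊢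
    have : z a k / ℓ ≤ x k / ℓ := Int.ediv_le_ediv (by exact_mod_cast hℓ) (by omega)
    omega
  · rw [h] at h3 ⊢
    have : x k / ℓ ≤ z a k / ℓ := Int.ediv_le_ediv (by exact_mod_cast hℓ) (by omega)
    omega

theorem mem_UM_of_box (hℓ : 1 ≤ ℓ) (hz : ∀ a, box ℓ (z a) = a) {i : ℕ} {x y : Fin d → ℤ}
    (h : box ℓ x ∈ QQ P W0 i y) : x ∈ UM P W0 z i y :=
  fun _ hσ hx => box_not_mem_SS hℓ hz hσ hx (SS_self h)

theorem RM_up {i : ℕ} {x y σ : Fin d → ℤ} (hσ : IsSign σ) (hx : x ∈ RM P W0 z i y σ)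
    (k : Fin d) : shift x k (σ k) ∈ RM P W0 z i y σ := by
  obtain ⟨a, ha, hle⟩ := hx
  refine ⟨a, ha, fun m => ?_⟩
  have h1 := hle m
  by_cases hm : m = k
  · subst hm
    rw [shift_same]
    rcases hσ m with h | h <;> rw [h] at h1 ⊢ <;> omega
  · rw [shift_ne _ _ hm]
    exact h1

theorem norm_box_adj (hℓ : 1 ≤ ℓ) {x x' : Fin d → ℤ} (h : Adj x x') :
    ‖box ℓ x' - box ℓ x‖ ≤ 1 := by
  obtain ⟨i, s, hs, rfl⟩ := adj_iff.mp h
  have hℓ' : (0 : ℤ) < ℓ := by exact_mod_cast hℓ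
  refine norm_le_of_coord zero_le_one (fun k => ?_)
  have hk : |(box ℓ (shift x i s) - box ℓ x) k| ≤ 1 := by
    rw [Pi.sub_apply]
    by_cases hki : k = i
    · subst hki
      simp only [box, shift_same]
      rw [abs_le]
      rcases hs with rfl | rfl
      · have h1 : x k / ℓ ≤ (x k + 1) / ℓ := Int.ediv_le_ediv hℓ' (by omega)
        have h2 : (x k + 1) / ℓ ≤ (x k + ℓ) / ℓ := Int.ediv_le_ediv hℓ' (by omega)
        rw [Int.add_ediv_of_dvd_right (dvd_refl _), Int.ediv_self hℓ'.ne'] at h2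
        omega
      · have h1 : (x k + -1) / ℓ ≤ x k / ℓ := Int.ediv_le_ediv hℓ' (by omega)
        have h2 : (x k - ℓ) / ℓ ≤ (x k + -1) / ℓ := Int.ediv_le_ediv hℓ' (by omega)
        rw [Int.sub_ediv_of_dvd _ (dvd_refl _), Int.ediv_self hℓ'.ne'] at h2
        omega
    · simp only [box, shift_ne _ _ hki]
      simp
  exact_mod_cast hk

theorem norm_sign_le {σ : Fin d → ℤ} (hσ : IsSign σ) : ‖σ‖ ≤ 1 := by
  refine norm_le_of_coord zero_le_one (fun k => ?_)
  rcases hσ k with h | h <;> rw [h] <;> norm_num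

/-- **The blocking theorem.** -/
theorem micro_closed (hd : 2 ≤ d) (hℓ : 1 ≤ ℓ) (hz : ∀ a, box ℓ (z a) = a)
    (hρ1 : (d : ℝ) + 2 ≤ P.ρ1) (hρ2 : 2 * P.ρ1 + 1 ≤ P.ρ2) {ω : Config d}
    {I : Set (Fin d → ℤ)}
    (hI2 : ∀ x y y', Adj x y → Adj x y' → y ≠ y' → y ∈ I → y' ∈ I → x ∈ I)
    (hgood : ∀ a, a ∉ W0 → ω (z a) = SiteState.closed ∧
      ∀ x t, (∀ k, k ≠ t → x k = z a k) → |x t - z a t| ≤ (d + 2) * ℓ →
        ∀ x', Adj x x' → x' ∉ I)
    (hlev : ∀ y ∈ W0, ∃ i, y ∈ BB P W0 i)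
    (hfin : ∀ a, ∃ N, ∀ i, N ≤ i → ∀ y ∈ BB P W0 i, P.u i + P.ρ1 < ‖y - a‖)
    {x : Fin d → ℤ} (hx : x ∉ I ∪ UAll P W0 z) (hxc : ω x ≠ SiteState.closed) :
    {y | Adj x y ∧ y ∈ I ∪ UAll P W0 z}.ncard < d := by
  classical
  have hxI : x ∉ I := fun h => hx (Or.inl h)
  have hxU : ∀ i y, y ∈ BB P W0 i → x ∉ UM P W0 z i y := fun i y hy h => hx (Or.inr ⟨i, y, hy, h⟩)
  have hclaim : ∀ j, Claim (Ob P W0 j) (P.κ j) (P.c j) := fun j => claim_all (by omega) j
  have hd' : (2 : ℝ) ≤ d := by exact_mod_cast hd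
  -- at most one neighbour in `I`
  have hIone : {y | Adj x y ∧ y ∈ I}.ncard ≤ 1 := by
    rw [Set.ncard_le_one (finite_adj_inter x I)]
    rintro y ⟨hy, hyI⟩ y' ⟨hy', hyI'⟩
    by_contra hne
    exact hxI (hI2 x y y' hy hy' hne hyI hyI')
  set Lset : Set ℕ := {i | ∃ y ∈ BB P W0 i,
    box ℓ x ∈ Nbh P.ρ1 (Uh (Ob P W0 i) (QQ P W0 i y))} with hLset
  by_cases hLne : Lset.Nonempty
  swap
  · -- no cluster nearby
    have hsub : {y | Adj x y ∧ y ∈ I ∪ UAll P W0 z} ⊆ {y | Adj x y ∧ y ∈ I} := by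
      rintro x' ⟨hadj, hx' | ⟨i, y, hy, hx'⟩⟩
      · exact ⟨hadj, hx'⟩
      · exfalso
        refine hLne ⟨i, y, hy, box ℓ x', box_mem_Uh hℓ hz hx', ?_⟩
        have := norm_box_adj hℓ hadj
        linarith
    have := Set.ncard_le_ncard hsub (finite_adj_inter x I)
    omega
  -- the maximal level
  have hLb : BddAbove Lset := by
    obtain ⟨N, hN⟩ := hfin (box ℓ x)
    refine ⟨N, ?_⟩
    rintro i ⟨y, hy, v, hv, hvx⟩
    by_contra hcon
    push Not at hcon
    have h1 := hN i hcon.le y hy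
    have h2 := uh_near (hclaim i) (QQ_self hy) hv
    have h3 : ‖y - box ℓ x‖ ≤ ‖v - box ℓ x‖ + ‖v - y‖ := by
      calc ‖y - box ℓ x‖ = ‖(v - box ℓ x) - (v - y)‖ := by congr 1; abel
        _ ≤ _ := norm_sub_le _ _
    linarith
  set is : ℕ := sSup Lset with his
  have hisL : is ∈ Lset := Nat.sSup_mem hLne hLb
  have hmax : ∀ i ∈ Lset, i ≤ is := fun i hi => le_csSup hLb hi
  obtain ⟨ys, hys, us, hus, husx⟩ := hisL
  -- the blocked orthant
  have hxR : ∃ σ, IsSign σ ∧ x ∈ RM P W0 z is ys σ := by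
    have := hxU is ys hys
    by_contra hcon
    push Not at hcon
    exact this hcon
  obtain ⟨σ, hσ, hxR⟩ := hxR
  obtain ⟨a, haS, hax⟩ := id hxR
  -- absorption
  have habs : ∀ i' y' v, y' ∈ BB P W0 i' → v ∈ Uh (Ob P W0 i') (QQ P W0 i' y') →
      ‖v - box ℓ x‖ ≤ P.ρ1 →
      (i' = is ∧ QQ P W0 i' y' = QQ P W0 is ys) ∨
      v ∈ SS (Ob P W0 is) σ (QQ P W0 is ys) := by
    intro i' y' v hy' hv hvx
    have hle : i' ≤ is := hmax i' ⟨y', hy', v, hv, hvx⟩
    rcases hle.lt_or_eq with hlt | heq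
    · right
      have hmem := nbh_mem_Ob (P := P) (W0 := W0) hlt hy'
      refine SS_absorb hmem (a := us - σ) ⟨v, hv, ?_⟩ ⟨v, hv, ?_⟩ (hus σ hσ)
      · have h1 := norm_sign_le hσ
        calc ‖v - (us - σ)‖ = ‖((v - box ℓ x) - (us - box ℓ x)) + σ‖ := by congr 1; abel
          _ ≤ ‖(v - box ℓ x) - (us - box ℓ x)‖ + ‖σ‖ := norm_add_le _ _
          _ ≤ (‖v - box ℓ x‖ + ‖us - box ℓ x‖) + ‖σ‖ := by
              have := norm_sub_le (v - box ℓ x) (us - box ℓ x)
              linarith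
          _ ≤ _ := by linarith
      · rw [sub_self, norm_zero]
        exact P.ρ2_nonneg
    · left
      refine ⟨heq, ?_⟩
      subst heq
      refine same_cluster (hclaim is) hy' hys (x := box ℓ x) (x' := box ℓ x)
        ⟨v, hv, by linarith⟩ ⟨us, hus, by linarith⟩ ?_
      rw [sub_self, norm_zero]
      have := P.w_lt is
      linarith
  -- neighbours in the containers are not in the blocked orthant
  have hnbr : ∀ x', Adj x x' → x' ∈ UAll P W0 z → x' ∉ RM P W0 z is ys σ := by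
    rintro x' hadj ⟨i', y', hy', hx'⟩ hR
    have hb := box_mem_Uh hℓ hz hx'
    have hn := norm_box_adj hℓ hadj
    rcases habs i' y' (box ℓ x') hy' hb (by linarith) with ⟨heq, hQ⟩ | hS
    · subst heq
      apply hx' σ hσ
      obtain ⟨a', ha', hle'⟩ := hR
      exact ⟨a', by rw [hQ]; exact ha', hle'⟩
    · exact box_not_mem_SS hℓ hz hσ hR hS
  -- the set of possible directions
  set Nout : Finset (Fin d) := Finset.univ.filter
    (fun k => shift x k (-σ k) ∉ RM P W0 z is ys σ) with hNout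
  have hsub : {y | Adj x y ∧ y ∈ I ∪ UAll P W0 z} ⊆
      ((Nout.image (fun k => shift x k (-σ k)) : Finset (Fin d → ℤ)) : Set (Fin d → ℤ)) ∪
        {y | Adj x y ∧ y ∈ I} := by
    rintro x' ⟨hadj, hx' | hx'⟩
    · right; exact ⟨hadj, hx'⟩
    · left
      have h1 := hnbr x' hadj hx'
      obtain ⟨k, s, hs, rfl⟩ := adj_iff.mp hadj
      have hsk : s = -σ k := by
        rcases hσ k with h | h
        · rcases hs with h2 | h2
          · exfalso
            apply h1
            rw [h2, ← h]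
            exact RM_up hσ hxR k
          · rw [h2, h]
        · rcases hs with h2 | h2
          · rw [h2, h]; norm_num
          · exfalso
            apply h1
            rw [h2, ← h]
            exact RM_up hσ hxR k
      rw [hsk] at h1 ⊢
      rw [Finset.mem_coe, Finset.mem_image]
      exact ⟨k, by simp [hNout, h1], rfl⟩
  have hfinU : (((Nout.image (fun k => shift x k (-σ k)) : Finset (Fin d → ℤ)) :
      Set (Fin d → ℤ)) ∪ {y | Adj x y ∧ y ∈ I}).Finite :=
    (Finset.finite_toSet _).union (finite_adj_inter x I)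
  have hcount1 : {y | Adj x y ∧ y ∈ I ∪ UAll P W0 z}.ncard ≤
      Nout.card + {y | Adj x y ∧ y ∈ I}.ncard := by
    refine (Set.ncard_le_ncard hsub hfinU).trans ((Set.ncard_union_le _ _).trans ?_)
    refine Nat.add_le_add_right ?_ _
    rw [Set.ncard_coe_finset]
    exact Finset.card_image_le
  by_cases hsmall : Nout.card + 2 ≤ d
  · omega
  -- coordinates in `Nout`
  have hcoord : ∀ k ∈ Nout, x k = z a k := by
    intro k hk
    have hk' : shift x k (-σ k) ∉ RM P W0 z is ys σ := by simpa [hNout] using hk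
    by_contra hne
    refine hk' ⟨a, haS, fun m => ?_⟩
    have h1 := hax m
    by_cases hm : m = k
    · subst hm
      rw [shift_same]
      rcases hσ m with h | h <;> rw [h] at h1 ⊢ <;> omega
    · rw [shift_ne _ _ hm]
      exact h1
  -- the exceptional direction
  obtain ⟨t, ht⟩ : ∃ t, ∀ k, k ≠ t → k ∈ Nout := by
    by_cases hall : ∀ k, k ∈ Nout
    · exact ⟨⟨0, by omega⟩, fun k _ => hall k⟩
    · push Not at hall
      obtain ⟨t, ht⟩ := hall
      refine ⟨t, fun k hk => ?_⟩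
      by_contra hcon
      have h1 : ({t, k} : Finset (Fin d)) ⊆ Noutᶜ := by
        intro m hm
        rw [Finset.mem_insert, Finset.mem_singleton] at hm
        rcases hm with rfl | rfl <;> simpa using by assumption
      have h2 := Finset.card_le_card h1
      rw [Finset.card_pair (Ne.symm hk), Finset.card_compl, Fintype.card_fin] at h2
      omega
  have hℓ' : (1 : ℤ) ≤ ℓ := by exact_mod_cast hℓ
  -- `x` is not too far from `z a`
  have hm : |x t - z a t| < (d + 2) * ℓ := by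
    by_contra hcon
    push Not at hcon
    -- another direction
    obtain ⟨l, hl⟩ : ∃ l : Fin d, l ≠ t := by
      by_contra hcon2
      push Not at hcon2
      have h0 := hcon2 ⟨0, by omega⟩
      have h1 := hcon2 ⟨1, by omega⟩
      rw [← h1] at h0
      simp at h0
    have hlN := ht l hl
    have hl' : shift x l (-σ l) ∉ RM P W0 z is ys σ := by simpa [hNout] using hlN
    set v : Fin d → ℤ := fun k => if k = t then d * σ t else -σ k with hv
    have hmv : Move σ v := Or.inr ⟨t, hv⟩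
    refine hl' ⟨a + v, SS_move' hmv haS, fun k => ?_⟩
    have hb1 := box_bounds hℓ (hz (a + v)) k
    have hb2 := box_bounds hℓ (hz a) k
    rw [Pi.add_apply] at hb1
    have hsl := hax k
    by_cases hkt : k = t
    · subst hkt
      rw [shift_ne _ _ (Ne.symm hl)]
      have hvk : v k = d * σ k := by simp [hv]
      rw [hvk] at hb1
      rcases hσ k with h | h
      · rw [h] at hb1 hsl ⊢
        rw [abs_of_nonneg (by linarith)] at hcon
        have e1 : (ℓ : ℤ) * (a k + d * 1 + 1) = ℓ * a k + (d + 1) * ℓ := by ring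
        rw [e1] at hb1
        have e2 : ((d : ℤ) + 2) * ℓ = (d + 1) * ℓ + ℓ := by ring
        rw [e2] at hcon
        linarith [hb1.2, hb2.1]
      · rw [h] at hb1 hsl ⊢
        rw [abs_of_nonpos (by linarith)] at hcon
        have e1 : (ℓ : ℤ) * (a k + d * -1) = ℓ * (a k + 1) - (d + 1) * ℓ := by ring
        rw [e1] at hb1
        have e2 : ((d : ℤ) + 2) * ℓ = (d + 1) * ℓ + ℓ := by ring
        rw [e2] at hcon
        linarith [hb1.1, hb2.2]
    · have hxk := hcoord k (ht k hkt)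
      have hvk : v k = -σ k := by simp [hv, hkt]
      rw [hvk] at hb1
      by_cases hkl : k = l
      · subst hkl
        rw [shift_same, hxk]
        rcases hσ k with h | h
        · rw [h] at hb1 ⊢
          have e1 : (ℓ : ℤ) * (a k + -1 + 1) = ℓ * a k := by ring
          rw [e1] at hb1
          linarith [hb1.2, hb2.1]
        · rw [h] at hb1 ⊢
          have e1 : (ℓ : ℤ) * (a k + - -1) = ℓ * (a k + 1) := by ring
          rw [e1] at hb1
          linarith [hb1.1, hb2.2]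
      · rw [shift_ne _ _ hkl, hxk]
        rcases hσ k with h | h
        · rw [h] at hb1 ⊢
          have e1 : (ℓ : ℤ) * (a k + -1 + 1) = ℓ * a k := by ring
          rw [e1] at hb1
          linarith [hb1.2, hb2.1]
        · rw [h] at hb1 ⊢
          have e1 : (ℓ : ℤ) * (a k + - -1) = ℓ * (a k + 1) := by ring
          rw [e1] at hb1
          linarith [hb1.1, hb2.2]
  -- the box of `x` is close to `a`
  have hbox : ‖a - box ℓ x‖ ≤ d + 2 := by
    refine norm_le_of_coord (by positivity) (fun k => ?_)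
    have hk : |(a - box ℓ x) k| ≤ d + 2 := by
      rw [Pi.sub_apply]
      have h1 : a k = z a k / ℓ := (congrFun (hz a) k).symm
      have h2 : box ℓ x k = x k / ℓ := rfl
      by_cases hkt : k = t
      · subst hkt
        rw [h1, h2, abs_le]
        have h3 := abs_lt.mp hm
        have hℓ0 : (0 : ℤ) < ℓ := by linarith
        have e1 : x k / ℓ ≤ (z a k + (d + 2) * ℓ) / ℓ := Int.ediv_le_ediv hℓ0 (by linarith)
        have e2 : z a k / ℓ ≤ (x k + (d + 2) * ℓ) / ℓ := Int.ediv_le_ediv hℓ0 (by linarith)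
        rw [Int.add_mul_ediv_right _ _ hℓ0.ne'] at e1 e2
        constructor <;> linarith
      · rw [h1, h2, hcoord k (ht k hkt)]
        simp
        positivity
    exact_mod_cast hk
  -- `a` is good
  have haW : a ∉ W0 := by
    intro haW
    obtain ⟨i', hi'⟩ := hlev a haW
    rcases habs i' a a hi' (sub_Uh (QQ_self hi')) (by linarith) with ⟨heq, hQ⟩ | hS
    · have h1 : a ∈ QQ P W0 is ys := by rw [← hQ]; exact QQ_self hi'
      exact haS (SS_self h1)
    · exact haS hS
  obtain ⟨hcl, haxis⟩ := hgood a haW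
  have hnoI : {y | Adj x y ∧ y ∈ I} = ∅ := by
    ext x'
    simp only [Set.mem_ofPred_eq, Set.mem_empty_iff_false, iff_false, not_and]
    exact fun hadj => haxis x t (fun k hk => hcoord k (ht k hk)) hm.le x' hadj
  have hnotall : Nout.card < d := by
    by_contra hcon
    have h1 : Nout = Finset.univ := by
      refine (Finset.card_eq_iff_eq_univ _).mp ?_
      rw [Fintype.card_fin]
      have := Finset.card_le_univ Nout
      rw [Fintype.card_fin] at this
      omega
    have h2 : x = z a := by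
      funext k
      exact hcoord k (by rw [h1]; exact Finset.mem_univ k)
    rw [h2] at hxc
    exact hxc hcl
  rw [hnoI, Set.ncard_empty] at hcount1
  omega

end Pool.Agent.Polluted
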