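import Pool.Agent.Polluted.LProb
import Pool.Agent.Polluted.Micro
import Pool.Agent.Polluted.Islands

set_option autoImplicit false

/-!
# Good coarse boxes for the lower half
-/

namespace Pool.Agent.Polluted

open MeasureTheory ProbabilityTheory

variable {d : ℕ}

/-- The thickened axis segments through `z`. -/
def Thick (ℓ : ℕ) (z : Fin d → ℤ) : Set (Fin d → ℤ) :=
  {x | ∃ t, |x t - z t| ≤ (d + 2) * ℓ + (2 * d + 1) ∧ ∀ i, i ≠ t → |x i - z i| ≤ 2 * d + 1}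

/-- No small cube meeting the box contains more than `d` occupied sites. -/
def GA (ℓ : ℕ) (ω : Config d) (y : Fin d → ℤ) : Prop :=
  ∀ x, (∃ s ∈ Cube (2 * d + 1) x, box ℓ s = y) →
    ¬ ∃ T : Finset (Fin d → ℤ), T.card = d + 1 ∧
      ∀ s ∈ T, s ∈ Cube (2 * d + 1) x ∧ ω s = SiteState.occupied

/-- There is a closed site whose thickened axis segments contain no occupied site. -/
def GB (ℓ : ℕ) (ω : Config d) (y : Fin d → ℤ) : Prop :=
  ∃ z, box ℓ z = y ∧ ω z = SiteState.closed ∧ ∀ x ∈ Thick ℓ z, ω x ≠ SiteState.occupied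

/-- The bad coarse sites. -/
def BadL (ℓ : ℕ) (ω : Config d) : Set (Fin d → ℤ) := {y | ¬ (GA ℓ ω y ∧ GB ℓ ω y)}

theorem box_lip {ℓ : ℕ} (hℓ : 1 ≤ ℓ) {x x' : Fin d → ℤ} {i : Fin d} {D : ℤ}
    (h : |x i - x' i| ≤ D * ℓ) : |box ℓ x i - box ℓ x' i| ≤ D := by
  have hpos : (0 : ℤ) < ℓ := by exact_mod_cast hℓ
  rw [abs_le] at h ⊢
  have e1 : x i / ℓ ≤ (x' i + D * ℓ) / ℓ := Int.ediv_le_ediv hpos (by linarith [h.2])
  have e2 : x' i / ℓ ≤ (x i + D * ℓ) / ℓ := Int.ediv_le_ediv hpos (by linarith [h.1])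
  rw [Int.add_mul_ediv_right _ _ hpos.ne'] at e1 e2
  simp only [box]
  constructor <;> linarith

theorem thick_region {ℓ : ℕ} (hℓ : 1 ≤ ℓ) {z x y : Fin d → ℤ} (hz : box ℓ z = y)
    (hx : x ∈ Thick ℓ z) : x ∈ RegL ℓ (4 * d + 3) y := by
  rw [mem_RegL hℓ]
  intro i
  obtain ⟨t, h1, h2⟩ := hx
  have hℓ' : (1 : ℤ) ≤ ℓ := by exact_mod_cast hℓ
  have hd0 : (0 : ℤ) ≤ d := by positivity
  have h3 : |x i - z i| ≤ (3 * d + 3) * ℓ := by
    by_cases hi : i = t
    · subst hi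
      refine h1.trans ?_
      nlinarith
    · refine (h2 i hi).trans ?_
      nlinarith
  have h4 := box_lip hℓ h3
  rw [hz] at h4
  push_cast
  linarith

theorem cube_region {ℓ : ℕ} (hℓ : 1 ≤ ℓ) {x s s' y : Fin d → ℤ} (hs' : s' ∈ Cube (2 * d + 1) x)
    (hy : box ℓ s' = y) (hs : s ∈ Cube (2 * d + 1) x) : s ∈ RegL ℓ (4 * d + 3) y := by
  rw [mem_RegL hℓ]
  intro i
  have hℓ' : (1 : ℤ) ≤ ℓ := by exact_mod_cast hℓ
  have hd0 : (0 : ℤ) ≤ d := by positivity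
  have h1 := hs i
  have h2 := hs' i
  have h3 : |s i - s' i| ≤ (4 * d + 2) * ℓ := by
    rw [abs_le] at h1 h2 ⊢
    push_cast at h1 h2
    have : (4 * d + 2 : ℤ) ≤ (4 * d + 2) * ℓ := by nlinarith
    constructor <;> linarith [h1.1, h1.2, h2.1, h2.2]
  have h4 := box_lip hℓ h3
  rw [hy] at h4
  push_cast
  linarith

theorem eventOn_BadL {ℓ : ℕ} (hℓ : 1 ≤ ℓ) (y : Fin d → ℤ) :
    EventOn {ω : Config d | y ∈ BadL ℓ ω} (RegL ℓ (4 * d + 3) y) := by
  have main : ∀ ω ω' : Config d,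
      (∀ x ∈ (RegL ℓ (4 * d + 3) y : Set (Fin d → ℤ)), ω x = ω' x) →
      GA ℓ ω y ∧ GB ℓ ω y → GA ℓ ω' y ∧ GB ℓ ω' y := by
    rintro ω ω' h ⟨hA, z, hz, hc, hocc⟩
    constructor
    · rintro x ⟨s', hs', hy⟩ ⟨T, hT, hTo⟩
      refine hA x ⟨s', hs', hy⟩ ⟨T, hT, fun s hs => ⟨(hTo s hs).1, ?_⟩⟩
      rw [h s (cube_region hℓ hs' hy (hTo s hs).1)]
      exact (hTo s hs).2
    · have hzz : z ∈ Thick ℓ z → z ∈ RegL ℓ (4 * d + 3) y := thick_region hℓ hz
      refine ⟨z, hz, ?_, fun x hx => ?_⟩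
      · rw [← h z ?_]
        · exact hc
        · rw [Finset.mem_coe, mem_RegL hℓ]
          intro i
          rw [hz, sub_self, abs_zero]
          positivity
      · rw [← h x (thick_region hℓ hz hx)]
        exact hocc x hx
  intro ω ω' h
  exact not_congr ⟨main ω ω' h, main ω' ω (fun x hx => (h x hx).symm)⟩

open Classical in
/-- The reference site of a box. -/
noncomputable def zf (ℓ : ℕ) (ω : Config d) (y : Fin d → ℤ) : Fin d → ℤ :=
  if h : GB ℓ ω y then h.choose else fun i => ℓ * y i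

theorem box_zf {ℓ : ℕ} (hℓ : 1 ≤ ℓ) (ω : Config d) (y : Fin d → ℤ) : box ℓ (zf ℓ ω y) = y := by
  unfold zf
  split_ifs with h
  · exact h.choose_spec.1
  · refine box_of_bounds hℓ (fun i => ⟨le_rfl, ?_⟩)
    have hℓ' : (1 : ℤ) ≤ ℓ := by exact_mod_cast hℓ
    nlinarith

/-- The occupied sites in good boxes. -/
def Ogood (ℓ : ℕ) (ω : Config d) : Set (Fin d → ℤ) :=
  {x | ω x = SiteState.occupied ∧ box ℓ x ∉ BadL ℓ ω}

theorem Ogood_sparse {ℓ : ℕ} (ω : Config d) (x : Fin d → ℤ) :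
    ∃ S : Finset (Fin d → ℤ), S.card ≤ d ∧
      ∀ s ∈ Ogood ℓ ω, s ∈ Cube (2 * d + 1) x → s ∈ S := by
  classical
  set S : Finset (Fin d → ℤ) := (CubF (2 * d + 1) x).filter (fun s => s ∈ Ogood ℓ ω) with hS
  refine ⟨S, ?_, fun s hs hc => ?_⟩
  · by_contra hcon
    push Not at hcon
    obtain ⟨T, hTS, hT⟩ := Finset.exists_subset_card_eq (show d + 1 ≤ S.card from hcon)
    have hne : T.Nonempty := by rw [← Finset.card_pos]; omega
    obtain ⟨s0, hs0⟩ := hne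
    have hmem : ∀ s ∈ T, s ∈ Cube (2 * d + 1) x ∧ s ∈ Ogood ℓ ω := by
      intro s hs
      have := hTS hs
      rw [hS, Finset.mem_filter, mem_CubF] at this
      exact ⟨this.1, this.2⟩
    have hgood := (hmem s0 hs0).2.2
    have hgood' : GA ℓ ω (box ℓ s0) ∧ GB ℓ ω (box ℓ s0) := not_not.mp hgood
    exact hgood'.1 x ⟨s0, (hmem s0 hs0).1, rfl⟩ ⟨T, hT, fun s hs =>
      ⟨(hmem s hs).1, (hmem s hs).2.1⟩⟩
  · rw [hS, Finset.mem_filter, mem_CubF]
    exact ⟨hc, hs⟩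

/-- **Deterministic lower half**: the final set is contained in the blocking set. -/
theorem finalSet_sub (hd : 2 ≤ d) {ℓ : ℕ} (hℓ : 1 ≤ ℓ) (ω : Config d)
    (hnear : ∀ a : Fin d → ℤ, ∃ N, ∀ i, N ≤ i →
      ¬ ∃ y ∈ WW (PP0 d (by omega)) (BadL ℓ ω) i, ‖y - a‖ ≤ LLa d i) :
    finalSet d ω ⊆ cl2 (Ogood ℓ ω) ∪ UAll (PP0 d (by omega)) (BadL ℓ ω) (zf ℓ ω) := by
  set P := PP0 d (by omega : 1 ≤ d) with hP
  have hlev : ∀ y ∈ BadL ℓ ω, ∃ i, y ∈ BB P (BadL ℓ ω) i := by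
    classical
    intro y hy
    have hex : ∃ n, y ∉ WW P (BadL ℓ ω) n := by
      obtain ⟨N, hN⟩ := hnear y
      refine ⟨N, fun hmem => hN N le_rfl ⟨y, hmem, ?_⟩⟩
      rw [sub_self, norm_zero]
      exact Nat.cast_nonneg _
    have h1 := Nat.find_spec hex
    have h2 : Nat.find hex ≠ 0 := by
      intro h0
      rw [h0] at h1
      exact h1 hy
    obtain ⟨m, hm⟩ := Nat.exists_eq_succ_of_ne_zero h2
    refine ⟨m, ?_, ?_⟩
    · by_contra hcon
      have := Nat.find_min' hex hcon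
      omega
    · rw [hm] at h1
      exact h1
  have hfin : ∀ a, ∃ N, ∀ i, N ≤ i → ∀ y ∈ BB P (BadL ℓ ω) i, P.u i + P.ρ1 < ‖y - a‖ := by
    intro a
    obtain ⟨N, hN⟩ := hnear a
    refine ⟨N, fun i hi y hy => ?_⟩
    by_contra hcon
    push Not at hcon
    refine hN i hi ⟨y, hy.1, hcon.trans ?_⟩
    have h1 := PP0_w_le d (by omega) i
    refine le_trans ?_ h1
    show P.u i + P.ρ1 ≤ P.w i
    rw [P.w_eq]
    have h2 : P.ρ1 = d + 2 := rfl
    have h3 : P.ρ2 = 2 * d + 5 := rfl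
    have h4 : 0 ≤ P.u i := by
      rw [P.u_eq]
      have := P.c_nonneg i
      positivity
    rw [h2, h3]
    have : (0 : ℝ) ≤ d := Nat.cast_nonneg d
    linarith
  refine finalSet_subset ?_ ?_
  · intro x hx
    by_cases hb : box ℓ x ∈ BadL ℓ ω
    · right
      obtain ⟨i, hi⟩ := hlev _ hb
      exact ⟨i, box ℓ x, hi, mem_UM_of_box hℓ (box_zf hℓ ω) (QQ_self hi)⟩
    · left
      exact subset_cl2 _ ⟨hx, hb⟩
  · intro x hxc hcount
    by_contra hx
    have := micro_closed (P := P) (W0 := BadL ℓ ω) (z := zf ℓ ω) hd hℓ (box_zf hℓ ω)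
      (show (d : ℝ) + 2 ≤ P.ρ1 from le_rfl)
      (show 2 * P.ρ1 + 1 ≤ P.ρ2 by
        have h2 : P.ρ1 = d + 2 := rfl
        have h3 : P.ρ2 = 2 * d + 5 := rfl
        rw [h2, h3]; linarith)
      (ω := ω) (I := cl2 (Ogood ℓ ω)) (closed2_cl2 _) ?_ hlev hfin hx hxc
    · omega
    · intro a ha
      have hgood : GA ℓ ω a ∧ GB ℓ ω a := not_not.mp ha
      have hz : zf ℓ ω a = hgood.2.choose := by
        unfold zf
        rw [dif_pos hgood.2]
      have hspec := hgood.2.choose_spec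
      rw [← hz] at hspec
      refine ⟨hspec.2.1, fun x' t hx' hxt x'' hadj hI => ?_⟩
      obtain ⟨o, ho, hoc⟩ := islands_local (Ogood_sparse ω) hI
      refine hspec.2.2 o ⟨t, ?_, fun i hi => ?_⟩ ho.1
      · have h1 := hoc t
        have h2 : |x' t - x'' t| ≤ 1 := by
          have h5 : |x' t - x'' t| ≤ ∑ j, |x' j - x'' j| :=
            Finset.single_le_sum (f := fun j => |x' j - x'' j|) (fun _ _ => abs_nonneg _)
              (Finset.mem_univ t)
          unfold Adj at hadj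
          omega
        rw [abs_le] at h1 h2 hxt ⊢
        push_cast at h1
        constructor <;> linarith [h1.1, h1.2, h2.1, h2.2, hxt.1, hxt.2]
      · have h1 := hoc i
        have h2 : |x' i - x'' i| ≤ 1 := by
          have h5 : |x' i - x'' i| ≤ ∑ j, |x' j - x'' j| :=
            Finset.single_le_sum (f := fun j => |x' j - x'' j|) (fun _ _ => abs_nonneg _)
              (Finset.mem_univ i)
          unfold Adj at hadj
          omega
        have h3 := hx' i hi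
        rw [abs_le] at h1 h2 ⊢
        push_cast at h1
        constructor <;> linarith [h1.1, h1.2, h2.1, h2.2]

end Pool.Agent.Polluted
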