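import Pool.Agent.Polluted.Transfer

set_option autoImplicit false

/-!
# The upper half, quantitative form
-/

namespace Pool.Agent.Polluted

open MeasureTheory ProbabilityTheory

variable {d : ℕ}

/-- The sites of a line of a coarse box. -/
noncomputable def lineF (ℓ : ℕ) (y x : Fin d → ℤ) (m : Fin d) : Finset (Fin d → ℤ) :=
  (Finset.Ico ((ℓ : ℤ) * y m) (ℓ * (y m + 1))).image (fun s => Function.update x m s)

theorem card_lineF (ℓ : ℕ) (y x : Fin d → ℤ) (m : Fin d) : (lineF ℓ y x m).card = ℓ := by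
  rw [lineF, Finset.card_image_of_injective]
  · rw [Int.card_Ico]
    have : (ℓ : ℤ) * (y m + 1) - ℓ * y m = (ℓ : ℤ) := by ring
    rw [this, Int.toNat_natCast]
  · intro a b hab
    have := congrFun hab m
    simpa using this

theorem lineF_spec {ℓ : ℕ} (hℓ : 1 ≤ ℓ) {y x : Fin d → ℤ} {m : Fin d} (hx : box ℓ x = y)
    {x' : Fin d → ℤ} (h : x' ∈ lineF ℓ y x m) : box ℓ x' = y ∧ ∀ i, i ≠ m → x' i = x i := by
  rw [lineF, Finset.mem_image] at h
  obtain ⟨s, hs, rfl⟩ := h
  rw [Finset.mem_Ico] at hs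
  constructor
  · refine box_of_bounds hℓ (fun i => ?_)
    by_cases hi : i = m
    · subst hi; simpa using hs
    · rw [Function.update_of_ne hi]; exact box_bounds hℓ hx i
  · intro i hi
    rw [Function.update_of_ne hi]

theorem prob_cclosed (μ : Measure SiteState) [IsProbabilityMeasure μ] {ℓ : ℕ} (hℓ : 1 ≤ ℓ)
    (y : Fin d → ℤ) :
    (PP d μ).real {ω | CClosed ℓ ω y} ≤ ℓ ^ d * μ.real {SiteState.closed} +
      ℓ ^ d * (d * μ.real {SiteState.occupied}ᶜ ^ ℓ) := by
  classical
  have hsub : {ω : Config d | CClosed ℓ ω y} ⊆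
      (⋃ x ∈ boxF ℓ y, {ω | ∀ z ∈ ({x} : Finset (Fin d → ℤ)), ω z ∈ ({SiteState.closed} :
        Set SiteState)}) ∪
      ⋃ x ∈ boxF ℓ y, ⋃ m ∈ (Finset.univ : Finset (Fin d)),
        {ω | ∀ z ∈ lineF ℓ y x m, ω z ∈ ({SiteState.occupied}ᶜ : Set SiteState)} := by
    rintro ω (⟨x, hx, hcl⟩ | ⟨x, m, hx, hline⟩)
    · left
      simp only [Set.mem_iUnion]
      exact ⟨x, (mem_boxF hℓ).mpr hx, fun z hz => by
        rw [Finset.mem_singleton] at hz
        rw [hz, hcl]
        rfl⟩
    · right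
      simp only [Set.mem_iUnion]
      refine ⟨x, (mem_boxF hℓ).mpr hx, m, Finset.mem_univ m, fun z hz => ?_⟩
      obtain ⟨h1, h2⟩ := lineF_spec hℓ hx hz
      exact hline z h1 h2
  have hprod : ∀ (N : Finset (Fin d → ℤ)) (T : Set SiteState),
      (PP d μ).real {ω | ∀ z ∈ N, ω z ∈ T} = μ.real T ^ N.card := by
    intro N T
    have h1 : {ω : Config d | ∀ z ∈ N, ω z ∈ T} = Set.pi N (fun _ => T) := by
      ext ω
      simp [Set.mem_pi]
    rw [h1, measureReal_def, Measure.infinitePi_pi _ (fun _ _ => MeasurableSet.of_discrete)]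
    simp [measureReal_def]
  refine (measureReal_mono hsub (measure_ne_top _ _)).trans
    ((measureReal_union_le _ _).trans (add_le_add ?_ ?_))
  · refine (measureReal_biUnion_finset_le _ _).trans ?_
    refine (Finset.sum_le_card_nsmul _ _ (μ.real {SiteState.closed}) (fun x _ => ?_)).trans ?_
    · rw [hprod]; simp
    · rw [card_boxF, nsmul_eq_mul]
      push_cast
      exact le_rfl
  · refine (measureReal_biUnion_finset_le _ _).trans ?_
    refine (Finset.sum_le_card_nsmul _ _ (d * μ.real {SiteState.occupied}ᶜ ^ ℓ)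
      (fun x _ => ?_)).trans ?_
    · refine (measureReal_biUnion_finset_le _ _).trans ?_
      refine (Finset.sum_le_card_nsmul _ _ (μ.real {SiteState.occupied}ᶜ ^ ℓ)
        (fun m _ => ?_)).trans ?_
      · rw [hprod, card_lineF]
      · rw [nsmul_eq_mul, Finset.card_univ, Fintype.card_fin]
    · rw [card_boxF, nsmul_eq_mul]
      push_cast
      exact le_rfl

/-- **Quantitative upper half for `d = r`.** -/
theorem phi_ge {d : ℕ} (hd : 1 ≤ d) {p q : ℝ} (hp : 0 < p) (hq : 0 ≤ q) (hpq : p + q ≤ 1) {ℓ : ℕ}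
    (hℓ : 1 ≤ ℓ) (h : (24 ^ d) ^ 2 * (ℓ ^ d * q + ℓ ^ d * (d * (1 - p) ^ ℓ)) ≤ 1 / 2) :
    1 - 2 * 24 ^ d * (ℓ ^ d * q + ℓ ^ d * (d * (1 - p) ^ ℓ)) ≤ phi d d p q := by
  classical
  have := isProbabilityMeasure_siteLaw hp.le hq hpq
  set μ := siteLaw p q with hμ
  have hocc : μ.real {SiteState.occupied} = p := by
    rw [measureReal_def, siteLaw_occupied, ENNReal.toReal_ofReal hp.le]
  have hcl : μ.real {SiteState.closed} = q := by
    rw [measureReal_def, siteLaw_closed, ENNReal.toReal_ofReal hq]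
  have hocc' : μ.real {SiteState.occupied}ᶜ = 1 - p := by
    rw [measureReal_compl (MeasurableSet.singleton _), hocc, probReal_univ]
  have hmeas0 : Measurable (fun ω : Config d => coarse ℓ ω 0) := by
    intro T _
    exact (eventOn_coarse hℓ 0 T).measurableSet
  set κ : Measure SiteState := (PP d μ).map (fun ω => coarse ℓ ω 0) with hκ
  have hκp : IsProbabilityMeasure κ := Measure.isProbabilityMeasure_map hmeas0.aemeasurable
  have hκy : ∀ y (T : Set SiteState), (PP d μ) {ω | coarse ℓ ω y ∈ T} = κ T := by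
    intro y T
    rw [hκ, Measure.map_apply hmeas0 trivial]
    have h1 : {ω : Config d | coarse ℓ ω y ∈ T} =
        (fun (ω : Config d) (x : Fin d → ℤ) => ω (x + fun i => (ℓ : ℤ) * y i)) ⁻¹'
          {ω | coarse ℓ ω 0 ∈ T} := by
      ext ω
      simp only [Set.mem_ofPred_eq, Set.mem_preimage]
      rw [coarse_shift hℓ ω y]
    have h2 : Measurable (fun (ω : Config d) (x : Fin d → ℤ) =>
        ω (x + fun i => (ℓ : ℤ) * y i)) :=
      measurable_pi_iff.mpr fun x => measurable_pi_apply _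
    rw [h1, ← Measure.map_apply h2 (eventOn_coarse hℓ 0 T).measurableSet, pp_map_shift]
    rfl
  obtain ⟨hmeas, hmap⟩ := pp_map_block μ (coarse ℓ) (boxF ℓ) (fun y y' hyy => by
      rw [Finset.disjoint_left]
      intro x hx hx'
      rw [mem_boxF hℓ] at hx hx'
      exact hyy (hx.symm.trans hx'))
    (fun y T => eventOn_coarse hℓ y T) κ hκy
  have hκcl : κ.real {SiteState.closed} ≤ ℓ ^ d * q + ℓ ^ d * (d * (1 - p) ^ ℓ) := by
    have h1 := prob_cclosed (d := d) μ hℓ 0
    rw [hcl, hocc'] at h1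
    refine le_trans (le_of_eq ?_) h1
    rw [measureReal_def, ← hκy 0, ← measureReal_def]
    congr 1
    ext ω
    simp only [Set.mem_ofPred_eq, Set.mem_singleton_iff]
    unfold coarse
    by_cases hcc : CClosed ℓ ω 0
    · simp [hcc]
    · rw [if_neg hcc]
      by_cases ho : ∀ x, box ℓ x = (0 : Fin d → ℤ) → ω x = SiteState.occupied
      · rw [if_pos ho]
        simp [hcc]
      · rw [if_neg ho]
        simp [hcc]
  have hκocc : 0 < κ.real {SiteState.occupied} := by
    have h1 : {ω : Config d | ∀ x ∈ boxF ℓ 0, ω x = SiteState.occupied} ⊆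
        {ω | coarse ℓ ω 0 ∈ ({SiteState.occupied} : Set SiteState)} := by
      intro ω hω
      have ho : ∀ x, box ℓ x = (0 : Fin d → ℤ) → ω x = SiteState.occupied :=
        fun x hx => hω x ((mem_boxF hℓ).mpr hx)
      have hcc : ¬ CClosed ℓ ω 0 := by
        rintro (⟨x, hx, hc⟩ | ⟨x, m, hx, hl⟩)
        · rw [ho x hx] at hc
          exact absurd hc (by decide)
        · exact hl x hx (fun _ _ => rfl) (ho x hx)
      show coarse ℓ ω 0 = SiteState.occupied
      unfold coarse
      rw [if_neg hcc, if_pos ho]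
    have h2 := measureReal_mono (μ := PP d μ) h1 (measure_ne_top _ _)
    rw [prob_occ, hocc] at h2
    have h3 : (PP d μ).real {ω | coarse ℓ ω 0 ∈ ({SiteState.occupied} : Set SiteState)} =
        κ.real {SiteState.occupied} := by
      rw [measureReal_def, hκy 0, ← measureReal_def]
    rw [h3] at h2
    exact lt_of_lt_of_le (pow_pos hp _) h2
  have h0 : 0 ≤ (24 ^ d : ℝ) ^ 2 := by positivity
  have h24 : (0:ℝ) ≤ 2 * 24 ^ d := by positivity
  have hcore := core (d := d) κ hd hκocc ((mul_le_mul_of_nonneg_left hκcl h0).trans h)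
  have hcore' := hcore.trans (mul_le_mul_of_nonneg_left hκcl h24)
  have hsub : {ω : Config d | (0 : Fin d → ℤ) ∉ finalSet d ω} ⊆
      coarse ℓ ⁻¹' {ω | ¬ ∀ A, CoreClosed ω A → (0 : Fin d → ℤ) ∈ A} := by
    intro ω hω hcon
    have h1 := hcon _ (coarse_closed hℓ ω)
    exact hω (h1 0 (by funext i; simp [box]))
  have h3 : (PP d μ).real {ω | (0 : Fin d → ℤ) ∉ finalSet d ω} ≤
      2 * 24 ^ d * (ℓ ^ d * q + ℓ ^ d * (d * (1 - p) ^ ℓ)) := by
    refine le_trans ?_ hcore'
    rw [← hmap]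
    refine ENNReal.toReal_mono (measure_ne_top _ _) ?_
    exact (measure_mono hsub).trans (Measure.le_map_apply hmeas.aemeasurable _)
  have h4 : (1 : ℝ) ≤ phi d d p q +
      (PP d μ).real {ω | (0 : Fin d → ℤ) ∉ finalSet d ω} := by
    have h5 : (Set.univ : Set (Config d)) = {ω | (0 : Fin d → ℤ) ∈ finalSet d ω} ∪
        {ω | (0 : Fin d → ℤ) ∉ finalSet d ω} := by
      ext ω
      simp only [Set.mem_univ, Set.mem_union, Set.mem_ofPred_eq, true_iff]
      exact em _
    have h6 := measureReal_union_le (μ := PP d μ) {ω | (0 : Fin d → ℤ) ∈ finalSet d ω}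
      {ω | (0 : Fin d → ℤ) ∉ finalSet d ω}
    rw [← h5, probReal_univ] at h6
    rw [phi_eq]
    exact h6
  linarith

end Pool.Agent.Polluted
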