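import Pool.Agent.Polluted.Params
import Pool.Agent.Polluted.Upper

set_option autoImplicit false

/-!
# Probability of the bad sites surviving up to level `i`
-/

namespace Pool.Agent.Polluted

open MeasureTheory ProbabilityTheory

variable {d : ℕ}

theorem norm_le_nat_iff {v : Fin d → ℤ} {R : ℕ} : ‖v‖ ≤ (R : ℝ) ↔ ∀ i, |v i| ≤ R := by
  rw [pi_norm_le_iff_of_nonneg (Nat.cast_nonneg R)]
  refine forall_congr' (fun i => ?_)
  rw [Int.norm_eq_abs]
  constructor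
  · intro h; exact_mod_cast h
  · intro h; exact_mod_cast h

/-- The sites in the coarse boxes within distance `r` of `y`. -/
noncomputable def RegL (ℓ r : ℕ) (y : Fin d → ℤ) : Finset (Fin d → ℤ) :=
  Fintype.piFinset (fun i => Finset.Ico ((ℓ : ℤ) * (y i - r)) (ℓ * (y i + r + 1)))

theorem mem_RegL {ℓ r : ℕ} (hℓ : 1 ≤ ℓ) {y x : Fin d → ℤ} :
    x ∈ RegL ℓ r y ↔ ∀ i, |box ℓ x i - y i| ≤ r := by
  simp only [RegL, Fintype.mem_piFinset, Finset.mem_Ico]
  have hpos : (0 : ℤ) < ℓ := by exact_mod_cast hℓ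
  refine forall_congr' (fun i => ?_)
  have hb : ((ℓ : ℤ) * (y i - r) ≤ x i ↔ y i - r ≤ x i / ℓ) := by
    rw [Int.le_ediv_iff_mul_le hpos, mul_comm]
  have hb2 : (x i < ℓ * (y i + r + 1) ↔ x i / ℓ < y i + r + 1) := by
    rw [Int.ediv_lt_iff_lt_mul hpos, mul_comm]
  rw [hb, hb2, abs_le]
  simp only [box]
  constructor
  · rintro ⟨h1, h2⟩; constructor <;> linarith
  · rintro ⟨h1, h2⟩; constructor <;> linarith

theorem regL_sub {ℓ r R : ℕ} (hℓ : 1 ≤ ℓ) {y y' : Fin d → ℤ} (h : ‖y - y'‖ ≤ R) :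
    RegL ℓ r y' ⊆ RegL ℓ (r + R) y := by
  intro x hx
  rw [mem_RegL hℓ] at hx ⊢
  intro i
  have h1 := hx i
  have h2 := norm_le_nat_iff.mp h i
  rw [Pi.sub_apply] at h2
  rw [abs_le] at h1 h2 ⊢
  push_cast
  constructor <;> linarith [h1.1, h1.2, h2.1, h2.2]

theorem regL_disj {ℓ r b : ℕ} (hℓ : 1 ≤ ℓ) {y y' : Fin d → ℤ} (h : (b : ℝ) < ‖y - y'‖)
    (hr : 2 * r ≤ b) : Disjoint (RegL ℓ r y) (RegL ℓ r y') := by
  rw [Finset.disjoint_left]
  intro x hx hx'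
  rw [mem_RegL hℓ] at hx hx'
  refine absurd (norm_le_nat_iff.mpr (fun i => ?_)) (not_le.mpr h)
  have h1 := hx i
  have h2 := hx' i
  rw [Pi.sub_apply]
  rw [abs_le] at h1 h2 ⊢
  have hr' : (2 * r : ℤ) ≤ b := by exact_mod_cast hr
  constructor <;> linarith [h1.1, h1.2, h2.1, h2.2]

/-- the cube of radius `R` -/
noncomputable def CubF (R : ℕ) (y : Fin d → ℤ) : Finset (Fin d → ℤ) :=
  Fintype.piFinset (fun i => Finset.Icc (y i - R) (y i + R))

theorem mem_CubF {R : ℕ} {y x : Fin d → ℤ} : x ∈ CubF R y ↔ ∀ i, |x i - y i| ≤ R := by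
  simp only [CubF, Fintype.mem_piFinset, Finset.mem_Icc]
  refine forall_congr' (fun i => ?_)
  rw [abs_le]
  constructor
  · rintro ⟨h1, h2⟩; constructor <;> linarith
  · rintro ⟨h1, h2⟩; constructor <;> linarith

theorem card_CubF (R : ℕ) (y : Fin d → ℤ) : (CubF R y).card = (2 * R + 1) ^ d := by
  rw [CubF, Fintype.card_piFinset]
  have : ∀ i : Fin d, (Finset.Icc (y i - (R : ℤ)) (y i + R)).card = 2 * R + 1 := by
    intro i
    rw [Int.card_Icc]
    omega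
  simp [this]

/-- the radii of dependence -/
def rr (d : ℕ) : ℕ → ℕ
  | 0 => 4 * d + 3
  | j + 1 => rr d j + LLa d j

theorem rr_le (d j : ℕ) : 2 * rr d j ≤ bb d j := by
  induction j with
  | zero => rw [rr, bb]; omega
  | succ j ih =>
    rw [rr, bb_succ]
    have := bb_le_LLa d j
    omega

section

variable (hd : 1 ≤ d) (ν : Measure SiteState) [IsProbabilityMeasure ν] {ℓ : ℕ}
  (Bd : Config d → Set (Fin d → ℤ))

theorem eventOn_WW (hℓ : 1 ≤ ℓ) (hB : ∀ y, EventOn {ω | y ∈ Bd ω} (RegL ℓ (4 * d + 3) y))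
    (i : ℕ) (y : Fin d → ℤ) :
    EventOn {ω | y ∈ WW (PP0 d hd) (Bd ω) i} (RegL ℓ (rr d i) y) := by
  induction i generalizing y with
  | zero => exact hB y
  | succ i ih =>
    have main : ∀ ω ω' : Config d,
        (∀ x ∈ (RegL ℓ (rr d (i + 1)) y : Set (Fin d → ℤ)), ω x = ω' x) →
        y ∈ WW (PP0 d hd) (Bd ω) (i + 1) → y ∈ WW (PP0 d hd) (Bd ω') (i + 1) := by
      rintro ω ω' h ⟨h1, y', h2, h3, h4⟩
      have e1 : ∀ x ∈ (RegL ℓ (rr d i) y : Set (Fin d → ℤ)), ω x = ω' x := by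
        intro x hx
        refine h x (regL_sub hℓ (R := LLa d i) (y := y) (y' := y) ?_ hx)
        rw [sub_self, norm_zero]
        exact Nat.cast_nonneg _
      have e2 : ∀ x ∈ (RegL ℓ (rr d i) y' : Set (Fin d → ℤ)), ω x = ω' x :=
        fun x hx => h x (regL_sub hℓ (R := LLa d i) h4 hx)
      exact ⟨(ih y ω ω' e1).mp h1, y', (ih y' ω ω' e2).mp h2, h3, h4⟩
    intro ω ω' h
    exact ⟨main ω ω' h, main ω' ω (fun x hx => (h x hx).symm)⟩

theorem prob_WW (hℓ : 1 ≤ ℓ) (hB : ∀ y, EventOn {ω | y ∈ Bd ω} (RegL ℓ (4 * d + 3) y)) {δ : ℝ}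
    (hδ : ∀ y, (PP d ν).real {ω | y ∈ Bd ω} ≤ δ) (i : ℕ) (y : Fin d → ℤ) :
    (PP d ν).real {ω | y ∈ WW (PP0 d hd) (Bd ω) i} ≤ del d δ i := by
  classical
  induction i generalizing y with
  | zero => exact hδ y
  | succ i ih =>
    have hsub : {ω : Config d | y ∈ WW (PP0 d hd) (Bd ω) (i + 1)} ⊆
        ⋃ y' ∈ (CubF (LLa d i) y).filter (fun y' => (bb d i : ℝ) < ‖y - y'‖),
          ({ω | y ∈ WW (PP0 d hd) (Bd ω) i} ∩ {ω | y' ∈ WW (PP0 d hd) (Bd ω) i}) := by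
      rintro ω ⟨h1, y', h2, h3, h4⟩
      simp only [Set.mem_iUnion]
      refine ⟨y', ?_, h1, h2⟩
      rw [Finset.mem_filter, mem_CubF]
      refine ⟨fun k => ?_, h3⟩
      have := norm_le_nat_iff.mp h4 k
      rw [Pi.sub_apply] at this
      rw [abs_sub_comm]
      exact this
    refine (measureReal_mono hsub (measure_ne_top _ _)).trans
      ((measureReal_biUnion_finset_le _ _).trans ?_)
    have hterm : ∀ y' ∈ (CubF (LLa d i) y).filter (fun y' => (bb d i : ℝ) < ‖y - y'‖),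
        (PP d ν).real ({ω | y ∈ WW (PP0 d hd) (Bd ω) i} ∩ {ω | y' ∈ WW (PP0 d hd) (Bd ω) i}) ≤
          del d δ i ^ 2 := by
      intro y' hy'
      obtain ⟨_, h3⟩ := Finset.mem_filter.mp hy'
      rw [real_inter ν (eventOn_WW hd Bd hℓ hB i y) (eventOn_WW hd Bd hℓ hB i y')
        (regL_disj hℓ h3 (rr_le d i)), sq]
      exact mul_le_mul (ih _) (ih _) measureReal_nonneg (measureReal_nonneg.trans (ih y))
    refine (Finset.sum_le_card_nsmul _ _ _ hterm).trans ?_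
    rw [nsmul_eq_mul, del]
    refine mul_le_mul_of_nonneg_right ?_ (sq_nonneg _)
    have hcard : ((CubF (LLa d i) y).filter (fun y' => (bb d i : ℝ) < ‖y - y'‖)).card ≤
        MM d i := by
      refine (Finset.card_filter_le _ _).trans ?_
      rw [card_CubF, MM]
    exact_mod_cast hcard

/-- a site survives near `a` with small probability -/
theorem prob_near (hℓ : 1 ≤ ℓ) (hB : ∀ y, EventOn {ω | y ∈ Bd ω} (RegL ℓ (4 * d + 3) y)) {δ : ℝ}
    (hδ : ∀ y, (PP d ν).real {ω | y ∈ Bd ω} ≤ δ) (i : ℕ) (a : Fin d → ℤ) :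
    (PP d ν).real {ω | ∃ y ∈ WW (PP0 d hd) (Bd ω) i, ‖y - a‖ ≤ LLa d i} ≤
      MM d i * del d δ i := by
  classical
  have hsub : {ω : Config d | ∃ y ∈ WW (PP0 d hd) (Bd ω) i, ‖y - a‖ ≤ LLa d i} ⊆
      ⋃ y ∈ CubF (LLa d i) a, {ω | y ∈ WW (PP0 d hd) (Bd ω) i} := by
    rintro ω ⟨y, hy, hya⟩
    simp only [Set.mem_iUnion]
    exact ⟨y, mem_CubF.mpr (fun k => norm_le_nat_iff.mp hya k), hy⟩
  refine (measureReal_mono hsub (measure_ne_top _ _)).trans
    ((measureReal_biUnion_finset_le _ _).trans ?_)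
  refine (Finset.sum_le_card_nsmul _ _ _
    (fun y _ => prob_WW hd ν Bd hℓ hB hδ i y)).trans ?_
  rw [card_CubF, nsmul_eq_mul, MM]

end

end Pool.Agent.Polluted
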