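import Pool.Agent.Polluted.LBound

set_option autoImplicit false

/-!
# The lower half: the final density vanishes when `q` is much larger than `p ^ d`
-/

namespace Pool.Agent.Polluted

open MeasureTheory ProbabilityTheory Filter

/-- **Lower half for `d = r`.** -/
theorem lower_half {d : ℕ} (hd : 2 ≤ d) {η : ℝ} (hη : 0 < η) :
    ∃ ν : ℝ, 0 < ν ∧ ∀ p q : ℝ, 0 ≤ p → 0 < q → p + q ≤ 1 → p ≤ ν → p ^ d ≤ ν * q →
      phi d d p q ≤ η := by
  set K : ℝ := ((KK d : ℝ) ^ d) ^ 25 with hK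
  have hK0 : 0 < K := by
    have : 0 < KK d := by unfold KK; omega
    have : (0:ℝ) < KK d := by exact_mod_cast this
    positivity
  have hdR : (2 : ℝ) ≤ d := by exact_mod_cast hd
  -- the target for the density of bad boxes
  set δ : ℝ := min (1 / (2 * K)) (η / (4 * K)) with hδ
  have hδ0 : 0 < δ := lt_min (by positivity) (by positivity)
  have hδ1 : K * δ ≤ 1 / 2 := by
    have : δ ≤ 1 / (2 * K) := min_le_left _ _
    calc K * δ ≤ K * (1 / (2 * K)) := mul_le_mul_of_nonneg_left this hK0.le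
      _ = 1 / 2 := by field_simp
  have hδ2 : 2 * (K * δ) ≤ η / 2 := by
    have : δ ≤ η / (4 * K) := min_le_right _ _
    calc 2 * (K * δ) ≤ 2 * (K * (η / (4 * K))) := by
          have := mul_le_mul_of_nonneg_left this hK0.le
          linarith
      _ = η / 2 := by field_simp; norm_num
  set M : ℝ := max 2 (3 / δ) with hM
  have hM2 : 2 ≤ M := le_max_left _ _
  have hMexp : Real.exp (-M) ≤ δ / 3 := by
    rw [Real.exp_neg]
    have h1 : M + 1 ≤ Real.exp M := Real.add_one_le_exp M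
    have h2 : 3 / δ ≤ Real.exp M := by
      have : 3 / δ ≤ M := le_max_right _ _
      linarith
    have h3 : 0 < 3 / δ := by positivity
    calc (Real.exp M)⁻¹ ≤ (3 / δ)⁻¹ := inv_anti₀ h3 h2
      _ = δ / 3 := by rw [inv_div]
  -- constants
  set A : ℝ := ((((4 * d + 3) ^ d).choose (d + 1) : ℕ) : ℝ) with hA
  have hA0 : 0 ≤ A := Nat.cast_nonneg _
  set a1 : ℝ := (4 * d + 3) ^ d * (A + 1) with ha1
  have ha1p : 0 < a1 := by positivity
  set a3 : ℝ := 2 ^ d * M * (d * ((6 * d + 7) * (4 * d + 3) ^ d)) with ha3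
  have ha3p : 0 < a3 := by positivity
  set θ : ℝ := δ / (3 * a3) with hθ
  have hθp : 0 < θ := by positivity
  set ν : ℝ := min (min (θ ^ d / (2 ^ d * M)) (δ / (3 * a1 * (2 ^ d * M))))
    (min 1 (η / (2 * (4 * d + 1) ^ d))) with hν
  have hν1 : ν ≤ θ ^ d / (2 ^ d * M) := (min_le_left _ _).trans (min_le_left _ _)
  have hν2 : ν ≤ δ / (3 * a1 * (2 ^ d * M)) := (min_le_left _ _).trans (min_le_right _ _)
  have hν3 : ν ≤ 1 := (min_le_right _ _).trans (min_le_left _ _)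
  have hν4 : ν ≤ η / (2 * (4 * d + 1) ^ d) := (min_le_right _ _).trans (min_le_right _ _)
  refine ⟨ν, lt_min (lt_min (by positivity) (by positivity)) (lt_min one_pos (by positivity)),
    fun p q hp hq hpq hpν hpd => ?_⟩
  have hq1 : q ≤ 1 := by linarith
  have hp1 : p ≤ 1 := hpν.trans hν3
  -- the side length
  have hex : ∃ n : ℕ, M ≤ (n : ℝ) ^ d * q := by
    obtain ⟨n, hn⟩ := exists_nat_gt (M / q)
    refine ⟨n + 1, ?_⟩
    have h1 : M / q ≤ ((n + 1 : ℕ) : ℝ) := by push_cast; linarith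
    have h2 : ((n + 1 : ℕ) : ℝ) ≤ ((n + 1 : ℕ) : ℝ) ^ d := by
      refine le_self_pow₀ ?_ (by omega)
      push_cast
      have : (0 : ℝ) ≤ n := Nat.cast_nonneg n
      linarith
    have h3 := h1.trans h2
    rwa [div_le_iff₀ hq] at h3
  classical
  set ℓ := Nat.find hex with hℓ
  have hℓM : M ≤ (ℓ : ℝ) ^ d * q := Nat.find_spec hex
  have hℓ2 : 2 ≤ ℓ := by
    by_contra hcon
    have h1 : (ℓ : ℝ) ≤ 1 := by
      have : ℓ ≤ 1 := by omega
      exact_mod_cast this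
    have h2 : (ℓ : ℝ) ^ d ≤ 1 := pow_le_one₀ (Nat.cast_nonneg _) h1
    have h3 : (ℓ : ℝ) ^ d * q ≤ 1 * 1 := mul_le_mul h2 hq1 hq.le zero_le_one
    linarith
  have hℓprev : ((ℓ - 1 : ℕ) : ℝ) ^ d * q < M := by
    have := Nat.find_min hex (show ℓ - 1 < Nat.find hex by omega)
    exact not_le.mp this
  have hℓup : (ℓ : ℝ) ^ d * q ≤ 2 ^ d * M := by
    have h1 : (ℓ : ℝ) ≤ 2 * ((ℓ - 1 : ℕ) : ℝ) := by
      have : ℓ ≤ 2 * (ℓ - 1) := by omega
      exact_mod_cast this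
    have h2 : (ℓ : ℝ) ^ d ≤ (2 * ((ℓ - 1 : ℕ) : ℝ)) ^ d :=
      pow_le_pow_left₀ (Nat.cast_nonneg _) h1 d
    rw [mul_pow] at h2
    calc (ℓ : ℝ) ^ d * q ≤ (2 ^ d * ((ℓ - 1 : ℕ) : ℝ) ^ d) * q :=
          mul_le_mul_of_nonneg_right h2 hq.le
      _ = 2 ^ d * (((ℓ - 1 : ℕ) : ℝ) ^ d * q) := by ring
      _ ≤ 2 ^ d * M := mul_le_mul_of_nonneg_left hℓprev.le (by positivity)
  have hℓ1 : 1 ≤ ℓ := by omega
  have hℓR : (1 : ℝ) ≤ ℓ := by exact_mod_cast hℓ1
  -- `ℓ p` is small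
  have hlp : ((ℓ : ℝ) * p) ^ d ≤ ν * (2 ^ d * M) := by
    rw [mul_pow]
    calc (ℓ : ℝ) ^ d * p ^ d ≤ (ℓ : ℝ) ^ d * (ν * q) :=
          mul_le_mul_of_nonneg_left hpd (by positivity)
      _ = ν * ((ℓ : ℝ) ^ d * q) := by ring
      _ ≤ ν * (2 ^ d * M) := by
          refine mul_le_mul_of_nonneg_left hℓup ?_
          by_contra hcon
          push Not at hcon
          linarith
  have hlpθ : (ℓ : ℝ) * p ≤ θ := by
    have h1 : ((ℓ : ℝ) * p) ^ d ≤ θ ^ d := by
      refine hlp.trans ?_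
      calc ν * (2 ^ d * M) ≤ θ ^ d / (2 ^ d * M) * (2 ^ d * M) :=
            mul_le_mul_of_nonneg_right hν1 (by positivity)
        _ = θ ^ d := by field_simp
    exact le_of_pow_le_pow_left₀ (by omega) hθp.le h1
  -- the three terms
  have hT1 : ((ℓ : ℝ) + 4 * d + 2) ^ d * (A * p ^ (d + 1)) ≤ δ / 3 := by
    have h1 : (ℓ : ℝ) + 4 * d + 2 ≤ (4 * d + 3) * ℓ := by nlinarith
    have h2 : ((ℓ : ℝ) + 4 * d + 2) ^ d ≤ ((4 * d + 3) * ℓ) ^ d :=
      pow_le_pow_left₀ (by positivity) h1 d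
    calc ((ℓ : ℝ) + 4 * d + 2) ^ d * (A * p ^ (d + 1))
        ≤ ((4 * d + 3) * ℓ) ^ d * ((A + 1) * p ^ (d + 1)) := by
          refine mul_le_mul h2 ?_ (by positivity) (by positivity)
          exact mul_le_mul_of_nonneg_right (by linarith) (by positivity)
      _ = a1 * ((ℓ : ℝ) * p) ^ d * p := by
          rw [ha1, mul_pow, mul_pow, pow_succ]
          ring
      _ ≤ a1 * (ν * (2 ^ d * M)) * 1 := by
          refine mul_le_mul ?_ hp1 hp ?_
          · exact mul_le_mul_of_nonneg_left hlp ha1p.le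
          · refine mul_nonneg ha1p.le ?_
            exact le_trans (by positivity) hlp
      _ ≤ a1 * (δ / (3 * a1 * (2 ^ d * M)) * (2 ^ d * M)) * 1 := by
          refine mul_le_mul_of_nonneg_right ?_ zero_le_one
          refine mul_le_mul_of_nonneg_left ?_ ha1p.le
          exact mul_le_mul_of_nonneg_right hν2 (by positivity)
      _ = δ / 3 := by
          have : (2:ℝ) ^ d * M ≠ 0 := by positivity
          field_simp
  have hT2 : (1 - q) ^ ℓ ^ d ≤ δ / 3 := by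
    have h1 : 1 - q ≤ Real.exp (-q) := by
      have := Real.add_one_le_exp (-q)
      linarith
    calc (1 - q) ^ ℓ ^ d ≤ Real.exp (-q) ^ ℓ ^ d := pow_le_pow_left₀ (by linarith) h1 _
      _ = Real.exp (-((ℓ : ℝ) ^ d * q)) := by
          rw [← Real.exp_nat_mul]
          push_cast
          congr 1
          ring
      _ ≤ Real.exp (-M) := Real.exp_le_exp.mpr (by linarith)
      _ ≤ δ / 3 := hMexp
  have hT3 : (ℓ : ℝ) ^ d * ((d * ((2 * ((d + 2) * ℓ + (2 * d + 1)) + 1) * (4 * d + 3) ^ d)) *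
      (q * p)) ≤ δ / 3 := by
    have h1 : (2 * (((d : ℝ) + 2) * ℓ + (2 * d + 1)) + 1) ≤ (6 * d + 7) * ℓ := by nlinarith
    calc (ℓ : ℝ) ^ d * ((d * ((2 * ((d + 2) * ℓ + (2 * d + 1)) + 1) * (4 * d + 3) ^ d)) *
        (q * p)) ≤ (ℓ : ℝ) ^ d * ((d * (((6 * d + 7) * ℓ) * (4 * d + 3) ^ d)) * (q * p)) := by
          refine mul_le_mul_of_nonneg_left ?_ (by positivity)
          refine mul_le_mul_of_nonneg_right ?_ (by positivity)
          refine mul_le_mul_of_nonneg_left ?_ (by positivity)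
          exact mul_le_mul_of_nonneg_right h1 (by positivity)
      _ = ((ℓ : ℝ) ^ d * q) * ((d * ((6 * d + 7) * (4 * d + 3) ^ d)) * (ℓ * p)) := by ring
      _ ≤ (2 ^ d * M) * ((d * ((6 * d + 7) * (4 * d + 3) ^ d)) * θ) := by
          refine mul_le_mul hℓup ?_ (by positivity) (by positivity)
          exact mul_le_mul_of_nonneg_left hlpθ (by positivity)
      _ = a3 * θ := by rw [ha3]; ring
      _ = δ / 3 := by rw [hθ]; field_simp
  have hbad : ∀ y : Fin d → ℤ, (configLaw d p q).real {ω | y ∈ BadL ℓ ω} ≤ δ := by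
    intro y
    refine (prob_BadL hp hq.le hpq hℓ1 y).trans ?_
    linarith
  have hphi := phi_le_of_bad hd hp hq.le hpq hℓ1 hδ0.le hbad hδ1
  have hpη : (4 * (d : ℝ) + 1) ^ d * p ≤ η / 2 := by
    calc (4 * (d : ℝ) + 1) ^ d * p ≤ (4 * (d : ℝ) + 1) ^ d * (η / (2 * (4 * d + 1) ^ d)) :=
          mul_le_mul_of_nonneg_left (hpν.trans hν4) (by positivity)
      _ = η / 2 := by field_simp
  linarith

end Pool.Agent.Polluted
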