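import Pool.Agent.Polluted.Clusters

set_option autoImplicit false

/-!
# Explicit parameters for the lower half
-/

namespace Pool.Agent.Polluted

/-- a constant -/
def C0 (d : ℕ) : ℕ := 1 + (d + 1) * (2 * d + 4)

/-- a constant -/
def C1 (d : ℕ) : ℕ := 4 * d * C0 d + (2 * d + 4)

/-- the lengths `b` -/
def bb (d : ℕ) : ℕ → ℕ
  | 0 => 8 * d + 6
  | j + 1 => 3 * (C1 d * 2 ^ j * bb d j)

/-- the lengths `La` -/
def LLa (d : ℕ) (j : ℕ) : ℕ := C1 d * 2 ^ j * bb d j

/-- the constants `c` -/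
noncomputable def cc (d : ℕ) : ℕ → ℝ
  | 0 => 0
  | j + 1 => 2 * cc d j + (d + 1) * (2 * (cc d j + d * bb d j + d + (2 * d + 5)))

/-- the constants `κ` -/
noncomputable def kap (d : ℕ) (j : ℕ) : ℝ := 1 / d * (1 / 2 + 1 / 2 ^ (j + 1))

theorem C1_ge (d : ℕ) : 4 ≤ C1 d := by unfold C1; omega

theorem bb_le_LLa (d j : ℕ) : 2 * bb d j ≤ LLa d j := by
  have h1 := C1_ge d
  have h2 : 1 ≤ 2 ^ j := Nat.one_le_two_pow
  unfold LLa
  calc 2 * bb d j ≤ (C1 d * 2 ^ j) * bb d j := by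
        refine Nat.mul_le_mul_right _ ?_
        nlinarith
    _ = _ := rfl

theorem bb_succ (d j : ℕ) : bb d (j + 1) = 3 * LLa d j := rfl

theorem bb_mono_step (d j : ℕ) : bb d j ≤ bb d (j + 1) := by
  rw [bb_succ]
  have := bb_le_LLa d j
  omega

theorem bb_ge (d j : ℕ) : 8 * d + 6 ≤ bb d j := by
  induction j with
  | zero => exact le_rfl
  | succ j ih => exact ih.trans (bb_mono_step d j)

theorem cc_nonneg (d j : ℕ) : 0 ≤ cc d j := by
  induction j with
  | zero => exact le_rfl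
  | succ j ih =>
    rw [cc]
    positivity

/-- the bound on `w` in terms of `b` -/
theorem w_bound {d j : ℕ} (h : cc d j ≤ bb d j) :
    2 * (cc d j + d * bb d j + d + (2 * d + 5)) ≤ (2 * d + 4) * bb d j := by
  have h1 : ((8 * d + 6 : ℕ) : ℝ) ≤ bb d j := by exact_mod_cast bb_ge d j
  push_cast at h1
  nlinarith [Nat.cast_nonneg (α := ℝ) d]

theorem cc_le (d j : ℕ) : cc d j ≤ bb d j := by
  induction j with
  | zero =>
    rw [cc]
    positivity
  | succ j ih =>
    have h1 := w_bound ih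
    have h2 : (0 : ℝ) ≤ bb d j := Nat.cast_nonneg _
    have hd : (0 : ℝ) ≤ d := Nat.cast_nonneg _
    have h3 : cc d (j + 1) ≤ (2 + (d + 1) * (2 * d + 4)) * bb d j := by
      rw [cc]
      have : (d + 1 : ℝ) * (2 * (cc d j + d * bb d j + d + (2 * d + 5))) ≤
          (d + 1) * ((2 * d + 4) * bb d j) := mul_le_mul_of_nonneg_left h1 (by positivity)
      nlinarith
    refine h3.trans ?_
    have h4 : 2 + (d + 1) * (2 * d + 4) ≤ 3 * (C1 d * 2 ^ j) := by
      have h5 : 1 ≤ 2 ^ j := Nat.one_le_two_pow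
      have h6 : C1 d ≤ C1 d * 2 ^ j := Nat.le_mul_of_pos_right _ (by omega)
      have h7 : 2 + (d + 1) * (2 * d + 4) ≤ 3 * C1 d := by
        unfold C1 C0
        rcases Nat.eq_zero_or_pos d with rfl | hd
        · norm_num
        · have : 1 * (1 + (d + 1) * (2 * d + 4)) ≤ 4 * d * (1 + (d + 1) * (2 * d + 4)) :=
            Nat.mul_le_mul_right _ (by omega)
          omega
      omega
    have h8 : bb d (j + 1) = (3 * (C1 d * 2 ^ j)) * bb d j := by
      rw [bb]; ring
    rw [h8]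
    push_cast
    refine mul_le_mul_of_nonneg_right ?_ h2
    have := (Nat.cast_le (α := ℝ)).mpr h4
    push_cast at this
    exact this

/-- The explicit parameters. -/
noncomputable def PP0 (d : ℕ) (hd : 1 ≤ d) : Par d where
  b := bb d
  La := LLa d
  κ := kap d
  c := cc d
  u := fun j => cc d j + d * bb d j + d
  w := fun j => 2 * (cc d j + d * bb d j + d + (2 * d + 5))
  ρ1 := d + 2
  ρ2 := 2 * d + 5
  κ_zero := by
    unfold kap
    norm_num
  c_zero := rfl
  κ_nonneg := fun j => by unfold kap; positivity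
  κ_le_one := fun j => by
    unfold kap
    have hd' : (1 : ℝ) ≤ d := by exact_mod_cast hd
    have h1 : 1 / (d : ℝ) ≤ 1 := by rw [div_le_one (by linarith)]; exact hd'
    have h2 : 1 / (2 : ℝ) ^ (j + 1) ≤ 1 / 2 := by
      rw [pow_succ]
      have : (1 : ℝ) ≤ 2 ^ j := one_le_pow₀ (by norm_num)
      rw [div_le_div_iff₀ (by positivity) (by norm_num)]
      linarith
    have h3 : (0 : ℝ) < 1 / 2 ^ (j + 1) := by positivity
    calc 1 / (d : ℝ) * (1 / 2 + 1 / 2 ^ (j + 1)) ≤ 1 * (1 / 2 + 1 / 2 ^ (j + 1)) :=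
          mul_le_mul_of_nonneg_right h1 (by positivity)
      _ ≤ 1 := by linarith
  κ_anti := fun j => by
    unfold kap
    refine mul_le_mul_of_nonneg_left ?_ (by positivity)
    have : 1 / (2 : ℝ) ^ (j + 1 + 1) ≤ 1 / 2 ^ (j + 1) := by
      refine one_div_le_one_div_of_le (by positivity) ?_
      exact pow_le_pow_right₀ (by norm_num) (by omega)
    linarith
  c_nonneg := cc_nonneg d
  u_eq := fun j => rfl
  w_eq := fun j => by ring
  c_succ := fun j => rfl
  gap := fun j => by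
    have hd' : (1 : ℝ) ≤ d := by exact_mod_cast hd
    have h1 := w_bound (cc_le d j)
    have h2 := cc_le d j
    have hb : (0 : ℝ) ≤ bb d j := Nat.cast_nonneg _
    have hk : kap d j - kap d (j + 1) = 1 / (d * 2 ^ (j + 2)) := by
      unfold kap
      have : (2 : ℝ) ^ (j + 1) ≠ 0 := by positivity
      rw [show j + 1 + 1 = (j + 1) + 1 from rfl, show j + 2 = (j + 1) + 1 from rfl,
        pow_succ (2 : ℝ) (j + 1)]
      field_simp
      ring
    set W : ℝ := 2 * (cc d j + d * bb d j + d + (2 * d + 5)) with hW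
    have h3 : cc d j + (d + 1) * W ≤ (C0 d : ℝ) * bb d j := by
      unfold C0
      push_cast
      have : (d + 1 : ℝ) * W ≤ (d + 1) * ((2 * d + 4) * bb d j) :=
        mul_le_mul_of_nonneg_left h1 (by positivity)
      nlinarith
    have h4 : (d * 2 ^ (j + 2) : ℝ) * (C0 d * bb d j) ≤ LLa d j - W := by
      have e1 : (LLa d j : ℝ) = (4 * d * C0 d + (2 * d + 4)) * 2 ^ j * bb d j := by
        unfold LLa C1
        push_cast
        ring
      rw [e1]
      have e2 : (1 : ℝ) ≤ 2 ^ j := one_le_pow₀ (by norm_num)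
      have e3 : (2 * d + 4 : ℝ) * bb d j ≤ (2 * d + 4) * 2 ^ j * bb d j := by
        have : (2 * d + 4 : ℝ) * bb d j * 1 ≤ (2 * d + 4) * bb d j * 2 ^ j :=
          mul_le_mul_of_nonneg_left e2 (by positivity)
        linarith
      have e4 : (d * 2 ^ (j + 2) : ℝ) * (C0 d * bb d j) = 4 * d * C0 d * 2 ^ j * bb d j := by
        rw [pow_add]; ring
      rw [e4]
      nlinarith
    rw [hk]
    have h5 : (0 : ℝ) < d * 2 ^ (j + 2) := by positivity
    calc cc d j + (d + 1) * W ≤ (C0 d : ℝ) * bb d j := h3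
      _ = 1 / (d * 2 ^ (j + 2)) * ((d * 2 ^ (j + 2)) * (C0 d * bb d j)) := by
          field_simp
      _ ≤ 1 / (d * 2 ^ (j + 2)) * (LLa d j - W) :=
          mul_le_mul_of_nonneg_left h4 (by positivity)
  b_La := bb_le_LLa d
  w_lt := fun j => by
    have h1 := w_bound (cc_le d j)
    refine lt_of_le_of_lt h1 ?_
    have e1 : (LLa d j : ℝ) = (4 * d * C0 d + (2 * d + 4)) * 2 ^ j * bb d j := by
      unfold LLa C1
      push_cast
      ring
    rw [e1]
    have hd' : (1 : ℝ) ≤ d := by exact_mod_cast hd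
    have hb : (0 : ℝ) < bb d j := by
      have := bb_ge d j
      have h : 0 < bb d j := by omega
      exact_mod_cast h
    have e2 : (1 : ℝ) ≤ 2 ^ j := one_le_pow₀ (by norm_num)
    have hC : (1 : ℝ) ≤ C0 d := by
      have : 1 ≤ C0 d := by unfold C0; omega
      exact_mod_cast this
    have e3 : (2 * d + 4 : ℝ) < (4 * d * C0 d + (2 * d + 4)) * 2 ^ j := by
      have e5 : (1 : ℝ) ≤ 4 * d * C0 d := by nlinarith
      have e6 : (4 * d * C0 d + (2 * d + 4) : ℝ) * 1 ≤ (4 * d * C0 d + (2 * d + 4)) * 2 ^ j :=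
        mul_le_mul_of_nonneg_left e2 (by positivity)
      linarith
    exact mul_lt_mul_of_pos_right e3 hb
  ρ1_nonneg := by positivity
  ρ2_nonneg := by positivity

theorem PP0_w_le (d : ℕ) (hd : 1 ≤ d) (j : ℕ) : (PP0 d hd).w j ≤ LLa d j := ((PP0 d hd).w_lt j).le

/-! ### Growth of the number of sites in a neighbourhood -/

/-- number of sites within distance `La j` -/
def MM (d j : ℕ) : ℕ := (2 * LLa d j + 1) ^ d

/-- basis of the growth bound -/
def KK (d : ℕ) : ℕ := 3 * C1 d + 8 * d + 6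

theorem bb_growth (d j : ℕ) : bb d j ≤ KK d ^ (j + 1) ^ 2 := by
  induction j with
  | zero =>
    rw [bb]
    simp only [zero_add, one_pow, pow_one]
    unfold KK
    omega
  | succ j ih =>
    have hK : 2 ≤ KK d := by unfold KK; omega
    have h1 : 3 * C1 d ≤ KK d := by unfold KK; omega
    have h2 : 2 ^ j ≤ KK d ^ j := Nat.pow_le_pow_left hK j
    calc bb d (j + 1) = (3 * C1 d) * 2 ^ j * bb d j := by rw [bb]; ring
      _ ≤ KK d * KK d ^ j * KK d ^ (j + 1) ^ 2 :=
          Nat.mul_le_mul (Nat.mul_le_mul h1 h2) ih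
      _ = KK d ^ (1 + j + (j + 1) ^ 2) := by rw [pow_add, pow_add, pow_one]
      _ ≤ KK d ^ (j + 1 + 1) ^ 2 := Nat.pow_le_pow_right (by omega) (by nlinarith)

theorem MM_growth (d j : ℕ) : MM d j ≤ (KK d ^ d) ^ (j + 2) ^ 2 := by
  have h1 : 2 * LLa d j + 1 ≤ bb d (j + 1) := by
    rw [bb_succ]
    have h2 := bb_le_LLa d j
    have h3 := bb_ge d j
    omega
  calc MM d j ≤ (bb d (j + 1)) ^ d := Nat.pow_le_pow_left h1 d
    _ ≤ (KK d ^ (j + 1 + 1) ^ 2) ^ d := Nat.pow_le_pow_left (bb_growth d (j + 1)) d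
    _ = (KK d ^ d) ^ (j + 2) ^ 2 := by rw [← pow_mul, ← pow_mul]; ring_nf

/-- the bounds for the probabilities -/
noncomputable def del (d : ℕ) (δ : ℝ) : ℕ → ℝ
  | 0 => δ
  | j + 1 => MM d j * del d δ j ^ 2

theorem del_nonneg {d : ℕ} {δ : ℝ} (h : 0 ≤ δ) (j : ℕ) : 0 ≤ del d δ j := by
  induction j with
  | zero => exact h
  | succ j ih => rw [del]; positivity

theorem MM_del_le {d : ℕ} {δ : ℝ} (hδ : 0 ≤ δ) (hδ2 : ((KK d : ℝ) ^ d) ^ 25 * δ ≤ 1 / 2) (j : ℕ) :
    MM d j * del d δ j ≤ (((KK d : ℝ) ^ d) ^ 25 * δ) * (1 / 2) ^ j := by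
  set K : ℝ := (KK d : ℝ) ^ d with hK
  have hK1 : 1 ≤ K := by
    rw [hK]
    refine one_le_pow₀ ?_
    have : 1 ≤ KK d := by unfold KK; omega
    exact_mod_cast this
  have hM : ∀ j, (MM d j : ℝ) ≤ K ^ (j + 2) ^ 2 := by
    intro j
    have := MM_growth d j
    rw [hK]
    exact_mod_cast this
  have hd0 := del_nonneg (d := d) hδ
  -- the scaled sequence
  have key : ∀ j, K ^ (j + 5) ^ 2 * del d δ j ≤ (K ^ 25 * δ) * (1 / 2) ^ j := by
    intro j
    induction j with
    | zero => simp [del]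
    | succ j ih =>
      have hx0 : 0 ≤ K ^ (j + 5) ^ 2 * del d δ j := mul_nonneg (by positivity) (hd0 j)
      have hle1 : K ^ (j + 5) ^ 2 * del d δ j ≤ 1 / 2 := by
        refine ih.trans ?_
        have : ((1 : ℝ) / 2) ^ j ≤ 1 := pow_le_one₀ (by norm_num) (by norm_num)
        have h3 : 0 ≤ K ^ 25 * δ := by positivity
        nlinarith
      have hexp : (j + 1 + 5) ^ 2 + (j + 2) ^ 2 ≤ 2 * (j + 5) ^ 2 := by
        have e1 : (j + 1 + 5) ^ 2 + (j + 2) ^ 2 = 2 * j ^ 2 + 16 * j + 40 := by ring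
        have e2 : 2 * (j + 5) ^ 2 = 2 * j ^ 2 + 20 * j + 50 := by ring
        omega
      have h1 : K ^ (j + 1 + 5) ^ 2 * del d δ (j + 1) ≤ (K ^ (j + 5) ^ 2 * del d δ j) ^ 2 := by
        rw [del]
        calc K ^ (j + 1 + 5) ^ 2 * (MM d j * del d δ j ^ 2)
            ≤ K ^ (j + 1 + 5) ^ 2 * (K ^ (j + 2) ^ 2 * del d δ j ^ 2) := by
              refine mul_le_mul_of_nonneg_left ?_ (by positivity)
              exact mul_le_mul_of_nonneg_right (hM j) (sq_nonneg _)
          _ = K ^ ((j + 1 + 5) ^ 2 + (j + 2) ^ 2) * del d δ j ^ 2 := by rw [pow_add]; ring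
          _ ≤ K ^ (2 * (j + 5) ^ 2) * del d δ j ^ 2 := by
              refine mul_le_mul_of_nonneg_right ?_ (sq_nonneg _)
              exact pow_le_pow_right₀ hK1 hexp
          _ = (K ^ (j + 5) ^ 2 * del d δ j) ^ 2 := by
              rw [mul_pow, ← pow_mul K, mul_comm ((j + 5) ^ 2) 2]
      refine h1.trans ?_
      rw [sq, pow_succ]
      calc (K ^ (j + 5) ^ 2 * del d δ j) * (K ^ (j + 5) ^ 2 * del d δ j)
          ≤ (K ^ (j + 5) ^ 2 * del d δ j) * (1 / 2) := mul_le_mul_of_nonneg_left hle1 hx0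
        _ ≤ (K ^ 25 * δ * (1 / 2) ^ j) * (1 / 2) := by linarith
        _ = K ^ 25 * δ * ((1 / 2) ^ j * (1 / 2)) := by ring
  refine le_trans ?_ (key j)
  refine mul_le_mul_of_nonneg_right ((hM j).trans ?_) (hd0 j)
  exact pow_le_pow_right₀ hK1 (Nat.pow_le_pow_left (by omega) 2)

end Pool.Agent.Polluted
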