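import Pool.Agent.Polluted.Fill
import Pool.Agent.Polluted.Fast
import Pool.Agent.Polluted.Indep

set_option autoImplicit false

/-!
# Probability estimates for the hierarchy
-/

namespace Pool.Agent.Polluted

open MeasureTheory ProbabilityTheory

variable {d : ℕ}

/-- The set of closed sites. -/
def Wc (ω : Config d) : Set (Fin d → ℤ) := {x | ω x = SiteState.closed}

/-- The product law on configurations. -/
noncomputable abbrev PP (d : ℕ) (ν : Measure SiteState) : Measure (Config d) :=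
  Measure.infinitePi (fun _ : Fin d → ℤ => ν)

/-- The region on which the events attached to the box `c` of level `n` depend. -/
noncomputable def Reg (n : ℕ) (c : Fin d → ℤ) : Finset (Fin d → ℤ) :=
  Fintype.piFinset (fun i => Finset.Ico (8 ^ n * (c i - 2)) (8 ^ n * (c i + 3)))

theorem mem_Reg {n : ℕ} {c x : Fin d → ℤ} :
    x ∈ Reg n c ↔ ∀ i, 8 ^ n * (c i - 2) ≤ x i ∧ x i < 8 ^ n * (c i + 3) := by
  simp [Reg, Fintype.mem_piFinset]

theorem reg_sub {n : ℕ} {y u : Fin d → ℤ} (h : Nb y u) : Reg n u ⊆ Reg (n + 1) y := by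
  intro x hx
  rw [mem_Reg] at hx ⊢
  intro i
  have h1 := hx i
  have h2 := h i
  have hpos : (0 : ℤ) < 8 ^ n := by positivity
  rw [pow_succ]
  constructor
  · refine le_trans ?_ h1.1
    nlinarith
  · refine lt_of_lt_of_le h1.2 ?_
    nlinarith

theorem reg_disj {n : ℕ} {u v : Fin d → ℤ} {i : Fin d} (h : u i + 5 ≤ v i) :
    Disjoint (Reg n u) (Reg n v) := by
  rw [Finset.disjoint_left]
  intro x hx hx'
  rw [mem_Reg] at hx hx'
  have h1 := (hx i).2
  have h2 := (hx' i).1
  have hpos : (0 : ℤ) < 8 ^ n := by positivity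
  nlinarith

theorem eventOn_bad (n : ℕ) (y : Fin d → ℤ) :
    EventOn {ω : Config d | y ∈ bad (Wc ω) n} (Reg n y) := by
  induction n generalizing y with
  | zero =>
    intro ω ω' h
    have := h y (by rw [Finset.mem_coe, mem_Reg]; intro i; constructor <;> simp)
    simp only [bad, Wc, Set.mem_ofPred_eq, this]
  | succ n ih =>
    intro ω ω' h
    have key : ∀ u, Nb y u → (u ∈ bad (Wc ω) n ↔ u ∈ bad (Wc ω') n) := fun u hu =>
      ih u ω ω' (fun x hx => h x (reg_sub hu hx))
    show (∃ u ∈ bad (Wc ω) n, ∃ v ∈ bad (Wc ω) n, Nb y u ∧ Nb y v ∧ ∃ i, u i + 5 ≤ v i) ↔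
      (∃ u ∈ bad (Wc ω') n, ∃ v ∈ bad (Wc ω') n, Nb y u ∧ Nb y v ∧ ∃ i, u i + 5 ≤ v i)
    constructor
    · rintro ⟨u, hu, v, hv, hyu, hyv, hi⟩
      exact ⟨u, (key u hyu).mp hu, v, (key v hyv).mp hv, hyu, hyv, hi⟩
    · rintro ⟨u, hu, v, hv, hyu, hyv, hi⟩
      exact ⟨u, (key u hyu).mpr hu, v, (key v hyv).mpr hv, hyu, hyv, hi⟩

theorem bad_mono {W W' : Set (Fin d → ℤ)} (h : W ⊆ W') (n : ℕ) : bad W n ⊆ bad W' n := by
  induction n with
  | zero => exact h
  | succ n ih =>
    rintro y ⟨u, hu, v, hv, hyu, hyv, hi⟩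
    exact ⟨u, ih hu, v, ih hv, hyu, hyv, hi⟩

/-- The sub-boxes in the neighbourhood, as a finite set. -/
noncomputable def NbF (y : Fin d → ℤ) : Finset (Fin d → ℤ) :=
  Fintype.piFinset (fun i => Finset.Ico (8 * y i - 8) (8 * y i + 16))

theorem mem_NbF {y u : Fin d → ℤ} : u ∈ NbF y ↔ Nb y u := by
  simp [NbF, Fintype.mem_piFinset, Nb]

theorem card_NbF (y : Fin d → ℤ) : (NbF y).card = 24 ^ d := by
  rw [NbF, Fintype.card_piFinset]
  have : ∀ i : Fin d, (Finset.Ico (8 * y i - 8) (8 * y i + 16)).card = 24 := by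
    intro i
    rw [Int.card_Ico]
    omega
  simp [this]

/-- The children of a box. -/
noncomputable def ChF (y : Fin d → ℤ) : Finset (Fin d → ℤ) :=
  Fintype.piFinset (fun i => Finset.Ico (8 * y i) (8 * y i + 8))

theorem mem_ChF {y u : Fin d → ℤ} : u ∈ ChF y ↔ par u = y := by
  simp only [ChF, Fintype.mem_piFinset, Finset.mem_Ico]
  constructor
  · intro h
    funext i
    have := h i
    simp only [par]
    omega
  · intro h i
    have := par_bounds h i
    omega

theorem card_ChF (y : Fin d → ℤ) : (ChF y).card = 8 ^ d := by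
  rw [ChF, Fintype.card_piFinset]
  have : ∀ i : Fin d, (Finset.Ico (8 * y i) (8 * y i + 8)).card = 8 := by
    intro i
    rw [Int.card_Ico]
    omega
  simp [this]

section Prob

variable (ν : Measure SiteState) [IsProbabilityMeasure ν]

theorem real_inter {E F : Set (Config d)} {S T : Finset (Fin d → ℤ)} (hE : EventOn E S)
    (hF : EventOn F T) (hST : Disjoint S T) :
    (PP d ν).real (E ∩ F) = (PP d ν).real E * (PP d ν).real F := by
  simp only [measureReal_def]
  rw [measure_inter_of_eventOn hE hF hST, ENNReal.toReal_mul]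

theorem real_compl {E : Set (Config d)} {S : Finset (Fin d → ℤ)} (hE : EventOn E S) :
    (PP d ν).real Eᶜ = 1 - (PP d ν).real E := by
  rw [measureReal_compl hE.measurableSet]
  simp

/-- The constant of the recursion. -/
noncomputable def CC (d : ℕ) : ℝ := (24 ^ d) ^ 2

theorem prob_bad (n : ℕ) (y : Fin d → ℤ) :
    (PP d ν).real {ω | y ∈ bad (Wc ω) n} ≤ eps (CC d) (ν.real {SiteState.closed}) n := by
  classical
  induction n generalizing y with
  | zero =>
    have h1 : {ω : Config d | y ∈ bad (Wc ω) 0} =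
        Set.pi ({y} : Finset (Fin d → ℤ)) (fun _ => {SiteState.closed}) := by
      ext ω
      simp [bad, Wc]
    rw [h1, measureReal_def, Measure.infinitePi_pi _ (fun _ _ => MeasurableSet.singleton _)]
    simp [eps, measureReal_def]
  | succ n ih =>
    have hsub : {ω : Config d | y ∈ bad (Wc ω) (n + 1)} ⊆
        ⋃ p ∈ (NbF y ×ˢ NbF y).filter (fun p : (Fin d → ℤ) × (Fin d → ℤ) =>
          ∃ i, p.1 i + 5 ≤ p.2 i),
          ({ω | p.1 ∈ bad (Wc ω) n} ∩ {ω | p.2 ∈ bad (Wc ω) n}) := by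
      rintro ω ⟨u, hu, v, hv, hyu, hyv, hi⟩
      simp only [Set.mem_iUnion]
      exact ⟨(u, v), by simp [mem_NbF, hyu, hyv, hi], hu, hv⟩
    refine (measureReal_mono hsub (measure_ne_top _ _)).trans
      ((measureReal_biUnion_finset_le _ _).trans ?_)
    have hterm : ∀ p ∈ (NbF y ×ˢ NbF y).filter (fun p : (Fin d → ℤ) × (Fin d → ℤ) =>
          ∃ i, p.1 i + 5 ≤ p.2 i),
        (PP d ν).real ({ω | p.1 ∈ bad (Wc ω) n} ∩ {ω | p.2 ∈ bad (Wc ω) n}) ≤
          eps (CC d) (ν.real {SiteState.closed}) n ^ 2 := by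
      intro p hp
      obtain ⟨_, i, hi⟩ := Finset.mem_filter.mp hp
      rw [real_inter ν (eventOn_bad n p.1) (eventOn_bad n p.2) (reg_disj hi), sq]
      exact mul_le_mul (ih _) (ih _) measureReal_nonneg (measureReal_nonneg.trans (ih p.1))
    refine (Finset.sum_le_card_nsmul _ _ _ hterm).trans ?_
    rw [nsmul_eq_mul, eps]
    refine mul_le_mul_of_nonneg_right ?_ (sq_nonneg _)
    have hcard : ((NbF y ×ˢ NbF y).filter (fun p : (Fin d → ℤ) × (Fin d → ℤ) =>
          ∃ i, p.1 i + 5 ≤ p.2 i)).card ≤ (24 ^ d) ^ 2 := by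
      refine (Finset.card_filter_le _ _).trans ?_
      rw [Finset.card_product, card_NbF, sq]
    rw [CC]
    exact_mod_cast hcard

end Prob

end Pool.Agent.Polluted
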