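import Pool.Agent.Polluted.Basic

set_option autoImplicit false

/-!
# Directed reachability with obstacles (lower half)
-/

namespace Pool.Agent.Polluted

variable {d : ℕ}

/-- sign vectors -/
def IsSign (σ : Fin d → ℤ) : Prop := ∀ i, σ i = 1 ∨ σ i = -1

/-- the linear form attached to a sign vector -/
def LL (σ v : Fin d → ℤ) : ℤ := ∑ i, σ i * v i

theorem LL_sub (σ v w : Fin d → ℤ) : LL σ (v - w) = LL σ v - LL σ w := by
  unfold LL
  rw [← Finset.sum_sub_distrib]
  refine Finset.sum_congr rfl (fun i _ => ?_)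
  rw [Pi.sub_apply]
  ring

theorem LL_self {σ : Fin d → ℤ} (hσ : IsSign σ) : LL σ σ = d := by
  unfold LL
  have : ∀ i ∈ (Finset.univ : Finset (Fin d)), σ i * σ i = 1 := by
    intro i _
    rcases hσ i with h | h <;> rw [h] <;> norm_num
  rw [Finset.sum_congr rfl this]
  simp

theorem coord_le_norm (v : Fin d → ℤ) (i : Fin d) : |(v i : ℝ)| ≤ ‖v‖ := by
  have := norm_le_pi_norm v i
  rwa [Int.norm_eq_abs] at this

theorem norm_le_of_coord {v : Fin d → ℤ} {R : ℝ} (hR : 0 ≤ R) (h : ∀ i, |(v i : ℝ)| ≤ R) :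
    ‖v‖ ≤ R := by
  rw [pi_norm_le_iff_of_nonneg hR]
  intro i
  rw [Int.norm_eq_abs]
  exact h i

theorem abs_LL_le {σ : Fin d → ℤ} (hσ : IsSign σ) (v : Fin d → ℤ) :
    |(LL σ v : ℝ)| ≤ d * ‖v‖ := by
  unfold LL
  push_cast
  refine (Finset.abs_sum_le_sum_abs _ _).trans ?_
  have : ∀ i ∈ (Finset.univ : Finset (Fin d)), |(σ i : ℝ) * (v i : ℝ)| ≤ ‖v‖ := by
    intro i _
    rw [abs_mul]
    have h1 : |(σ i : ℝ)| = 1 := by rcases hσ i with h | h <;> rw [h] <;> norm_num
    rw [h1, one_mul]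
    exact coord_le_norm v i
  refine (Finset.sum_le_card_nsmul _ _ _ this).trans ?_
  simp

/-- the admissible moves -/
def Move (σ v : Fin d → ℤ) : Prop :=
  (∃ i, v = fun l => if l = i then σ i else 0) ∨
    (∃ a, v = fun l => if l = a then d * σ a else -σ l)

theorem Move.LL_eq {σ v : Fin d → ℤ} (hσ : IsSign σ) (h : Move σ v) : LL σ v = 1 := by
  have hsq : ∀ i, σ i * σ i = 1 := by
    intro i
    rcases hσ i with h | h <;> rw [h] <;> norm_num
  rcases h with ⟨i, rfl⟩ | ⟨a, rfl⟩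
  · unfold LL
    simp [hsq]
  · unfold LL
    have h1 : ∀ l ∈ (Finset.univ : Finset (Fin d)),
        σ l * (if l = a then (d : ℤ) * σ a else -σ l) = (if l = a then (d : ℤ) + 1 else 0) - 1 := by
      intro l _
      by_cases hl : l = a
      · subst hl
        rw [if_pos rfl, if_pos rfl]
        have := hsq l
        calc σ l * (d * σ l) = d * (σ l * σ l) := by ring
          _ = d + 1 - 1 := by rw [this]; ring
      · rw [if_neg hl, if_neg hl]
        have := hsq l
        calc σ l * -σ l = -(σ l * σ l) := by ring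
          _ = 0 - 1 := by rw [this]; ring
    rw [Finset.sum_congr rfl h1, Finset.sum_sub_distrib]
    simp

theorem Move.norm_le {σ v : Fin d → ℤ} (hσ : IsSign σ) (h : Move σ v) : ‖v‖ ≤ d := by
  have h1 : ∀ i, |(σ i : ℝ)| = 1 := by
    intro i
    rcases hσ i with h | h <;> rw [h] <;> norm_num
  refine norm_le_of_coord (Nat.cast_nonneg d) (fun l => ?_)
  have hd : (1 : ℝ) ≤ d := by
    have : 1 ≤ d := by have := l.isLt; omega
    exact_mod_cast this
  rcases h with ⟨i, rfl⟩ | ⟨a, rfl⟩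
  · by_cases hl : l = i
    · subst hl
      simp only [if_true]
      rw [h1]; exact hd
    · simp only [if_neg hl]
      simp
  · by_cases hl : l = a
    · subst hl
      simp only [if_true]
      push_cast
      rw [abs_mul, h1]
      simp
    · simp only [if_neg hl]
      push_cast
      rw [abs_neg, h1]; exact hd

/-- One step of the exploration: a backward move or a jump inside an obstacle. -/
def RStep (Ob : Set (Set (Fin d → ℤ))) (σ : Fin d → ℤ) (a a' : Fin d → ℤ) : Prop :=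
  (∃ v, Move σ v ∧ a' = a - v) ∨ (∃ N ∈ Ob, a ∈ N ∧ a' ∈ N)

/-- Reachability. -/
def Reach (Ob : Set (Set (Fin d → ℤ))) (σ : Fin d → ℤ) : (Fin d → ℤ) → (Fin d → ℤ) → Prop :=
  Relation.ReflTransGen (RStep Ob σ)

/-- The set absorbed from `Q`. -/
def SS (Ob : Set (Set (Fin d → ℤ))) (σ : Fin d → ℤ) (Q : Set (Fin d → ℤ)) : Set (Fin d → ℤ) :=
  {a | ∃ q ∈ Q, Reach Ob σ q a}

/-- The intersection of the shifted absorbed sets. -/
def Uh (Ob : Set (Set (Fin d → ℤ))) (Q : Set (Fin d → ℤ)) : Set (Fin d → ℤ) :=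
  {u | ∀ σ, IsSign σ → u - σ ∈ SS Ob σ Q}

/-- Neighbourhoods. -/
def Nbh (R : ℝ) (S : Set (Fin d → ℤ)) : Set (Fin d → ℤ) := {x | ∃ u ∈ S, ‖u - x‖ ≤ R}

/-- The growth estimate for the exploration. -/
def Claim (Ob : Set (Set (Fin d → ℤ))) (κ c : ℝ) : Prop :=
  ∀ σ, IsSign σ → ∀ a a', Reach Ob σ a a' → (LL σ a' : ℝ) - LL σ a + κ * ‖a' - a‖ ≤ c

theorem claim_empty (hd : 1 ≤ d) : Claim (∅ : Set (Set (Fin d → ℤ))) (1 / d) 0 := by
  intro σ hσ a a' h
  have hd' : (0 : ℝ) < d := by exact_mod_cast hd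
  induction h with
  | refl => simp
  | @tail b c _ hstep ih =>
    rcases hstep with ⟨v, hv, rfl⟩ | ⟨N, hN, _⟩
    · have h1 := hv.LL_eq hσ
      have h2 := hv.norm_le hσ
      have h3 : ‖b - v - a‖ ≤ ‖b - a‖ + d := by
        calc ‖b - v - a‖ = ‖(b - a) - v‖ := by congr 1; abel
          _ ≤ ‖b - a‖ + ‖v‖ := norm_sub_le _ _
          _ ≤ _ := by linarith
      have h4 : 1 / (d : ℝ) * ‖b - v - a‖ ≤ 1 / d * ‖b - a‖ + 1 := by
        calc 1 / (d : ℝ) * ‖b - v - a‖ ≤ 1 / d * (‖b - a‖ + d) :=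
              mul_le_mul_of_nonneg_left h3 (by positivity)
          _ = 1 / d * ‖b - a‖ + 1 := by field_simp
      rw [LL_sub, h1]
      push_cast
      linarith
    · exact absurd hN (Set.notMem_empty N)

/-- Adding separated obstacles of bounded diameter. -/
theorem claim_union {F 𝒩 : Set (Set (Fin d → ℤ))} {κ κ' c w Γ : ℝ} (hF : Claim F κ c)
    (hκ' : 0 ≤ κ') (hκ'1 : κ' ≤ 1) (hκκ : κ' ≤ κ) (hc : 0 ≤ c) (hw : 0 ≤ w)
    (hdiam : ∀ N ∈ 𝒩, ∀ x ∈ N, ∀ y ∈ N, ‖x - y‖ ≤ w)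
    (hsep : ∀ N ∈ 𝒩, ∀ N' ∈ 𝒩, N ≠ N' → ∀ x ∈ N, ∀ y ∈ N', Γ ≤ ‖x - y‖)
    (hΓ : c + (d + 1) * w ≤ (κ - κ') * Γ) :
    Claim (F ∪ 𝒩) κ' (2 * c + (d + 1) * w) := by
  intro σ hσ a a' h
  set X : ℝ := c + (d + 1) * w with hX
  -- the key comparison for two points of one obstacle
  have hcmp : ∀ N ∈ 𝒩, ∀ x ∈ N, ∀ y ∈ N, (LL σ y : ℝ) ≤ LL σ x + d * w := by
    intro N hN x hx y hy
    have h1 := abs_LL_le hσ (y - x)
    have h2 := hdiam N hN y hy x hx
    rw [LL_sub] at h1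
    push_cast at h1
    have h3 : (d : ℝ) * ‖y - x‖ ≤ d * w := mul_le_mul_of_nonneg_left h2 (Nat.cast_nonneg d)
    have := (abs_le.mp h1).2
    linarith
  have htri : ∀ x y z : Fin d → ℤ, ‖x - z‖ ≤ ‖x - y‖ + ‖y - z‖ := by
    intro x y z
    calc ‖x - z‖ = ‖(x - y) + (y - z)‖ := by congr 1; abel
      _ ≤ _ := norm_add_le _ _
  -- the invariant
  have inv : Reach F σ a a' ∨ ∃ N ∈ 𝒩, ∃ b ∈ N, Reach F σ b a' ∧
      ∀ b' ∈ N, (LL σ b' : ℝ) - LL σ a + κ' * ‖b' - a‖ ≤ X := by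
    induction h with
    | refl => exact Or.inl Relation.ReflTransGen.refl
    | @tail a1 a2 _ hstep ih =>
      by_cases hF2 : RStep F σ a1 a2
      · rcases ih with h1 | ⟨N, hN, b, hb, h1, h2⟩
        · exact Or.inl (h1.tail hF2)
        · exact Or.inr ⟨N, hN, b, hb, h1.tail hF2, h2⟩
      · have hnew : ∃ N' ∈ 𝒩, a1 ∈ N' ∧ a2 ∈ N' := by
          rcases hstep with h1 | ⟨N, hN, h1⟩
          · exact absurd (Or.inl h1) hF2
          · rcases hN with hN | hN
            · exact absurd (Or.inr ⟨N, hN, h1⟩) hF2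
            · exact ⟨N, hN, h1⟩
        obtain ⟨N', hN', ha1, ha2⟩ := hnew
        rcases ih with h1 | ⟨N, hN, b, hb, h1, h2⟩
        · refine Or.inr ⟨N', hN', a2, ha2, Relation.ReflTransGen.refl, fun b' hb' => ?_⟩
          have e1 := hF σ hσ a a1 h1
          have e2 := hcmp N' hN' a1 ha1 b' hb'
          have e3 := htri b' a1 a
          have e4 := hdiam N' hN' b' hb' a1 ha1
          have e5 : κ' * ‖b' - a‖ ≤ κ' * (w + ‖a1 - a‖) :=
            mul_le_mul_of_nonneg_left (by linarith) hκ'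
          have e6 : κ' * ‖a1 - a‖ ≤ κ * ‖a1 - a‖ :=
            mul_le_mul_of_nonneg_right hκκ (norm_nonneg _)
          have e7 : κ' * w ≤ 1 * w := mul_le_mul_of_nonneg_right hκ'1 hw
          rw [hX]
          nlinarith
        · by_cases hNN : N = N'
          · subst hNN
            exact Or.inr ⟨N, hN, a2, ha2, Relation.ReflTransGen.refl, h2⟩
          · refine Or.inr ⟨N', hN', a2, ha2, Relation.ReflTransGen.refl, fun b' hb' => ?_⟩
            have e1 := hF σ hσ b a1 h1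
            have e2 := hcmp N' hN' a1 ha1 b' hb'
            have e3 := htri b' a1 a
            have e3' := htri a1 b a
            have e4 := hdiam N' hN' b' hb' a1 ha1
            have e5 : κ' * ‖b' - a‖ ≤ κ' * (w + ‖a1 - b‖ + ‖b - a‖) :=
              mul_le_mul_of_nonneg_left (by linarith) hκ'
            have e7 : κ' * w ≤ 1 * w := mul_le_mul_of_nonneg_right hκ'1 hw
            have e8 := h2 b hb
            have e9 : Γ ≤ ‖a1 - b‖ := by
              have := hsep N' hN' N hN (Ne.symm hNN) a1 ha1 b hb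
              exact this
            have e10 : (κ - κ') * Γ ≤ (κ - κ') * ‖a1 - b‖ :=
              mul_le_mul_of_nonneg_left e9 (by linarith)
            rw [hX] at e8 ⊢
            nlinarith
  rcases inv with h1 | ⟨N, hN, b, hb, h1, h2⟩
  · have e1 := hF σ hσ a a' h1
    have e6 : κ' * ‖a' - a‖ ≤ κ * ‖a' - a‖ := mul_le_mul_of_nonneg_right hκκ (norm_nonneg _)
    have e7 : (0:ℝ) ≤ (d + 1) * w := by positivity
    linarith
  · have e1 := hF σ hσ b a' h1
    have e8 := h2 b hb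
    have e3 := htri a' b a
    have e5 : κ' * ‖a' - a‖ ≤ κ' * (‖a' - b‖ + ‖b - a‖) := mul_le_mul_of_nonneg_left e3 hκ'
    have e6 : κ' * ‖a' - b‖ ≤ κ * ‖a' - b‖ := mul_le_mul_of_nonneg_right hκκ (norm_nonneg _)
    rw [hX] at e8
    linarith

/-- Points of `Uh` are close to the cluster. -/
theorem uh_bound {F : Set (Set (Fin d → ℤ))} {κ c b : ℝ} (hF : Claim F κ c) (hκ : 0 ≤ κ)
    {Q : Set (Fin d → ℤ)} (hQ : ∀ q ∈ Q, ∀ q' ∈ Q, ‖q - q'‖ ≤ b) {q0 u : Fin d → ℤ}
    (hq0 : q0 ∈ Q) (hu : u ∈ Uh F Q) : ‖u - q0‖ ≤ c + d * b + d := by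
  classical
  -- the sign vector
  set σ : Fin d → ℤ := fun i => if 0 ≤ (u - q0) i then 1 else -1 with hσdef
  have hσ : IsSign σ := by
    intro i
    simp only [hσdef]
    split_ifs
    · left; rfl
    · right; rfl
  obtain ⟨q, hq, hreach⟩ := hu σ hσ
  have h1 := hF σ hσ q (u - σ) hreach
  have h2 : (0:ℝ) ≤ κ * ‖u - σ - q‖ := mul_nonneg hκ (norm_nonneg _)
  have h3 := abs_LL_le hσ (q - q0)
  have h4 : (d : ℝ) * ‖q - q0‖ ≤ d * b :=
    mul_le_mul_of_nonneg_left (hQ q hq q0 hq0) (Nat.cast_nonneg d)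
  rw [LL_sub] at h3
  push_cast at h3
  have h5 := (abs_le.mp h3).2
  rw [LL_sub, LL_self hσ] at h1
  push_cast at h1
  -- `‖u - q0‖ ≤ LL σ (u - q0)`
  have h6 : ‖u - q0‖ ≤ LL σ (u - q0) := by
    have hterm : ∀ i, |((u - q0) i : ℝ)| = ((σ i * (u - q0) i : ℤ) : ℝ) := by
      intro i
      simp only [hσdef]
      split_ifs with hi
      · rw [one_mul, abs_of_nonneg (by exact_mod_cast hi)]
      · push Not at hi
        rw [abs_of_neg (by exact_mod_cast hi)]
        push_cast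
        ring
    have hsum : (LL σ (u - q0) : ℝ) = ∑ i, |((u - q0) i : ℝ)| := by
      unfold LL
      rw [Int.cast_sum]
      exact Finset.sum_congr rfl (fun i _ => (hterm i).symm)
    rw [hsum]
    refine norm_le_of_coord (Finset.sum_nonneg (fun _ _ => abs_nonneg _)) (fun i => ?_)
    exact Finset.single_le_sum (f := fun i => |((u - q0) i : ℝ)|) (fun _ _ => abs_nonneg _)
      (Finset.mem_univ i)
  rw [LL_sub] at h6
  push_cast at h6
  linarith

/-! ### Elementary properties of reachability -/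

theorem SS_self {Ob : Set (Set (Fin d → ℤ))} {σ : Fin d → ℤ} {Q : Set (Fin d → ℤ)} :
    Q ⊆ SS Ob σ Q := fun q hq => ⟨q, hq, Relation.ReflTransGen.refl⟩

theorem SS_move {Ob : Set (Set (Fin d → ℤ))} {σ v : Fin d → ℤ} {Q : Set (Fin d → ℤ)}
    (hv : Move σ v) {a : Fin d → ℤ} (ha : a ∈ SS Ob σ Q) : a - v ∈ SS Ob σ Q := by
  obtain ⟨q, hq, hr⟩ := ha
  exact ⟨q, hq, hr.tail (Or.inl ⟨v, hv, rfl⟩)⟩

/-- the complement of `SS` is closed under adding moves -/
theorem SS_move' {Ob : Set (Set (Fin d → ℤ))} {σ v : Fin d → ℤ} {Q : Set (Fin d → ℤ)}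
    (hv : Move σ v) {a : Fin d → ℤ} (ha : a ∉ SS Ob σ Q) : a + v ∉ SS Ob σ Q := by
  intro h
  have := SS_move hv h
  rw [add_sub_cancel_right] at this
  exact ha this

theorem SS_absorb {Ob : Set (Set (Fin d → ℤ))} {σ : Fin d → ℤ} {Q N : Set (Fin d → ℤ)}
    (hN : N ∈ Ob) {a a' : Fin d → ℤ} (ha : a ∈ N) (ha' : a' ∈ N) (h : a ∈ SS Ob σ Q) :
    a' ∈ SS Ob σ Q := by
  obtain ⟨q, hq, hr⟩ := h
  exact ⟨q, hq, hr.tail (Or.inr ⟨N, hN, ha, ha'⟩)⟩

/-- order attached to a sign vector -/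
def SLe (σ x z : Fin d → ℤ) : Prop := ∀ i, 0 ≤ σ i * (z i - x i)

/-- `SS` is a lower set for the order. -/
theorem SS_lower {Ob : Set (Set (Fin d → ℤ))} {σ : Fin d → ℤ} (hσ : IsSign σ)
    {Q : Set (Fin d → ℤ)} {a a' : Fin d → ℤ} (hle : SLe σ a' a) (ha : a ∈ SS Ob σ Q) :
    a' ∈ SS Ob σ Q := by
  classical
  have key : ∀ N : ℕ, ∀ a : Fin d → ℤ, SLe σ a' a → (∑ i, σ i * (a i - a' i)).toNat = N →
      a ∈ SS Ob σ Q → a' ∈ SS Ob σ Q := by
    intro N
    induction N with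
    | zero =>
      intro a hle hN ha
      have h0 : ∑ i, σ i * (a i - a' i) = 0 := by
        have : 0 ≤ ∑ i, σ i * (a i - a' i) := Finset.sum_nonneg (fun i _ => hle i)
        omega
      rw [Finset.sum_eq_zero_iff_of_nonneg (fun i _ => hle i)] at h0
      have : a = a' := by
        funext i
        have h1 := h0 i (Finset.mem_univ i)
        rcases hσ i with h | h <;> rw [h] at h1 <;> omega
      rw [← this]; exact ha
    | succ N ih =>
      intro a hle hN ha
      have hex : ∃ i, 0 < σ i * (a i - a' i) := by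
        by_contra hcon
        push Not at hcon
        have : ∑ i, σ i * (a i - a' i) ≤ 0 := Finset.sum_nonpos (fun i _ => hcon i)
        omega
      obtain ⟨i, hi⟩ := hex
      set v : Fin d → ℤ := fun l => if l = i then σ i else 0 with hv
      have hmv : Move σ v := Or.inl ⟨i, hv⟩
      have hsq : σ i * σ i = 1 := by rcases hσ i with h | h <;> rw [h] <;> norm_num
      have hcoord : ∀ l, σ l * ((a - v) l - a' l) = σ l * (a l - a' l) - if l = i then 1 else 0 := by
        intro l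
        rw [Pi.sub_apply]
        by_cases hl : l = i
        · subst hl
          simp only [hv, if_true]
          calc σ l * (a l - σ l - a' l) = σ l * (a l - a' l) - σ l * σ l := by ring
            _ = _ := by rw [hsq]
        · simp only [hv, if_neg hl]
          ring
      refine ih (a - v) (fun l => ?_) ?_ (SS_move hmv ha)
      · rw [hcoord]
        by_cases hl : l = i
        · subst hl; rw [if_pos rfl]; omega
        · rw [if_neg hl, sub_zero]; exact hle l
      · have : ∑ l, σ l * ((a - v) l - a' l) = ∑ l, σ l * (a l - a' l) - 1 := by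
          rw [Finset.sum_congr rfl (fun l _ => hcoord l), Finset.sum_sub_distrib]
          simp
        rw [this]
        omega
  exact key _ a hle rfl ha

theorem sub_sign_mem_SS {Ob : Set (Set (Fin d → ℤ))} {σ : Fin d → ℤ} (hσ : IsSign σ)
    {Q : Set (Fin d → ℤ)} {q : Fin d → ℤ} (hq : q ∈ Q) : q - σ ∈ SS Ob σ Q := by
  refine SS_lower hσ (fun i => ?_) (SS_self hq)
  rw [Pi.sub_apply]
  rcases hσ i with h | h <;> rw [h] <;> omega

/-- a cluster lies in its `Uh` -/
theorem sub_Uh {Ob : Set (Set (Fin d → ℤ))} {Q : Set (Fin d → ℤ)} : Q ⊆ Uh Ob Q :=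
  fun _ hq _ hσ => sub_sign_mem_SS hσ hq

end Pool.Agent.Polluted
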