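import Pool.Agent.Polluted.Upper

set_option autoImplicit false

/-!
# The upper half in asymptotic form
-/

namespace Pool.Agent.Polluted

open MeasureTheory ProbabilityTheory Filter

theorem log_pow_small (n : ℕ) {ε : ℝ} (hε : 0 < ε) :
    ∃ ν : ℝ, 0 < ν ∧ ∀ p : ℝ, 0 < p → p ≤ ν → Real.log (1 / p) ^ n * p ≤ ε := by
  have h1 := (Real.isLittleO_pow_log_id_atTop (n := n)).tendsto_div_nhds_zero
  have h2 : ∀ᶠ x : ℝ in atTop, Real.log x ^ n / id x < ε := by
    have := h1.eventually (gt_mem_nhds hε)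
    exact this
  rw [eventually_atTop] at h2
  obtain ⟨X, hX⟩ := h2
  refine ⟨1 / max X 1, by positivity, fun p hp hpν => ?_⟩
  have h3 : X ≤ 1 / p := by
    have h4 : max X 1 ≤ 1 / p := by
      rw [le_div_iff₀ hp]
      rw [le_div_iff₀ (by positivity)] at hpν
      linarith
    exact (le_max_left _ _).trans h4
  have h5 := (hX _ h3).le
  simp only [id] at h5
  calc Real.log (1 / p) ^ n * p = Real.log (1 / p) ^ n / (1 / p) := by
        field_simp
    _ ≤ ε := h5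

/-- **Upper half for `d = r`.** -/
theorem upper_half {d : ℕ} (hd : 1 ≤ d) {η : ℝ} (hη : 0 < η) :
    ∃ ν : ℝ, 0 < ν ∧ ∀ p q : ℝ, 0 < p → 0 ≤ q → p + q ≤ 1 → p ≤ ν →
      q * (Real.log (1 / p) / p) ^ d ≤ ν → 1 - η ≤ phi d d p q := by
  set B : ℝ := (2 * (d + 1)) ^ d with hB
  have hB0 : 0 < B := by positivity
  set τ : ℝ := min (1 / (2 * (24 ^ d) ^ 2)) (η / (2 * 24 ^ d)) with hτ
  have hτ0 : 0 < τ := lt_min (by positivity) (by positivity)
  have hτ1 : (24 ^ d : ℝ) ^ 2 * τ ≤ 1 / 2 := by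
    calc (24 ^ d : ℝ) ^ 2 * τ ≤ (24 ^ d) ^ 2 * (1 / (2 * (24 ^ d) ^ 2)) :=
          mul_le_mul_of_nonneg_left (min_le_left _ _) (by positivity)
      _ = 1 / 2 := by field_simp
  have hτ2 : 2 * 24 ^ d * τ ≤ η := by
    calc 2 * 24 ^ d * τ ≤ 2 * 24 ^ d * (η / (2 * 24 ^ d)) :=
          mul_le_mul_of_nonneg_left (min_le_right _ _) (by positivity)
      _ = η := by field_simp
  obtain ⟨ν1, hν1, hlog⟩ := log_pow_small d (show 0 < τ / (2 * (B * d)) by positivity)
  refine ⟨min (min ν1 (Real.exp (-1))) (τ / (2 * B)),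
    lt_min (lt_min hν1 (Real.exp_pos _)) (by positivity), fun p q hp hq hpq hpν hqν => ?_⟩
  have hpν1 : p ≤ ν1 := hpν.trans ((min_le_left _ _).trans (min_le_left _ _))
  have hpe : p ≤ Real.exp (-1) := hpν.trans ((min_le_left _ _).trans (min_le_right _ _))
  have hqν' : q * (Real.log (1 / p) / p) ^ d ≤ τ / (2 * B) := hqν.trans (min_le_right _ _)
  have hp1 : p ≤ 1 := by linarith
  set g : ℝ := Real.log (1 / p) with hg
  have hg1 : 1 ≤ g := by
    rw [hg, one_div, Real.log_inv]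
    have : Real.log p ≤ -1 := by
      rw [← Real.log_exp (-1)]
      exact Real.log_le_log hp hpe
    linarith
  set ℓ : ℕ := ⌈((d : ℝ) + 1) * g / p⌉₊ with hℓ
  have hbase : 1 ≤ ((d : ℝ) + 1) * g / p := by
    rw [le_div_iff₀ hp]
    have : (0 : ℝ) ≤ d := Nat.cast_nonneg d
    nlinarith
  have hℓge : ((d : ℝ) + 1) * g / p ≤ ℓ := Nat.le_ceil _
  have hℓ1 : 1 ≤ ℓ := by
    have : (1 : ℝ) ≤ ℓ := hbase.trans hℓge
    exact_mod_cast this
  have hℓle : (ℓ : ℝ) ≤ 2 * (d + 1) * (g / p) := by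
    have := Nat.ceil_lt_add_one (show 0 ≤ ((d : ℝ) + 1) * g / p by linarith)
    calc (ℓ : ℝ) ≤ ((d : ℝ) + 1) * g / p + 1 := this.le
      _ ≤ ((d : ℝ) + 1) * g / p + ((d : ℝ) + 1) * g / p := by linarith
      _ = 2 * (d + 1) * (g / p) := by ring
  have hℓd : (ℓ : ℝ) ^ d ≤ B * (g / p) ^ d := by
    have := pow_le_pow_left₀ (Nat.cast_nonneg _) hℓle d
    rwa [mul_pow] at this
  have hT1 : (ℓ : ℝ) ^ d * q ≤ τ / 2 := by
    calc (ℓ : ℝ) ^ d * q ≤ B * (g / p) ^ d * q := mul_le_mul_of_nonneg_right hℓd hq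
      _ = B * (q * (g / p) ^ d) := by ring
      _ ≤ B * (τ / (2 * B)) := mul_le_mul_of_nonneg_left hqν' hB0.le
      _ = τ / 2 := by field_simp
  have hexp : (1 - p) ^ ℓ ≤ p ^ (d + 1) := by
    have h1 : 1 - p ≤ Real.exp (-p) := by
      have := Real.add_one_le_exp (-p)
      linarith
    have h2 : ((d : ℝ) + 1) * g ≤ ℓ * p := by
      rw [div_le_iff₀ hp] at hℓge
      exact hℓge
    calc (1 - p) ^ ℓ ≤ Real.exp (-p) ^ ℓ := pow_le_pow_left₀ (by linarith) h1 _
      _ = Real.exp (-(ℓ * p)) := by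
          rw [← Real.exp_nat_mul]
          congr 1
          ring
      _ ≤ Real.exp (-(((d : ℝ) + 1) * g)) := Real.exp_le_exp.mpr (by linarith)
      _ = p ^ (d + 1) := by
          rw [hg, one_div, Real.log_inv]
          have : -(((d : ℝ) + 1) * -Real.log p) = ((d + 1 : ℕ) : ℝ) * Real.log p := by
            push_cast; ring
          rw [this, Real.exp_nat_mul, Real.exp_log hp]
  have hT2 : (ℓ : ℝ) ^ d * (d * (1 - p) ^ ℓ) ≤ τ / 2 := by
    have hd0 : (0 : ℝ) < d := by exact_mod_cast hd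
    calc (ℓ : ℝ) ^ d * (d * (1 - p) ^ ℓ) ≤ (B * (g / p) ^ d) * (d * p ^ (d + 1)) := by
          refine mul_le_mul hℓd ?_ ?_ (by positivity)
          · exact mul_le_mul_of_nonneg_left hexp hd0.le
          · have : 0 ≤ (1 - p) ^ ℓ := pow_nonneg (by linarith) _
            positivity
      _ = (B * d) * (g ^ d * p) := by
          rw [div_pow, pow_succ]
          field_simp
      _ ≤ (B * d) * (τ / (2 * (B * d))) :=
          mul_le_mul_of_nonneg_left (hlog p hp hpν1) (by positivity)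
      _ = τ / 2 := by field_simp
  have hε : (ℓ : ℝ) ^ d * q + ℓ ^ d * (d * (1 - p) ^ ℓ) ≤ τ := by linarith
  have h24 : (0:ℝ) ≤ (24 ^ d) ^ 2 := by positivity
  have hmain := phi_ge hd hp hq hpq hℓ1 ((mul_le_mul_of_nonneg_left hε h24).trans hτ1)
  have h24' : (0:ℝ) ≤ 2 * 24 ^ d := by positivity
  have := (mul_le_mul_of_nonneg_left hε h24').trans hτ2
  linarith

end Pool.Agent.Polluted
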