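import Pool.Agent.Polluted.Lower
import Pool.Agent.Polluted.UpperAsym

set_option autoImplicit false

/-!
# Sequences of parameters
-/

namespace Pool.Agent.Polluted

open MeasureTheory ProbabilityTheory Filter Topology

theorem phi_nonneg (d r : ℕ) (p q : ℝ) : 0 ≤ phi d r p q := measureReal_nonneg

theorem phi_le_one {d r : ℕ} {p q : ℝ} (hp : 0 ≤ p) (hq : 0 ≤ q) (hpq : p + q ≤ 1) :
    phi d r p q ≤ 1 := by
  have := isProbabilityMeasure_siteLaw hp hq hpq
  have : IsProbabilityMeasure (configLaw d p q) := by unfold configLaw; infer_instance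
  rw [phi_eq]
  exact measureReal_le_one

theorem eventually_sum_le {p q : ℕ → ℝ} (hp : Tendsto p atTop (𝓝 0))
    (hq : Tendsto q atTop (𝓝 0)) : ∀ᶠ n in atTop, p n + q n ≤ 1 := by
  have h := hp.add hq
  rw [add_zero] at h
  filter_upwards [h.eventually (ge_mem_nhds (show (0:ℝ) < 1 by norm_num))] with n hn
  exact hn

/-- Upper half along sequences. -/
theorem seq_upper {d : ℕ} (hd : 1 ≤ d) {p q : ℕ → ℝ} (hp0 : ∀ n, 0 < p n) (hq0 : ∀ n, 0 < q n)
    (hp : Tendsto p atTop (𝓝 0)) (hq : Tendsto q atTop (𝓝 0))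
    (h : Tendsto (fun n => q n * (Real.log (1 / p n) / p n) ^ d) atTop (𝓝 0)) :
    Tendsto (fun n => phi d d (p n) (q n)) atTop (𝓝 1) := by
  rw [Metric.tendsto_atTop]
  intro ε hε
  obtain ⟨ν, hν, hmain⟩ := upper_half hd (show 0 < ε / 2 by positivity)
  have h1 := hp.eventually (ge_mem_nhds hν)
  have h2 := h.eventually (ge_mem_nhds hν)
  have h3 := eventually_sum_le hp hq
  obtain ⟨N, hN⟩ := eventually_atTop.mp (h1.and (h2.and h3))
  refine ⟨N, fun n hn => ?_⟩
  obtain ⟨e1, e2, e3⟩ := hN n hn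
  have e4 := hmain (p n) (q n) (hp0 n) (hq0 n).le e3 e1 e2
  have e5 := phi_le_one (d := d) (r := d) (hp0 n).le (hq0 n).le e3
  rw [Real.dist_eq, abs_lt]
  constructor <;> linarith

/-- Lower half along sequences. -/
theorem seq_lower {d : ℕ} (hd : 2 ≤ d) {p q : ℕ → ℝ} (hp0 : ∀ n, 0 < p n) (hq0 : ∀ n, 0 < q n)
    (hp : Tendsto p atTop (𝓝 0)) (hq : Tendsto q atTop (𝓝 0))
    (h : Tendsto (fun n => p n ^ d / q n) atTop (𝓝 0)) :
    Tendsto (fun n => phi d d (p n) (q n)) atTop (𝓝 0) := by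
  rw [Metric.tendsto_atTop]
  intro ε hε
  obtain ⟨ν, hν, hmain⟩ := lower_half hd (show 0 < ε / 2 by positivity)
  have h1 := hp.eventually (ge_mem_nhds hν)
  have h2 := h.eventually (ge_mem_nhds hν)
  have h3 := eventually_sum_le hp hq
  obtain ⟨N, hN⟩ := eventually_atTop.mp (h1.and (h2.and h3))
  refine ⟨N, fun n hn => ?_⟩
  obtain ⟨e1, e2, e3⟩ := hN n hn
  have e2' : p n ^ d ≤ ν * q n := by
    have : p n ^ d / q n ≤ ν := e2
    rwa [div_le_iff₀ (hq0 n)] at this
  have e4 := hmain (p n) (q n) (hp0 n).le (hq0 n) e3 e1 e2'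
  have e5 := phi_nonneg d d (p n) (q n)
  rw [Real.dist_eq, abs_lt]
  constructor <;> linarith

/-- `φ → c` at `α`, in the sense of the problem. -/
def TendsAt (d r : ℕ) (α : EReal) (c : ℝ) : Prop :=
  ∀ p q : ℕ → ℝ, (∀ n, 0 < p n) → (∀ n, 0 < q n) →
    Tendsto p atTop (𝓝 0) → Tendsto q atTop (𝓝 0) →
    Tendsto (fun n => ((Real.log (q n) / Real.log (p n) : ℝ) : EReal)) atTop (𝓝 α) →
    Tendsto (fun n => phi d r (p n) (q n)) atTop (𝓝 c)

theorem log_neg_eventually {p : ℕ → ℝ} (hp0 : ∀ n, 0 < p n) (hp : Tendsto p atTop (𝓝 0)) :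
    ∀ᶠ n in atTop, Real.log (p n) < 0 := by
  filter_upwards [hp.eventually (gt_mem_nhds (show (0:ℝ) < 1 by norm_num))] with n hn
  exact Real.log_neg (hp0 n) hn

theorem tendsto_neg_log {p : ℕ → ℝ} (hp0 : ∀ n, 0 < p n) (hp : Tendsto p atTop (𝓝 0)) :
    Tendsto (fun n => -Real.log (p n)) atTop atTop := by
  have h1 : Tendsto p atTop (𝓝[>] 0) :=
    tendsto_nhdsWithin_iff.mpr ⟨hp, Eventually.of_forall hp0⟩
  exact tendsto_neg_atBot_atTop.comp (Real.tendsto_log_nhdsGT_zero.comp h1)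

theorem tendsAt_one {d : ℕ} (hd : 1 ≤ d) {α : EReal} (hα : (d : EReal) < α) :
    TendsAt d d α 1 := by
  intro p q hp0 hq0 hp hq hratio
  obtain ⟨β, hβ1, hβ2⟩ := EReal.lt_iff_exists_real_btwn.mp hα
  have hβd : (d : ℝ) < β := by
    have : ((d : ℝ) : EReal) < (β : EReal) := hβ1
    exact_mod_cast this
  refine seq_upper hd hp0 hq0 hp hq ?_
  have h1 : ∀ᶠ n in atTop, β < Real.log (q n) / Real.log (p n) := by
    filter_upwards [hratio.eventually (lt_mem_nhds hβ2)] with n hn
    exact_mod_cast hn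
  have hg := tendsto_neg_log hp0 hp
  have h2 : Tendsto (fun n => (-Real.log (p n)) ^ (d : ℝ) *
      Real.exp (-(β - d) * -Real.log (p n))) atTop (𝓝 0) :=
    (tendsto_rpow_mul_exp_neg_mul_atTop_nhds_zero (d : ℝ) (β - d) (by linarith)).comp hg
  refine squeeze_zero' ?_ ?_ h2
  · filter_upwards [log_neg_eventually hp0 hp] with n hn
    have h3 : 0 ≤ Real.log (1 / p n) := by
      rw [one_div, Real.log_inv]; linarith
    have := hp0 n
    have := hq0 n
    positivity
  · filter_upwards [h1, log_neg_eventually hp0 hp] with n hn hneg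
    have hlog : Real.log (1 / p n) = -Real.log (p n) := by rw [one_div, Real.log_inv]
    rw [hlog]
    have h3 : Real.log (q n) < β * Real.log (p n) := by
      rw [lt_div_iff_of_neg hneg] at hn
      exact hn
    have h4 : q n ≤ Real.exp (β * Real.log (p n)) := by
      rw [← Real.exp_log (hq0 n)]
      exact Real.exp_le_exp.mpr h3.le
    have hp' := hp0 n
    have h5 : 0 ≤ (-Real.log (p n) / p n) ^ d := by
      have : 0 ≤ -Real.log (p n) := by linarith
      positivity
    calc q n * (-Real.log (p n) / p n) ^ d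
        ≤ Real.exp (β * Real.log (p n)) * (-Real.log (p n) / p n) ^ d :=
          mul_le_mul_of_nonneg_right h4 h5
      _ = (-Real.log (p n)) ^ d * (Real.exp (β * Real.log (p n)) / p n ^ d) := by
          rw [div_pow]; ring
      _ = (-Real.log (p n)) ^ (d : ℝ) * Real.exp (-(β - d) * -Real.log (p n)) := by
          rw [Real.rpow_natCast]
          congr 1
          have h6 : p n ^ d = Real.exp (d * Real.log (p n)) := by
            rw [Real.exp_nat_mul, Real.exp_log hp']
          rw [h6, ← Real.exp_sub]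
          congr 1
          ring

theorem tendsAt_zero {d : ℕ} (hd : 2 ≤ d) {α : EReal} (hα : α < (d : EReal)) :
    TendsAt d d α 0 := by
  intro p q hp0 hq0 hp hq hratio
  obtain ⟨β, hβ1, hβ2⟩ := EReal.lt_iff_exists_real_btwn.mp hα
  have hβd : β < (d : ℝ) := by
    have : (β : EReal) < ((d : ℝ) : EReal) := hβ2
    exact_mod_cast this
  refine seq_lower hd hp0 hq0 hp hq ?_
  have h1 : ∀ᶠ n in atTop, Real.log (q n) / Real.log (p n) < β := by
    filter_upwards [hratio.eventually (gt_mem_nhds hβ1)] with n hn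
    exact_mod_cast hn
  have hg := tendsto_neg_log hp0 hp
  have h2 : Tendsto (fun n => Real.exp (-((d - β) * -Real.log (p n)))) atTop (𝓝 0) :=
    Real.tendsto_exp_neg_atTop_nhds_zero.comp (hg.const_mul_atTop (by linarith))
  refine squeeze_zero' ?_ ?_ h2
  · refine Eventually.of_forall (fun n => ?_)
    have := hp0 n
    have := hq0 n
    positivity
  · filter_upwards [h1, log_neg_eventually hp0 hp] with n hn hneg
    have h3 : β * Real.log (p n) < Real.log (q n) := by
      rw [div_lt_iff_of_neg hneg] at hn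
      exact hn
    have hp' := hp0 n
    have h4 : Real.exp (β * Real.log (p n)) ≤ q n := by
      rw [← Real.exp_log (hq0 n)]
      exact Real.exp_le_exp.mpr h3.le
    have h6 : p n ^ d = Real.exp (d * Real.log (p n)) := by
      rw [Real.exp_nat_mul, Real.exp_log hp']
    calc p n ^ d / q n ≤ p n ^ d / Real.exp (β * Real.log (p n)) :=
          div_le_div_of_nonneg_left (by positivity) (Real.exp_pos _) h4
      _ = Real.exp (-((d - β) * -Real.log (p n))) := by
          rw [h6, ← Real.exp_sub]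
          congr 1
          ring

/-! ### Explicit sequences -/

theorem tendsto_succ_atTop : Tendsto (fun n : ℕ => (n : ℝ) + 1) atTop atTop :=
  tendsto_atTop_add_const_right _ _ tendsto_natCast_atTop_atTop

/-- an explicit pair of sequences with ratio tending to `a` -/
theorem explicit_seq (a s : ℝ) (h : (0 ≤ a ∧ s = 1) ∨ (0 < a ∧ s = -1)) :
    (Tendsto (fun n : ℕ => Real.exp (-((n : ℝ) + 1) ^ 2)) atTop (𝓝 0)) ∧
    (Tendsto (fun n : ℕ => Real.exp (-(a * ((n : ℝ) + 1) ^ 2 + s * ((n : ℝ) + 1)))) atTop (𝓝 0)) ∧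
    Tendsto (fun n : ℕ => ((Real.log (Real.exp (-(a * ((n : ℝ) + 1) ^ 2 + s * ((n : ℝ) + 1)))) /
      Real.log (Real.exp (-((n : ℝ) + 1) ^ 2)) : ℝ) : EReal)) atTop (𝓝 (a : EReal)) := by
  have hm := tendsto_succ_atTop
  refine ⟨?_, ?_, ?_⟩
  · exact Real.tendsto_exp_neg_atTop_nhds_zero.comp ((tendsto_pow_atTop (by norm_num)).comp hm)
  · refine Real.tendsto_exp_neg_atTop_nhds_zero.comp ?_
    rcases h with ⟨ha, rfl⟩ | ⟨ha, rfl⟩
    · refine tendsto_atTop_mono (fun n => ?_) hm
      have : (0:ℝ) ≤ (n : ℝ) := Nat.cast_nonneg n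
      nlinarith [mul_nonneg ha (sq_nonneg ((n : ℝ) + 1))]
    · have h1 : Tendsto (fun n : ℕ => (a * ((n : ℝ) + 1) - 1)) atTop atTop :=
        tendsto_atTop_add_const_right _ _ (hm.const_mul_atTop ha)
      have h2 := h1.atTop_mul_atTop₀ hm
      refine h2.congr (fun n => ?_)
      ring
  · have h1 : Tendsto (fun n : ℕ => a + s / ((n : ℝ) + 1)) atTop (𝓝 a) := by
      have : Tendsto (fun n : ℕ => s / ((n : ℝ) + 1)) atTop (𝓝 0) := hm.const_div_atTop s
      simpa using this.const_add a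
    have h2 : (fun n : ℕ => (Real.log (Real.exp (-(a * ((n : ℝ) + 1) ^ 2 + s * ((n : ℝ) + 1)))) /
      Real.log (Real.exp (-((n : ℝ) + 1) ^ 2)) : ℝ)) = fun n : ℕ => a + s / ((n : ℝ) + 1) := by
      funext n
      rw [Real.log_exp, Real.log_exp]
      have : (n : ℝ) + 1 ≠ 0 := by positivity
      field_simp
    have h3 : Tendsto (fun n : ℕ => (Real.log (Real.exp (-(a * ((n : ℝ) + 1) ^ 2 +
        s * ((n : ℝ) + 1)))) / Real.log (Real.exp (-((n : ℝ) + 1) ^ 2)) : ℝ)) atTop (𝓝 a) := by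
      rw [h2]; exact h1
    exact (continuous_coe_real_ereal.tendsto a).comp h3

end Pool.Agent.Polluted
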