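import Pool.Agent.Polluted.Hier

set_option autoImplicit false

/-!
# Spreading of full boxes
-/

namespace Pool.Agent.Polluted

variable {d : ℕ}

theorem not_bad_of_NEup {W : Set (Fin d → ℤ)} {J : Finset (Fin d)} {i m : ℕ} {c z : Fin d → ℤ}
    (hc : c ∉ bad W (i + m)) (hz : par^[m] z = c) (hne : NEup W J i m z) : z ∉ bad W i := by
  cases m with
  | zero =>
    have : z = c := hz
    rw [this]
    exact hc
  | succ m =>
    rw [NEup_succ_iff] at hne
    exact not_bad_of_not_inHole hne.1

/-- Completion of one layer of a box. -/
theorem layer_complete {W : Set (Fin d → ℤ)} {J : Finset (Fin d)} {t : Fin d → ℤ}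
    {A : Set (Fin d → ℤ)} {i : ℕ} {z : Fin d → ℤ} {l : Fin d} (hl : l ∉ J)
    (hgood : Good (bad W i) z) (κ : ℤ) (hno : ∀ e ∈ hull (bad W i) z, e l ≠ κ)
    (hcl : ∀ w, par w = z → w l = κ → ClosedOn W J t A i w)
    (hfull : ∀ w, par w = z → w l = κ → ¬ InHole (insert l J) (bad W i) w → Full W J t A i w) :
    ∀ w, par w = z → w l = κ → Full W J t A i w := by
  classical
  have hδ : ∀ m : Fin d, ∃ s0 : ℤ, (s0 = 1 ∨ s0 = -1) ∧
      ∀ w, par w = z → (∃ e ∈ hull (bad W i) z, e m = w m) →
        8 * z m ≤ w m + s0 ∧ w m + s0 < 8 * z m + 8 := by
    intro m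
    by_cases hcase : ∃ e ∈ hull (bad W i) z, e m = 8 * z m + 7
    · obtain ⟨e, he, hem⟩ := hcase
      refine ⟨-1, Or.inr rfl, fun w hw ⟨f, hf, hfm⟩ => ?_⟩
      have := hull_width hgood hf he m
      have := par_bounds hw m
      omega
    · refine ⟨1, Or.inl rfl, fun w hw ⟨f, hf, hfm⟩ => ?_⟩
      have hb := par_bounds hw m
      by_contra hcon
      exact hcase ⟨f, hf, by omega⟩
  choose δ hδpm hδin using hδ
  have key : ∀ N : ℕ, ∀ w, par w = z → w l = κ → rk (Finset.univ \ insert l J) z δ w = N →
      Full W J t A i w := by
    intro N
    induction N using Nat.strong_induction_on with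
    | _ N ihN =>
      intro w hw hwl hrk
      by_cases hhole : InHole (insert l J) (bad W i) w
      swap
      · exact hfull w hw hwl hhole
      obtain ⟨e, he, hem⟩ := hhole
      rw [hw] at he
      have hnob : ∀ w', par w' = z → w' l = κ → w' ∉ bad W i := by
        intro w' hw' hw'l hbad
        have := mem_hull_self hbad
        rw [hw'] at this
        exact hno _ this hw'l
      refine rule_lemma i w (hnob w hw hwl) (hcl w hw hwl) ⟨l, hl, fun m hm hml => ?_⟩
      refine ⟨δ m, hδpm m, ?_⟩
      have hmJ' : m ∉ insert l J := by simp [hml, hm]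
      have hin := hδin m w hw ⟨e, he, hem m hmJ'⟩
      have hpar : par (shift w m (δ m)) = z := par_shift_eq hw hin
      have hsl : shift w m (δ m) l = κ := by rw [shift_ne _ _ (Ne.symm hml), hwl]
      refine ⟨hnob _ hpar hsl, ihN _ ?_ _ hpar hsl rfl⟩
      rw [← hrk]
      exact rk_lt (by simp only [Finset.mem_sdiff, Finset.mem_univ, true_and]; exact hmJ')
        (hδpm m) hw hin
  exact fun w hw hwl => key _ w hw hwl rfl

/-- The key claim: full layers propagate. -/
theorem layer_claim {W : Set (Fin d → ℤ)} {J : Finset (Fin d)} {t : Fin d → ℤ}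
    {A : Set (Fin d → ℤ)} {n : ℕ} {c : Fin d → ℤ} {l : Fin d} (hl : l ∉ J) {s : ℤ}
    (hs : s = 1 ∨ s = -1) (hc : c ∉ bad W n) (hcl : ClosedOn W J t A n c)
    (hFill : ∀ τ : ℤ, ClosedOn W (insert l J) (Function.update t l τ) A n c →
      Full W (insert l J) (Function.update t l τ) A n c) :
    ∀ i m : ℕ, i + m = n → ∀ h : ℤ,
      (∀ z, par^[m] z = c → NEup W (insert l J) i m z → z l = h →
        (shift z l s ∉ bad W i ∧ Full W J t A i (shift z l s))) →
      (∀ z, par^[m] z = c → NEup W (insert l J) i m z → z l = h → Full W J t A i z) := by
  classical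
  intro i
  induction i with
  | zero =>
    intro m hm h hprem z hz hnez hzl x hx hsec _
    have hxz : x = z := hx
    subst hxz
    have hm' : m = n := by omega
    subst hm'
    have hcl' : ClosedOn W (insert l J) (Function.update t l h) A m c := by
      intro x' hx' hsec' hne' hall'
      have hxl : x' l = h := by
        have := hsec' l (Finset.mem_insert_self l J)
        simpa using this
      have hsecJ : Sec J t x' := by
        intro j hj
        have h1 := hsec' j (Finset.mem_insert_of_mem hj)
        have hjl : j ≠ l := fun e => hl (e ▸ hj)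
        rwa [Function.update_of_ne hjl] at h1
      refine hcl x' hx' hsecJ (hne'.mono (Finset.subset_insert l J)) ?_
      obtain ⟨m0, hm0, hnb⟩ := hall'
      refine ⟨m0, fun hmem => hm0 (Finset.mem_insert_of_mem hmem), fun m1 hm1 hmm => ?_⟩
      by_cases hml : m1 = l
      · subst hml
        refine ⟨s, hs, ?_⟩
        obtain ⟨_, hf⟩ := hprem x' hx' hne' hxl
        exact hf _ rfl ((Sec_shift hl s).mpr hsecJ) (NEup_zero _ _ _ _)
      · exact hnb m1 (by simp [hml, hm1]) hmm
    refine hFill h hcl' x hz ?_ hnez
    intro j hj
    by_cases hjl : j = l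
    · subst hjl; simpa using hzl
    · rw [Function.update_of_ne hjl]
      exact hsec j (by simpa [hjl] using hj)
  | succ i ih =>
    intro m hm h hprem z hz hnez hzl
    have him : i + (m + 1) = n := by omega
    -- the order of the layers
    set hj : ℕ → ℤ := fun j => if s = 1 then 8 * h + 7 - (j : ℤ) else 8 * h + (j : ℤ) with hhj
    have hjdiv : ∀ j : ℕ, j < 8 → hj j / 8 = h := by
      intro j hj8
      simp only [hhj]
      split_ifs <;> omega
    -- one layer, given its predecessor
    have stepj : ∀ j : ℕ, j < 8 →
        (∀ w, par^[m + 1] w = c → NEup W (insert l J) i (m + 1) w → w l = hj j →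
          (shift w l s ∉ bad W i ∧ Full W J t A i (shift w l s))) →
        ∀ w, par^[m + 1] w = c → NEup W (insert l J) (i + 1) m (par w) →
          w l = hj j → ¬ InHole J (bad W i) w → Full W J t A i w := by
      intro j hj8 hpre w hw hnew hwl hhole
      have hlay := ih (m + 1) him (hj j) hpre
      by_cases hJhole : InHole (insert l J) (bad W i) w
      swap
      · exact hlay w hw (NEup_succ_iff.mpr ⟨hJhole, hnew⟩) hwl
      have hparc : par^[m] (par w) = c := by rw [← hw, Function.iterate_succ_apply]
      have hbad : par w ∉ bad W (i + 1) :=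
        not_bad_of_NEup (m := m) (c := c) (by rw [hm]; exact hc) hparc hnew
      have hno : ∀ e ∈ hull (bad W i) (par w), e l ≠ hj j := by
        intro e he hel
        obtain ⟨f, hf, hfm⟩ := hJhole
        apply hhole
        refine ⟨Function.update f l (e l), hull_mix hf he _ (fun k => ?_), fun m' hm' => ?_⟩
        · by_cases hk : k = l
          · subst hk; right; simp
          · left; simp [hk]
        · by_cases hk : m' = l
          · subst hk; rw [Function.update_self, hel, hwl]
          · rw [Function.update_of_ne hk]
            exact hfm m' (by simp [hk, hm'])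
      refine layer_complete hl (good_of_not_bad hbad) (hj j) hno (fun w' hw' hw'l => ?_)
        (fun w' hw' hw'l hh => ?_) w rfl hwl
      · have hnh : ¬ InHole J (bad W i) w' := by
          rintro ⟨e, he, hem⟩
          rw [hw'] at he
          exact hno e he (by rw [hem l hl, hw'l])
        refine ClosedOn.descend (m := m + 1) (by rw [him]; exact hcl) ?_ ?_
        · rw [Function.iterate_succ_apply, hw', hparc]
        · rw [NEup_succ_iff]
          refine ⟨hnh, ?_⟩
          rw [hw']
          exact hnew.mono (Finset.subset_insert l J)
      · refine hlay w' ?_ (NEup_succ_iff.mpr ⟨hh, ?_⟩) hw'l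
        · rw [Function.iterate_succ_apply, hw', hparc]
        · rw [hw']; exact hnew
    -- layers
    have layers : ∀ j : ℕ, j < 8 → ∀ w, par^[m + 1] w = c → NEup W (insert l J) (i + 1) m (par w) →
        w l = hj j → ¬ InHole J (bad W i) w → Full W J t A i w := by
      intro j
      induction j with
      | zero =>
        intro hj8
        refine stepj 0 hj8 (fun w hw hnew hwl => ?_)
        rw [NEup_succ_iff] at hnew
        have hparl : (par w) l = h := by
          simp only [par]; rw [hwl]; exact hjdiv 0 hj8
        obtain ⟨hb, hf⟩ := hprem (par w) (by rw [← hw, Function.iterate_succ_apply]) hnew.2 hparl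
        have hpar : par (shift w l s) = shift (par w) l s := by
          apply par_shift_out rfl
          rw [hparl, hwl]
          simp only [hhj]
          rcases hs with rfl | rfl
          · left; simp
          · right; simp
        have hhole : ¬ InHole J (bad W i) (shift w l s) := by
          rintro ⟨e, he, hem⟩
          rw [hpar] at he
          have hel := hem l hl
          rw [shift_same] at hel
          have he' : e ∈ hull (bad W i) (par w) := by
            refine hull_compat hs (good_of_not_bad hb) he ?_
            rw [hparl, hel, hwl]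
            simp only [hhj]
            rcases hs with rfl | rfl
            · constructor
              · intro _; simp; ring
              · intro h1; exact absurd h1 (by decide)
            · constructor
              · intro h1; exact absurd h1 (by decide)
              · intro _; simp; ring
          refine hnew.1 ⟨e, he', fun m' hm' => ?_⟩
          have hm'l : m' ≠ l := fun e => hm' (e ▸ Finset.mem_insert_self l J)
          rw [hem m' (fun hmem => hm' (Finset.mem_insert_of_mem hmem)), shift_ne _ _ hm'l]
        exact ⟨not_bad_of_not_inHole hhole, full_succ_iff.mp hf _ hpar hhole⟩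
      | succ j ihj =>
        intro hj8
        refine stepj (j + 1) hj8 (fun w hw hnew hwl => ?_)
        rw [NEup_succ_iff] at hnew
        have hparl : (par w) l = h := by
          simp only [par]; rw [hwl]; exact hjdiv (j + 1) hj8
        have hsl : shift w l s l = hj j := by
          rw [shift_same, hwl]
          simp only [hhj]
          rcases hs with rfl | rfl
          · simp; ring
          · simp; ring
        have hpar : par (shift w l s) = par w := by
          apply par_shift_eq rfl
          rw [hparl, hwl]
          simp only [hhj]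
          rcases hs with rfl | rfl
          · simp only [if_true]; push_cast; omega
          · rw [if_neg (by decide)]; push_cast; omega
        have hhole : ¬ InHole J (bad W i) (shift w l s) := by
          rintro ⟨e, he, hem⟩
          rw [hpar] at he
          refine hnew.1 ⟨e, he, fun m' hm' => ?_⟩
          have hm'l : m' ≠ l := fun e => hm' (e ▸ Finset.mem_insert_self l J)
          rw [hem m' (fun hmem => hm' (Finset.mem_insert_of_mem hmem)), shift_ne _ _ hm'l]
        refine ⟨not_bad_of_not_inHole hhole, ihj (by omega) _ ?_ ?_ hsl hhole⟩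
        · rw [Function.iterate_succ_apply, hpar, ← hw, Function.iterate_succ_apply]
        · rw [hpar]; exact hnew.2
    rw [full_succ_iff]
    intro w hw hhole
    have hb := par_bounds hw l
    obtain ⟨j, hj8, hwj⟩ : ∃ j : ℕ, j < 8 ∧ w l = hj j := by
      rcases hs with rfl | rfl
      · refine ⟨(8 * h + 7 - w l).toNat, by omega, ?_⟩
        simp only [hhj, if_true]
        omega
      · refine ⟨(w l - 8 * h).toNat, by omega, ?_⟩
        simp only [hhj]
        rw [if_neg (by decide)]
        omega
    refine layers j hj8 w ?_ ?_ hwj hhole
    · rw [Function.iterate_succ_apply, hw, hz]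
    · rw [hw]; exact hnez

/-- **Spreading**: a box next to a full box is full, provided its sections fill. -/
theorem spread {W : Set (Fin d → ℤ)} {J : Finset (Fin d)} {t : Fin d → ℤ}
    {A : Set (Fin d → ℤ)} {n : ℕ} {c : Fin d → ℤ} {l : Fin d} (hl : l ∉ J) {s : ℤ}
    (hs : s = 1 ∨ s = -1) (hc : c ∉ bad W n) (hcl : ClosedOn W J t A n c)
    (hFill : ∀ τ : ℤ, ClosedOn W (insert l J) (Function.update t l τ) A n c →
      Full W (insert l J) (Function.update t l τ) A n c)
    (hc' : shift c l s ∉ bad W n) (hfull : Full W J t A n (shift c l s)) : Full W J t A n c := by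
  refine layer_claim hl hs hc hcl hFill n 0 (by omega) (c l) (fun z hz _ _ => ?_) c rfl
    (NEup_zero _ _ _ _) rfl
  have : z = c := hz
  rw [this]
  exact ⟨hc', hfull⟩

end Pool.Agent.Polluted
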