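import Pool.Agent.Polluted.Coarse

set_option autoImplicit false

/-!
# Transfer from the coarse field to the microscopic dynamics, `d = r`
-/

namespace Pool.Agent.Polluted

open MeasureTheory ProbabilityTheory

variable {d : ℕ}

theorem ncard_of_all {x : Fin d → ℤ} {A : Set (Fin d → ℤ)} (s : Fin d → ℤ)
    (hs : ∀ m, s m = 1 ∨ s m = -1) (h : ∀ m, shift x m (s m) ∈ A) :
    d ≤ {y | Adj x y ∧ y ∈ A}.ncard := by
  classical
  have hsub : ((Finset.univ.image (fun m => shift x m (s m)) :
      Finset (Fin d → ℤ)) : Set (Fin d → ℤ)) ⊆ {y | Adj x y ∧ y ∈ A} := by
    intro y hy
    rw [Finset.mem_coe, Finset.mem_image] at hy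
    obtain ⟨m, _, rfl⟩ := hy
    exact ⟨adj_shift x m (hs m), h m⟩
  have hcard : (Finset.univ.image (fun m => shift x m (s m)) :
      Finset (Fin d → ℤ)).card = d := by
    rw [Finset.card_image_of_injective, Finset.card_univ, Fintype.card_fin]
    intro m m' hmm
    exact (shift_injective x (hs m) hmm).1
  calc d = ((Finset.univ.image (fun m => shift x m (s m)) :
      Finset (Fin d → ℤ)) : Set (Fin d → ℤ)).ncard := by rw [Set.ncard_coe_finset, hcard]
    _ ≤ _ := Set.ncard_le_ncard hsub (finite_adj_inter x A)

/-- distance to the end of the coarse box in direction `s` -/
def cEnd (ℓ : ℕ) (y : Fin d → ℤ) (m : Fin d) (s : ℤ) (x : Fin d → ℤ) : ℕ :=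
  (if s = 1 then ℓ * (y m + 1) - 1 - x m else x m - ℓ * y m).toNat

/-- the rank used in the induction inside a coarse box -/
def crk (ℓ : ℕ) (M : Finset (Fin d)) (y : Fin d → ℤ) (s : Fin d → ℤ) (x : Fin d → ℤ) : ℕ :=
  ∑ m ∈ M, cEnd ℓ y m (s m) x

theorem crk_lt {ℓ : ℕ} {M : Finset (Fin d)} {y s x : Fin d → ℤ} {m : Fin d} (hm : m ∈ M)
    (hs : s m = 1 ∨ s m = -1) (hx : ℓ * y m ≤ x m ∧ x m < ℓ * (y m + 1))
    (hin : ℓ * y m ≤ x m + s m ∧ x m + s m < ℓ * (y m + 1)) :
    crk ℓ M y s (shift x m (s m)) < crk ℓ M y s x := by
  unfold crk
  refine Finset.sum_lt_sum (fun i _ => ?_) ⟨m, hm, ?_⟩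
  · by_cases hi : i = m
    · subst hi
      unfold cEnd
      rw [shift_same]
      rcases hs with h | h
      · simp only [h, if_true] at hin ⊢
        omega
      · have h1 : ¬ (s i = 1) := by rw [h]; decide
        simp only [if_neg h1] at hin ⊢
        omega
    · unfold cEnd
      rw [shift_ne _ _ hi]
  · unfold cEnd
    rw [shift_same]
    rcases hs with h | h
    · simp only [h, if_true] at hin ⊢
      omega
    · have h1 : ¬ (s m = 1) := by rw [h]; decide
      simp only [if_neg h1] at hin ⊢
      omega

/-- A good coarse box whose neighbours in all directions but one are full is full. -/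
theorem coarse_closed {ℓ : ℕ} (hℓ : 1 ≤ ℓ) (ω : Config d) :
    CoreClosed (coarse ℓ ω) {y | ∀ x, box ℓ x = y → x ∈ finalSet d ω} := by
  classical
  constructor
  · intro y hy x hx
    by_cases hcc : CClosed ℓ ω y
    · unfold coarse at hy
      rw [if_pos hcc] at hy
      exact absurd hy (by decide)
    · by_cases ho : ∀ x, box ℓ x = y → ω x = SiteState.occupied
      · exact occupied_mem_finalSet (ho x hx)
      · unfold coarse at hy
        rw [if_neg hcc, if_neg ho] at hy
        exact absurd hy (by decide)
  · intro y hy hall
    have hcc : ¬ CClosed ℓ ω y := by
      intro hcc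
      apply hy
      unfold coarse
      rw [if_pos hcc]
    have hnc : ∀ x, box ℓ x = y → ω x ≠ SiteState.closed := fun x hx h =>
      hcc (Or.inl ⟨x, hx, h⟩)
    have hline : ∀ x m, box ℓ x = y → ∃ x', box ℓ x' = y ∧ (∀ i, i ≠ m → x' i = x i) ∧
        ω x' = SiteState.occupied := by
      intro x m hx
      by_contra hcon
      push Not at hcon
      exact hcc (Or.inr ⟨x, m, hx, hcon⟩)
    obtain ⟨m0, _, hnb⟩ := hall
    have hnb' : ∀ m, ∃ s : ℤ, (s = 1 ∨ s = -1) ∧ (m ≠ m0 →
        ∀ x, box ℓ x = shift y m s → x ∈ finalSet d ω) := by
      intro m
      by_cases hm : m = m0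
      · exact ⟨1, Or.inl rfl, fun h => absurd hm h⟩
      · obtain ⟨s, hs, h1⟩ := hnb m (Finset.notMem_empty m) hm
        exact ⟨s, hs, fun _ => h1⟩
    choose s hs hfull using hnb'
    have key : ∀ N : ℕ, ∀ x, box ℓ x = y → crk ℓ (Finset.univ.erase m0) y s x = N →
        x ∈ finalSet d ω := by
      intro N
      induction N using Nat.strong_induction_on with
      | _ N ihN =>
        intro x hx hN
        obtain ⟨xs, hxs, hxsl, hocc⟩ := hline x m0 hx
        -- induct along the line
        have along : ∀ k : ℕ, ∀ x', box ℓ x' = y → (∀ i, i ≠ m0 → x' i = x i) →
            |x' m0 - xs m0| = k → x' ∈ finalSet d ω := by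
          intro k
          induction k with
          | zero =>
            intro x' hx' hl hk
            have : x' = xs := by
              funext i
              by_cases hi : i = m0
              · subst hi
                have := abs_eq_zero.mp hk
                omega
              · rw [hl i hi, hxsl i hi]
            rw [this]
            exact occupied_mem_finalSet hocc
          | succ k ihk =>
            intro x' hx' hl hk
            have hb1 := box_bounds hℓ hx'
            have hb2 := box_bounds hℓ hxs
            -- the step towards `xs`
            obtain ⟨s0, hs0, hin, hdist⟩ : ∃ s0 : ℤ, (s0 = 1 ∨ s0 = -1) ∧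
                (ℓ * y m0 ≤ x' m0 + s0 ∧ x' m0 + s0 < ℓ * (y m0 + 1)) ∧
                |x' m0 + s0 - xs m0| = k := by
              have h1 := hb1 m0
              have h2 := hb2 m0
              rcases lt_trichotomy (x' m0) (xs m0) with h | h | h
              · refine ⟨1, Or.inl rfl, by omega, ?_⟩
                rw [abs_of_neg (by omega)] at hk
                rw [abs_of_nonpos (by omega)]
                push_cast at hk
                omega
              · exfalso
                rw [h] at hk
                simp at hk
                omega
              · refine ⟨-1, Or.inr rfl, by omega, ?_⟩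
                rw [abs_of_pos (by omega)] at hk
                rw [abs_of_nonneg (by omega)]
                push_cast at hk
                omega
            have hx'' : box ℓ (shift x' m0 s0) = y := by
              refine box_of_bounds hℓ (fun i => ?_)
              by_cases hi : i = m0
              · subst hi; rw [shift_same]; exact hin
              · rw [shift_ne _ _ hi]; exact hb1 i
            have hmem'' : shift x' m0 s0 ∈ finalSet d ω := by
              refine ihk _ hx'' (fun i hi => ?_) ?_
              · rw [shift_ne _ _ hi]; exact hl i hi
              · rw [shift_same]; exact hdist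
            refine finalSet_closed (hnc x' hx') ?_
            refine ncard_of_all (Function.update s m0 s0) (fun m => ?_) (fun m => ?_)
            · by_cases hm : m = m0
              · subst hm; simpa using hs0
              · simpa [hm] using hs m
            · by_cases hm : m = m0
              · subst hm; simpa using hmem''
              · rw [Function.update_of_ne hm]
                by_cases hinm : ℓ * y m ≤ x' m + s m ∧ x' m + s m < ℓ * (y m + 1)
                · refine ihN _ ?_ (shift x' m (s m)) ?_ rfl
                  · have hrk : crk ℓ (Finset.univ.erase m0) y s x' =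
                        crk ℓ (Finset.univ.erase m0) y s x := by
                      unfold crk cEnd
                      refine Finset.sum_congr rfl (fun i hi => ?_)
                      rw [hl i (Finset.ne_of_mem_erase hi)]
                    rw [← hN, ← hrk]
                    exact crk_lt (by simp [hm]) (hs m) (hb1 m) hinm
                  · refine box_of_bounds hℓ (fun i => ?_)
                    by_cases hi : i = m
                    · subst hi; rw [shift_same]; exact hinm
                    · rw [shift_ne _ _ hi]; exact hb1 i
                · refine hfull m hm (shift x' m (s m)) ?_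
                  have hℓ' : (1 : ℤ) ≤ ℓ := by exact_mod_cast hℓ
                  refine box_of_bounds hℓ (fun i => ?_)
                  by_cases hi : i = m
                  · subst hi
                    rw [shift_same, shift_same]
                    have h1 := hb1 i
                    rcases hs i with h2 | h2
                    · rw [h2] at hinm ⊢
                      have h3 : x' i + 1 = ℓ * (y i + 1) := by omega
                      rw [h3]
                      constructor
                      · exact le_rfl
                      · nlinarith
                    · rw [h2] at hinm ⊢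
                      have h3 : x' i = ℓ * y i := by omega
                      rw [h3]
                      constructor
                      · nlinarith
                      · nlinarith
                  · rw [shift_ne _ _ hi, shift_ne _ _ hi]; exact hb1 i
        exact along (x m0 - xs m0).natAbs x hx (fun _ _ => rfl) (by rw [Int.abs_eq_natAbs])
    intro x hx
    exact key _ x hx rfl

end Pool.Agent.Polluted
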